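import Pool.Agent.Y638.RF.Defs

set_option autoImplicit false

/-! # Sums of real formulas -/

namespace Pool.Agent.Y638.RF

open Finset

variable {ι : Type} {D : ι → Type} {w q : ℕ}

/-- sums -/
theorem exists_sum {κ : Type} (s : Finset κ) (G : κ → Fml ι D w q) :
    ∃ F : Fml ι D w q, F.size = ∑ k ∈ s, (G k).size ∧ ∀ x, F.eval x = ∑ k ∈ s, (G k).eval x := by
  classical
  induction s using Finset.induction_on with
  | empty => exact ⟨.const 0, rfl, fun x => rfl⟩
  | insert a s ha ih =>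
    obtain ⟨F, h1, h2⟩ := ih
    refine ⟨.add (G a) F, ?_, fun x => ?_⟩
    · rw [sum_insert ha, ← h1]
      rfl
    · rw [sum_insert ha, ← h2]
      rfl

/-- disjunctions of formulas with the values `0` and `1` -/
theorem exists_or {κ : Type} [Fintype κ] (G : κ → Fml ι D w q) (p : (∀ i, D i) → κ → Prop)
    (hG : ∀ x k, (G k).eval x = 0 ∨ (G k).eval x = 1)
    (hp : ∀ x k, (G k).eval x = 1 ↔ p x k)
    (f : (∀ i, D i) → Bool) (hf : ∀ x, f x = true ↔ ∃ k, p x k) :
    ∃ F : Fml ι D w q, F.size = ∑ k, (G k).size ∧ ∀ x, F.accepts x = f x := by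
  obtain ⟨F, h1, h2⟩ := exists_sum univ G
  refine ⟨F, h1, fun x => ?_⟩
  unfold Fml.accepts
  rw [Bool.eq_iff_iff, decide_eq_true_iff, h2, hf]
  have hnn : ∀ k, 0 ≤ (G k).eval x := fun k => by
    rcases hG x k with h | h <;> rw [h]; norm_num
  constructor
  · intro h
    obtain ⟨k, -, hk⟩ := (sum_pos_iff_of_nonneg (fun k _ => hnn k)).1 h
    refine ⟨k, (hp x k).1 ?_⟩
    rcases hG x k with h | h
    · rw [h] at hk
      exact absurd hk (lt_irrefl _)
    · exact h
  · rintro ⟨k, hk⟩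
    rw [sum_pos_iff_of_nonneg (fun k _ => hnn k)]
    exact ⟨k, mem_univ _, by rw [(hp x k).2 hk]; norm_num⟩

/-- a formula is a program with one inner node -/
theorem exists_program (F : Fml ι D w q) (s : ℕ) (hs : F.size + 1 ≤ s) :
    ∃ B : Program ι D w q s, B.nodes = 1 ∧ ∀ x, B.eval x = F.accepts x := by
  refine ⟨⟨1, .node .sinks F 0 1, by simpa [BP.size] using hs, Fin.last 2⟩, rfl, fun x => ?_⟩
  unfold Program.eval
  have e : (Fin.last 2 : Fin (1 + 2)) = Fin.last (0 + 2) := rfl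
  simp only [BP.val]
  rw [e, Fin.lastCases_last]
  cases F.accepts x <;> simp

end Pool.Agent.Y638.RF
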