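import Pool.Agent.Y638.RF.Prog
import Pool.Agent.Y638.RF.Sum
import Pool.Agent.TH457.Ary.OuMv

set_option autoImplicit false

/-! # Boolean products `u_iᵀ M v_i` and real formulas -/

namespace Pool.Agent.Y638.RF.OuMv

open Finset Pool.Agent.TH697.Form Pool.Agent.TH697.Row Pool.Agent.TH697.Form.OuMv
open Pool.Agent.Y638.RF

variable {n c w : ℕ}

theorem asks (i : Fin n) :
    Asks (Fin n × Fin n) (n ^ 2) 0 (fun _ => True) (ouMv n n) (some i) := by
  classical
  refine ⟨(univ : Finset (Fin n × Fin n)).image ask, fun _ => 0, fun t _ => ask t, enc,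
    ?_, ?_, ?_, ?_, ?_⟩
  · refine card_image_le.trans (le_of_eq ?_)
    rw [card_univ, Fintype.card_prod, Fintype.card_fin, pow_two]
  · exact fun t z => mem_image_of_mem _ (mem_univ t)
  · exact fun t z z' _ => rfl
  · exact fun _ _ => trivial
  · have h : ∀ (t : Fin n × Fin n) (z : Fin n × Fin n → Bool),
        ouMv n n (Function.update (enc z) (some i) (ask t)) = z t := fun t z => ouMv_enc i t z
    simp only [h, ne_eq, not_true_eq_false, filter_false, card_empty]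
    simp

/-- the arithmetic for programs -/
theorem arith_program {n c w l s : ℝ} (hn : 32 ≤ n) (hc : 1 ≤ c) (hw : 1 ≤ w) (hl0 : 1 ≤ l)
    (hl : 4 * l ≤ n ^ 2 / 24) (hs : 0 ≤ s)
    (h : n * ((49 / 600 - 0) * n ^ 2 - 6 * l) ≤
      w * (3 + 12 * (6 * l) + 2 * (w - 1) * c) * s) :
    n ^ 3 ≤ 5000 * (c + l) * w ^ 2 * s := by
  have h0 : 1024 ≤ n ^ 2 := by nlinarith
  have h1 : n ^ 2 / 60 ≤ (49 / 600 - 0) * n ^ 2 - 6 * l := by linarith
  have h2 : n * (n ^ 2 / 60) ≤ n * ((49 / 600 - 0) * n ^ 2 - 6 * l) :=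
    mul_le_mul_of_nonneg_left h1 (by linarith)
  have h3 : w * (3 + 12 * (6 * l) + 2 * (w - 1) * c) ≤ 75 * (c + l) * w ^ 2 := by
    have h4 : 3 + 12 * (6 * l) ≤ 75 * l := by linarith
    have h5 : 0 ≤ (w - 1) * (c + l) := mul_nonneg (by linarith) (by linarith)
    calc w * (3 + 12 * (6 * l) + 2 * (w - 1) * c) ≤ w * (75 * (c + l) * w) := by
          apply mul_le_mul_of_nonneg_left _ (by linarith)
          nlinarith
      _ = _ := by ring
  have h4 := mul_le_mul_of_nonneg_right h3 hs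
  have e1 : n * (n ^ 2 / 60) = n ^ 3 / 60 := by ring
  rw [e1] at h2
  have h5 : 0 ≤ (c + l) * w ^ 2 * s := by positivity
  nlinarith

theorem program_bound (hn : 32 ≤ n) (hc : 1 ≤ c) (hw : 1 ≤ w) {Ω : Type} [Fintype Ω] (μ : Ω → ℝ)
    (hμ : IsProb μ) (s : ℕ) (F : Ω → Program (Option (Fin n)) (Item n n) w (2 ^ c) s)
    (hF : ApproximatesOn μ (fun ω => (F ω).eval) (fun _ => True) (ouMv n n)) :
    (n : ℝ) ^ 3 ≤ 5000 * (c + Real.logb 2 n) * w ^ 2 * s := by
  classical
  have hw' : (1 : ℝ) ≤ w := by exact_mod_cast hw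
  have hc' : (1 : ℝ) ≤ c := by exact_mod_cast hc
  have hs0 : (0 : ℝ) ≤ s := Nat.cast_nonneg s
  have hn' : (32 : ℝ) ≤ n := by exact_mod_cast hn
  obtain ⟨hl, hl1⟩ := Pool.Agent.TH457.Ary.OuMv.logb_n hn
  obtain ⟨l, hl'⟩ : ∃ l, l = Real.logb 2 (n : ℝ) := ⟨_, rfl⟩
  rw [← hl'] at hl hl1 ⊢
  by_cases hsn : n ^ 3 ≤ s
  · have h1 : (n : ℝ) ^ 3 ≤ s := by exact_mod_cast hsn
    have h2 : (1 : ℝ) ≤ w ^ 2 := by nlinarith
    have h3 : (1 : ℝ) ≤ 5000 * (c + l) := by linarith
    have h4 : (1 : ℝ) ≤ 5000 * (c + l) * w ^ 2 := by nlinarith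
    nlinarith
  have hM : 4 * n ^ 2 * (2 * s + 1) + 2 + s ≤ n ^ 6 := by
    have h1 : s < n ^ 3 := by omega
    have h2 : 4 * n ^ 2 * (2 * s + 1) ≤ 4 * n ^ 2 * (2 * n ^ 3) := Nat.mul_le_mul_left _ (by omega)
    have h3 : 4 * n ^ 2 * (2 * n ^ 3) = 8 * n ^ 5 := by ring
    have h4 : n ^ 3 ≤ n ^ 5 := Nat.pow_le_pow_right (by omega) (by norm_num)
    have h5 : 32 * n ^ 5 ≤ n ^ 6 := by
      calc 32 * n ^ 5 ≤ n * n ^ 5 := Nat.mul_le_mul_right _ hn
        _ = n ^ 6 := by ring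
    have h6 : 1 ≤ n ^ 5 := Nat.one_le_pow _ _ (by omega)
    omega
  have h := program_lower μ hμ s F (fun _ => True) (ouMv n n) hF
    Nat.one_le_two_pow hw (n ^ 2) (n ^ 6) hM 0
    ((univ : Finset (Fin n)).map Function.Embedding.some) (T := Fin n × Fin n) (by
      intro a ha
      rw [mem_map] at ha
      obtain ⟨i, -, rfl⟩ := ha
      exact asks i)
  rw [card_map, card_univ, Fintype.card_fin, Pool.Agent.TH457.Ary.OuMv.card_T] at h
  push_cast at h
  rw [Pool.Agent.TH457.Ary.OuMv.logb_two_pow', Real.logb_pow, ← hl'] at h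
  push_cast at h
  exact arith_program hn' hc' hw' hl1 hl hs0 h

/-- multiplication by words of length `c` -/
theorem upper (hc : 1 ≤ c) : ∃ F : Fml (Option (Fin n)) (Item n n) 2 (2 ^ (c + 1)),
    F.size = n ^ 2 * (n / c + 1) ∧ ∀ x, F.accepts x = ouMv n n x := by
  classical
  obtain ⟨F, h1, h2⟩ := exists_or (w := 2) (q := 2 ^ (c + 1))
    (fun p : Fin n × Fin n × Fin (n / c + 1) => Fml.word ⟨
      (Pool.Agent.TH457.Ary.OuMv.part n c p).item, (Pool.Agent.TH457.Ary.OuMv.part n c p).view,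
      fun e => if (Pool.Agent.TH457.Ary.OuMv.part n c p).out e = true then 1 else 0⟩)
    (fun x p => (Pool.Agent.TH457.Ary.OuMv.part n c p).eval x = true)
    (fun x p => by
      simp only [Fml.eval]
      split_ifs <;> simp)
    (fun x p => by
      simp only [Fml.eval, Pool.Agent.TH457.Ary.Test.eval]
      split_ifs with h
      · simp [h]
      · simp [h])
    (ouMv n n) (fun x => by
      unfold ouMv
      rw [decide_eq_true_iff]
      constructor
      · rintro ⟨i, j, k, h1, h2, h3⟩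
        have hk : k.val / c < n / c + 1 := by
          have := Nat.div_le_div_right (c := c) k.2.le
          omega
        have hk2 : k.val / c * c + k.val % c = k.val := by
          have := Nat.div_add_mod k.val c
          rw [mul_comm] at this
          exact this
        refine ⟨(i, j, ⟨k.val / c, hk⟩), (Pool.Agent.TH457.Ary.OuMv.part_eval _ x).2
          ⟨h1, ⟨k.val % c, Nat.mod_lt _ hc⟩, ?_, ?_⟩⟩
        · simp only
          rw [hk2]
          exact k.2
        · simp only [hk2]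
          exact ⟨h3, h2⟩
      · rintro ⟨p, hp⟩
        obtain ⟨h1, l, h, h2, h3⟩ := (Pool.Agent.TH457.Ary.OuMv.part_eval p x).1 hp
        exact ⟨p.1, p.2.1, _, h1, h3, h2⟩)
  refine ⟨F, ?_, h2⟩
  rw [h1]
  simp only [Fml.size, sum_const, card_univ, Fintype.card_prod, Fintype.card_fin, smul_eq_mul]
  ring

end Pool.Agent.Y638.RF.OuMv
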