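import Pool.Agent.Y638.RF.XorDefs
import Pool.Agent.Y638.RF.OuMv

set_option autoImplicit false

/-! # Products `u_iᵀ M v_i` over `ZMod 2` and real formulas -/

namespace Pool.Agent.Y638.RF.Xor

open Finset Pool.Agent.TH697.Form Pool.Agent.TH697.Row
open Pool.Agent.Y638.RF

variable {n c w : ℕ}

/-- the matrix `z` and zero vectors -/
def enc (z : Fin n × Fin n → Bool) : ∀ i, Item n i
  | none => fun j k => if z (j, k) then 1 else 0
  | some _ => (fun _ => 0, fun _ => 0)

/-- a pair of unit vectors -/
def ask (t : Fin n × Fin n) : (Fin n → ZMod 2) × (Fin n → ZMod 2) :=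
  (fun a => if a = t.1 then 1 else 0, fun a => if a = t.2 then 1 else 0)

theorem product_enc (i : Fin n) (t : Fin n × Fin n) (z : Fin n × Fin n → Bool) :
    product n (Function.update (enc z) (some i) (ask t)) = z t := by
  unfold product
  have h0 : Function.update (enc z : ∀ i, Item n i) (some i) (ask t) none =
      fun j k => if z (j, k) then 1 else 0 := by
    rw [Function.update_of_ne (by simp)]
    rfl
  have h1 : ∀ i' : Fin n, (∑ j : Fin n, ∑ k : Fin n,
      (Function.update (enc z : ∀ i, Item n i) (some i) (ask t) (some i')).1 j *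
        (Function.update (enc z : ∀ i, Item n i) (some i) (ask t) none) j k *
        (Function.update (enc z : ∀ i, Item n i) (some i) (ask t) (some i')).2 k) =
      if i' = i then (if z t then 1 else 0) else 0 := by
    intro i'
    rw [h0]
    by_cases hi : i' = i
    · subst hi
      rw [if_pos rfl, Function.update_self]
      simp only [ask]
      rw [Finset.sum_eq_single t.1, Finset.sum_eq_single t.2]
      · simp
      · intro k _ hk
        simp [hk]
      · intro h
        exact absurd (mem_univ _) h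
      · intro j _ hj
        simp [hj]
      · intro h
        exact absurd (mem_univ _) h
    · rw [if_neg hi]
      have h2 : Function.update (enc z : ∀ i, Item n i) (some i) (ask t) (some i') =
          (fun _ => 0, fun _ => 0) := by
        rw [Function.update_of_ne (by simpa using hi)]
        rfl
      rw [h2]
      simp
  rw [Bool.eq_iff_iff, decide_eq_true_iff]
  simp only [h1]
  constructor
  · rintro ⟨i', h⟩
    by_cases hi : i' = i
    · rw [if_pos hi] at h
      by_contra hz
      rw [if_neg hz] at h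
      exact zero_ne_one h
    · rw [if_neg hi] at h
      exact absurd h zero_ne_one
  · intro h
    exact ⟨i, by rw [if_pos rfl, if_pos h]⟩

theorem asks (i : Fin n) :
    Asks (Fin n × Fin n) (n ^ 2) 0 (fun _ => True) (product n) (some i) := by
  classical
  refine ⟨(univ : Finset (Fin n × Fin n)).image ask, fun _ => 0, fun t _ => ask t, enc,
    ?_, ?_, ?_, ?_, ?_⟩
  · refine card_image_le.trans (le_of_eq ?_)
    rw [card_univ, Fintype.card_prod, Fintype.card_fin, pow_two]
  · exact fun t z => mem_image_of_mem _ (mem_univ t)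
  · exact fun t z z' _ => rfl
  · exact fun _ _ => trivial
  · have h : ∀ (t : Fin n × Fin n) (z : Fin n × Fin n → Bool),
        product n (Function.update (enc z) (some i) (ask t)) = z t := fun t z => product_enc i t z
    simp only [h, ne_eq, not_true_eq_false, filter_false, card_empty]
    simp

theorem program_bound (hn : 32 ≤ n) (hc : 1 ≤ c) (hw : 1 ≤ w) {Ω : Type} [Fintype Ω] (μ : Ω → ℝ)
    (hμ : IsProb μ) (s : ℕ) (F : Ω → Program (Option (Fin n)) (Item n) w (2 ^ c) s)
    (hF : ApproximatesOn μ (fun ω => (F ω).eval) (fun _ => True) (product n)) :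
    (n : ℝ) ^ 3 ≤ 5000 * (c + Real.logb 2 n) * w ^ 2 * s := by
  classical
  have hw' : (1 : ℝ) ≤ w := by exact_mod_cast hw
  have hc' : (1 : ℝ) ≤ c := by exact_mod_cast hc
  have hs0 : (0 : ℝ) ≤ s := Nat.cast_nonneg s
  have hn' : (32 : ℝ) ≤ n := by exact_mod_cast hn
  obtain ⟨hl, hl1⟩ := Pool.Agent.TH457.Ary.OuMv.logb_n hn
  obtain ⟨l, hl'⟩ : ∃ l, l = Real.logb 2 (n : ℝ) := ⟨_, rfl⟩
  rw [← hl'] at hl hl1 ⊢
  by_cases hsn : n ^ 3 ≤ s
  · have h1 : (n : ℝ) ^ 3 ≤ s := by exact_mod_cast hsn
    have h2 : (1 : ℝ) ≤ w ^ 2 := by nlinarith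
    have h3 : (1 : ℝ) ≤ 5000 * (c + l) := by linarith
    have h4 : (1 : ℝ) ≤ 5000 * (c + l) * w ^ 2 := by nlinarith
    nlinarith
  have hM : 4 * n ^ 2 * (2 * s + 1) + 2 + s ≤ n ^ 6 := by
    have h1 : s < n ^ 3 := by omega
    have h2 : 4 * n ^ 2 * (2 * s + 1) ≤ 4 * n ^ 2 * (2 * n ^ 3) := Nat.mul_le_mul_left _ (by omega)
    have h3 : 4 * n ^ 2 * (2 * n ^ 3) = 8 * n ^ 5 := by ring
    have h4 : n ^ 3 ≤ n ^ 5 := Nat.pow_le_pow_right (by omega) (by norm_num)
    have h5 : 32 * n ^ 5 ≤ n ^ 6 := by
      calc 32 * n ^ 5 ≤ n * n ^ 5 := Nat.mul_le_mul_right _ hn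
        _ = n ^ 6 := by ring
    have h6 : 1 ≤ n ^ 5 := Nat.one_le_pow _ _ (by omega)
    omega
  have h := program_lower μ hμ s F (fun _ => True) (product n) hF
    Nat.one_le_two_pow hw (n ^ 2) (n ^ 6) hM 0
    ((univ : Finset (Fin n)).map Function.Embedding.some) (T := Fin n × Fin n) (by
      intro a ha
      rw [mem_map] at ha
      obtain ⟨i, -, rfl⟩ := ha
      exact asks i)
  rw [card_map, card_univ, Fintype.card_fin, Pool.Agent.TH457.Ary.OuMv.card_T] at h
  push_cast at h
  rw [Pool.Agent.TH457.Ary.OuMv.logb_two_pow', Real.logb_pow, ← hl'] at h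
  push_cast at h
  exact Pool.Agent.Y638.RF.OuMv.arith_program hn' hc' hw' hl1 hl hs0 h

/-! ## multiplication by words of length `c` -/

/-- the codes -/
noncomputable def code (c : ℕ) : (ZMod 2 × (Fin c → ZMod 2)) ≃ Fin (2 ^ (c + 1)) :=
  Fintype.equivFinOfCardEq (by simp [ZMod.card]; ring)

/-- a part of a vector -/
def cut (c : ℕ) (v : Fin n → ZMod 2) (a : ℕ) (l : Fin c) : ZMod 2 :=
  if h : l.val + c * a < n then v ⟨l.val + c * a, h⟩ else 0

theorem sum_cut (hc : 1 ≤ c) (u v : Fin n → ZMod 2) :
    ∑ a : Fin (n / c + 1), ∑ l : Fin c, cut c u a l * cut c v a l = ∑ k, u k * v k := by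
  obtain ⟨g, hg⟩ : ∃ g : ℕ → ZMod 2, g = fun k => if h : k < n then u ⟨k, h⟩ * v ⟨k, h⟩ else 0 :=
    ⟨_, rfl⟩
  have h1 : ∀ (a : Fin (n / c + 1)) (l : Fin c), cut c u a l * cut c v a l =
      g (finProdFinEquiv (a, l)).val := by
    intro a l
    rw [hg]
    unfold cut
    simp only [finProdFinEquiv_apply_val]
    split_ifs <;> simp
  have h2 : ∑ a : Fin (n / c + 1), ∑ l : Fin c, cut c u a l * cut c v a l =
      ∑ k : Fin ((n / c + 1) * c), g k.val := by
    simp only [h1]
    rw [← Fintype.sum_prod_type' (f := fun (a : Fin (n / c + 1)) (l : Fin c) =>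
      g (finProdFinEquiv (a, l)).val)]
    exact Equiv.sum_comp finProdFinEquiv (fun k => g k.val)
  have h3 : n ≤ (n / c + 1) * c := by
    have h4 := Nat.lt_succ_iff.1 (Nat.lt_succ_of_lt (Nat.lt_mul_div_succ n hc))
    calc n ≤ c * (n / c + 1) := h4
      _ = (n / c + 1) * c := mul_comm _ _
  have h4 : ∑ k : Fin n, u k * v k = ∑ k : Fin n, g k.val := by
    refine sum_congr rfl fun k _ => ?_
    rw [hg]
    simp only
    rw [dif_pos k.2]
  rw [h2, h4, Fin.sum_univ_eq_sum_range, Fin.sum_univ_eq_sum_range]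
  symm
  apply sum_subset
  · intro k hk
    rw [mem_range] at hk ⊢
    omega
  · intro k _ hk
    rw [mem_range] at hk
    rw [hg]
    simp only
    rw [dif_neg hk]

/-- the `a`-th part of the `j`-th row -/
noncomputable def part (n c : ℕ) (i j : Fin n) (a : ℕ) :
    Word (Option (Fin n)) (Item n) 2 (2 ^ (c + 1)) where
  item := ![some i, none]
  view := fun k => match k with
    | ⟨0, _⟩ => fun (v : (Fin n → ZMod 2) × (Fin n → ZMod 2)) => code c (v.1 j, cut c v.2 a)
    | ⟨1, _⟩ => fun (M : Fin n → Fin n → ZMod 2) => code c (1, cut c (M j) a)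
  out := fun e => if ((code c).symm (e 0)).1 *
    ∑ l, ((code c).symm (e 1)).2 l * ((code c).symm (e 0)).2 l = 1 then 1 else 0

theorem part_eval (i j : Fin n) (a : ℕ) (x : ∀ i, Item n i) :
    (Fml.word (part n c i j a)).eval x = if (x (some i)).1 j *
      ∑ l, cut c (x none j) a l * cut c (x (some i)).2 a l = 1 then 1 else 0 := by
  have e0 : ∀ v : ZMod 2 × (Fin c → ZMod 2), (code c).symm (code c v) = v :=
    fun v => (code c).symm_apply_apply v
  have e1 : (Fml.word (part n c i j a)).eval x = if ((code c).symm (code c ((x (some i)).1 j,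
      cut c (x (some i)).2 a))).1 *
    ∑ l, ((code c).symm (code c (1, cut c (x none j) a))).2 l *
      ((code c).symm (code c ((x (some i)).1 j, cut c (x (some i)).2 a))).2 l = 1 then 1 else 0 :=
    rfl
  rw [e1, e0, e0]

/-- the value of a sum over `ZMod 2` -/
theorem sum_eq_card {κ : Type} [Fintype κ] (g : κ → ZMod 2) :
    ∑ p, g p = ((univ.filter (fun p => g p = 1)).card : ZMod 2) := by
  rw [card_filter]
  push_cast
  refine sum_congr rfl fun p _ => ?_
  have : ∀ y : ZMod 2, y = if y = 1 then 1 else 0 := by decide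
  exact this (g p)

theorem upper (hc : 1 ≤ c) : ∃ F : Fml (Option (Fin n)) (Item n) 2 (2 ^ (c + 1)),
    F.size = 2 * n ^ 2 * (n / c + 1) ∧ ∀ x, F.accepts x = product n x := by
  classical
  obtain ⟨e, -⟩ : ∃ e : Fin (n * (n / c + 1)) ≃ Fin n × Fin (n / c + 1), True :=
    ⟨finProdFinEquiv.symm, trivial⟩
  obtain ⟨F, h1, h2⟩ := exists_or (w := 2) (q := 2 ^ (c + 1))
    (fun i : Fin n => Fml.sym (n * (n / c + 1)) (fun k => if k % 2 = 1 then 1 else 0)
      (fun p => Fml.word (part n c i (e p).1 (e p).2)))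
    (fun x i => ∑ j : Fin n, ∑ k : Fin n,
      (x (some i)).1 j * (x none) j k * (x (some i)).2 k = 1)
    (fun x i => by
      simp only [Fml.eval]
      split_ifs <;> simp)
    (fun x i => by
      have h3 : ∑ j : Fin n, ∑ k : Fin n, (x (some i)).1 j * (x none) j k * (x (some i)).2 k =
          ∑ p : Fin (n * (n / c + 1)), (x (some i)).1 (e p).1 *
            ∑ l, cut c (x none (e p).1) (e p).2 l * cut c (x (some i)).2 (e p).2 l := by
        rw [Equiv.sum_comp e (fun p : Fin n × Fin (n / c + 1) => (x (some i)).1 p.1 *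
            ∑ l, cut c (x none p.1) p.2 l * cut c (x (some i)).2 p.2 l), Fintype.sum_prod_type]
        refine sum_congr rfl fun j _ => ?_
        simp only
        rw [← mul_sum, sum_cut hc, mul_sum]
        exact sum_congr rfl fun k _ => mul_assoc _ _ _
      rw [h3, sum_eq_card]
      have h4 : (Fml.sym (n * (n / c + 1)) (fun k => if k % 2 = 1 then (1 : ℝ) else 0)
          (fun p => Fml.word (part n c i (e p).1 (e p).2))).eval x =
          if (univ.filter (fun p : Fin (n * (n / c + 1)) => (x (some i)).1 (e p).1 *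
            ∑ l, cut c (x none (e p).1) (e p).2 l *
              cut c (x (some i)).2 (e p).2 l = 1)).card % 2 = 1 then 1 else 0 := by
        unfold Fml.eval
        congr 3
        funext p
        simp only
        rw [part_eval]
        split_ifs with h
        · simp [h]
        · simp [h]
      rw [h4]
      obtain ⟨N, hN⟩ : ∃ N, N = (univ.filter (fun p : Fin (n * (n / c + 1)) =>
        (x (some i)).1 (e p).1 * ∑ l, cut c (x none (e p).1) (e p).2 l *
          cut c (x (some i)).2 (e p).2 l = 1)).card := ⟨_, rfl⟩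
      rw [← hN]
      have h5 : (N : ZMod 2) = 1 ↔ N % 2 = 1 := by
        have := ZMod.natCast_eq_natCast_iff' N 1 2
        simpa using this
      rw [h5]
      split_ifs with h <;> simp [h])
    (product n) (fun x => by
      unfold product
      rw [decide_eq_true_iff])
  refine ⟨F, ?_, h2⟩
  rw [h1]
  simp only [Fml.size, sum_const, card_univ, Fintype.card_fin, smul_eq_mul]
  ring

end Pool.Agent.Y638.RF.Xor
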