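import Pool.Agent.Y638.RF.NetGen
import Pool.Agent.Y638.RF.ZeroSum

set_option autoImplicit false

/-! # 3SUM and networks -/

namespace Pool.Agent.Y638.RF.ZeroSum

open Finset Pool.Agent.TH697.Form Pool.Agent.TH697.Row Pool.Agent.TH697.Form.ThreeSum
open Pool.Agent.TH457.Ary.ZeroSum Pool.Agent.TH457.Ary.ThreeSum Pool.Agent.Y638.RF

variable {n b c w : ℕ}

/-- the arithmetic for networks -/
theorem arith_net {n g c w L l s : ℝ} (hn : 0 ≤ n) (hg : 8 ≤ g) (hc : 1 ≤ c) (hw : 1 ≤ w)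
    (hl : l ≤ 9 / 8 * g) (hL : L ≤ 4 / 3 * c * g) (hs : 0 ≤ s)
    (h : n * (n * g * (1 / 7)) ≤ 4000 * w * (Real.sqrt (n * g * (1 / 7)) +
      (3 + 10 * (5 * l) + 2 * (w - 1) * L)) * s) :
    n ^ 2 ≤ 4000 * w * (Real.sqrt n + 400 * c * w) * s := by
  have h1 : Real.sqrt (n * g * (1 / 7)) ≤ 1 / 7 * g * Real.sqrt n :=
    sqrt_mul_le hn (by linarith) (by norm_num) (by norm_num) (by linarith)
  have h2 : 3 + 10 * (5 * l) + 2 * (w - 1) * L ≤ 57 * (c * w * g) := by
    have h3 : (w - 1) * L ≤ (w - 1) * (4 / 3 * c * g) := mul_le_mul_of_nonneg_left hL (by linarith)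
    have h4 : 3 + 10 * (5 * l) ≤ 57 * g := by linarith
    have h5 : g ≤ c * g := by nlinarith
    have h6 : 0 ≤ (w - 1) * (c * g) := by
      apply mul_nonneg (by linarith)
      positivity
    nlinarith
  have h3 : n * (n * g * (1 / 7)) ≤ 4000 * w * (1 / 7 * g * Real.sqrt n +
      57 * (c * w * g)) * s := by
    refine h.trans ?_
    apply mul_le_mul_of_nonneg_right _ hs
    apply mul_le_mul_of_nonneg_left _ (by linarith)
    linarith
  have h4 : g * n ^ 2 ≤ g * (4000 * w * (Real.sqrt n + 399 * c * w) * s) := by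
    have e1 : n * (n * g * (1 / 7)) = g * n ^ 2 / 7 := by ring
    have e2 : 4000 * w * (1 / 7 * g * Real.sqrt n + 57 * (c * w * g)) * s =
        g * (4000 * w * (Real.sqrt n + 399 * c * w) * s) / 7 := by ring
    rw [e1, e2] at h3
    linarith
  have h5 := le_of_mul_le_mul_left h4 (by linarith)
  refine h5.trans ?_
  apply mul_le_mul_of_nonneg_right _ hs
  apply mul_le_mul_of_nonneg_left _ (by linarith)
  have : 0 ≤ c * w := by positivity
  nlinarith

theorem trivial_case {n c w s : ℝ} (hn : 0 ≤ n) (hc : 1 ≤ c) (hw : 1 ≤ w) (a b : ℝ) (ha : 1 ≤ a)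
    (hb : 1 ≤ b) (h : n ^ 2 ≤ s) :
    n ^ 2 ≤ a * w * (Real.sqrt n + b * c * w) * s := by
  have h1 : 1 ≤ a * w * (Real.sqrt n + b * c * w) := by
    have h2 : 1 ≤ a * w := by nlinarith
    have h3 : 1 ≤ b * c * w := by
      have : 1 ≤ b * c := by nlinarith
      nlinarith
    have h4 : 1 ≤ Real.sqrt n + b * c * w := by
      have := Real.sqrt_nonneg n
      linarith
    nlinarith
  have h2 : 0 ≤ s := le_trans (by positivity) h
  nlinarith

theorem net_bound' (hn : 1000 ≤ n) (hc : 1 ≤ c) (hw : 1 ≤ w) {Ω : Type} [Fintype Ω] (μ : Ω → ℝ)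
    (hμ : IsProb μ) (s : ℕ) (F : Ω → Net (Option (Fin n)) (Item n n) w ((2 * n) ^ c))
    (hs : ∀ ω, (F ω).size ≤ s)
    (hF : ApproximatesOn μ (fun ω => (F ω).eval) (Valid n n) (zeroSum n) ∨
      ApproximatesOn μ (fun ω x => !(F ω).eval x) (Valid n n) (zeroSum n)) :
    (n : ℝ) ^ 2 ≤ 4000 * w * (Real.sqrt n + 400 * c * w) * s := by
  classical
  have hw' : (1 : ℝ) ≤ w := by exact_mod_cast hw
  have hc' : (1 : ℝ) ≤ c := by exact_mod_cast hc
  have hs0 : (0 : ℝ) ≤ s := Nat.cast_nonneg s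
  by_cases hsn : n ^ 2 ≤ s
  · exact trivial_case (Nat.cast_nonneg n) hc' hw' 4000 400 (by norm_num) (by norm_num)
      (by exact_mod_cast hsn)
  obtain ⟨b, hb, hL, hb2⟩ := params (n := n) (by omega)
  have hM : 4 * n ^ 2 * (2 * s + 1) + 2 + s ≤ n ^ 5 := by
    have h1 : s < n ^ 2 := by omega
    have h2 : 4 * n ^ 2 * (2 * s + 1) ≤ 4 * n ^ 2 * (2 * n ^ 2) := Nat.mul_le_mul_left _ (by omega)
    have h3 : 4 * n ^ 2 * (2 * n ^ 2) = 8 * n ^ 4 := by ring
    have h4 : n ^ 2 ≤ n ^ 4 := Nat.pow_le_pow_right (by omega) (by norm_num)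
    have h5 : 16 * n ^ 4 ≤ n ^ 5 := by
      calc 16 * n ^ 4 ≤ n * n ^ 4 := Nat.mul_le_mul_right _ (by omega)
        _ = n ^ 5 := by ring
    have h6 : 1 ≤ n ^ 4 := Nat.one_le_pow _ _ (by omega)
    omega
  have hg : (8 : ℝ) ≤ Nat.log 2 n := by exact_mod_cast hL
  have hn' : (1000 : ℝ) ≤ n := by exact_mod_cast hn
  have h := net_bound_le μ hμ F (Valid n n) (zeroSum n) hF s hs
    (Nat.one_le_pow _ _ (by omega)) hw (n ^ 2) (n ^ 5) hM 0 (by norm_num)
    ((univ : Finset (Fin n)).map Function.Embedding.some) (T := Fin (n / 2) × Fin b) (by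
      intro a ha
      rw [mem_map] at ha
      obtain ⟨i, -, rfl⟩ := ha
      exact asks hb (by omega) i) ((n : ℝ) * (Nat.log 2 n : ℕ) * (1 / 7)) (by nlinarith) (by
      have := card_T (n := n) (by omega) hb2
      linarith)
  rw [card_map, card_univ, Fintype.card_fin, Nat.cast_pow n 5, Real.logb_pow] at h
  push_cast at h
  refine arith_net (l := Real.logb 2 n) (L := Real.logb 2 (((2 * n) ^ c : ℕ) : ℝ))
    (g := Nat.log 2 n) (Nat.cast_nonneg n) hg hc' hw' ?_ (logb_q (by omega) hL) hs0 ?_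
  · have h1 := logb_n (n := n) (by omega)
    linarith
  · push_cast
    exact h

end Pool.Agent.Y638.RF.ZeroSum
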