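import Pool.Agent.Y638.RF.Defs
import Pool.Agent.Y638.RF.NetDefs

set_option autoImplicit false

/-! # Grouping the items into blocks -/

namespace Pool.Agent.Y638.RF

open Finset

variable {ι β V : Type} {w q : ℕ}

/-- The items, from blocks: item `i` is read in the block `b i`. -/
def ungroup (b : ι → β) (x : β → ι → V) : ι → V := fun i => x (b i) i

/-- A formula of the items as a formula of the blocks. -/
def Fml.grp (b : ι → β) : Fml ι (fun _ => V) w q → Fml β (fun _ => ι → V) w q
  | .const c => .const c
  | .item i f => .item (b i) (fun y => f (y i))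
  | .word τ => .word ⟨fun k => b (τ.item k), fun k y => τ.view k (y (τ.item k)), τ.out⟩
  | .add F G => .add (F.grp b) (G.grp b)
  | .mul F G => .mul (F.grp b) (G.grp b)
  | .pos F => .pos (F.grp b)
  | .sym k h F => .sym k h (fun j => (F j).grp b)

theorem Fml.eval_grp (b : ι → β) (F : Fml ι (fun _ => V) w q) (x : β → ι → V) :
    (F.grp b).eval x = F.eval (ungroup b x) := by
  induction F with
  | const c => rfl
  | item i f => rfl
  | word τ => rfl
  | add F G ihF ihG => simp only [Fml.grp, Fml.eval, ihF, ihG]
  | mul F G ihF ihG => simp only [Fml.grp, Fml.eval, ihF, ihG]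
  | pos F ih => simp only [Fml.grp, Fml.eval, ih]
  | sym k h F ih => simp only [Fml.grp, Fml.eval, ih]

theorem Fml.size_grp (b : ι → β) (F : Fml ι (fun _ => V) w q) : (F.grp b).size = F.size := by
  induction F with
  | const c => rfl
  | item i f => rfl
  | word τ => rfl
  | add F G ihF ihG => simp only [Fml.grp, Fml.size, ihF, ihG]
  | mul F G ihF ihG => simp only [Fml.grp, Fml.size, ihF, ihG]
  | pos F ih => simp only [Fml.grp, Fml.size, ih]
  | sym k h F ih => simp only [Fml.grp, Fml.size, ih]

theorem Fml.accepts_grp (b : ι → β) (F : Fml ι (fun _ => V) w q) (x : β → ι → V) :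
    (F.grp b).accepts x = F.accepts (ungroup b x) := by
  unfold Fml.accepts
  rw [Fml.eval_grp]

/-- Branching programs. -/
def BP.grp (b : ι → β) : {n : ℕ} → BP ι (fun _ => V) w q n → BP β (fun _ => ι → V) w q n
  | _, .sinks => .sinks
  | _, .node B F no yes => .node (B.grp b) (F.grp b) no yes

theorem BP.val_grp (b : ι → β) : ∀ {n : ℕ} (B : BP ι (fun _ => V) w q n) (x : β → ι → V)
    (v : Fin (n + 2)), (B.grp b).val x v = B.val (ungroup b x) v
  | _, .sinks, _, _ => rfl
  | _, .node B F no yes, x, v => by
      simp only [BP.grp, BP.val, Fml.accepts_grp, BP.val_grp b B]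

theorem BP.size_grp (b : ι → β) : ∀ {n : ℕ} (B : BP ι (fun _ => V) w q n),
    (B.grp b).size = B.size
  | _, .sinks => rfl
  | _, .node B F no yes => by
      simp only [BP.grp, BP.size, Fml.size_grp, BP.size_grp b B]

/-- Programs. -/
def Program.grp {s : ℕ} (b : ι → β) (B : Program ι (fun _ => V) w q s) :
    Program β (fun _ => ι → V) w q s where
  nodes := B.nodes
  bp := B.bp.grp b
  size_le := by rw [BP.size_grp]; exact B.size_le
  start := B.start

theorem Program.eval_grp {s : ℕ} (b : ι → β) (B : Program ι (fun _ => V) w q s)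
    (x : β → ι → V) : (B.grp b).eval x = B.eval (ungroup b x) := by
  unfold Program.eval Program.grp
  exact BP.val_grp b B.bp x B.start

/-- Networks. -/
def Net.grp (b : ι → β) (N : Net ι (fun _ => V) w q) : Net β (fun _ => ι → V) w q where
  nodes := N.nodes
  start := N.start
  stop := N.stop
  free := N.free
  tests := N.tests
  src := N.src
  dst := N.dst
  fml := fun k => (N.fml k).grp b

theorem Net.eval_grp (b : ι → β) (N : Net ι (fun _ => V) w q) (x : β → ι → V) :
    (N.grp b).eval x = N.eval (ungroup b x) := by
  have h : (N.grp b).Accepts x ↔ N.Accepts (ungroup b x) := by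
    unfold Net.Accepts
    have e : (N.grp b).Step x = N.Step (ungroup b x) := by
      funext u v
      unfold Net.Step Net.grp
      simp only [Fml.accepts_grp]
    rw [e]
    rfl
  unfold Net.eval
  exact decide_eq_decide.2 h

theorem Net.size_grp (b : ι → β) (N : Net ι (fun _ => V) w q) : (N.grp b).size = N.size := by
  unfold Net.size Net.grp
  simp only [Fml.size_grp]

end Pool.Agent.Y638.RF
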