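import Mathlib

set_option autoImplicit false

/-! # Triangles of weight zero -/

namespace Pool.Agent.Y638.RF.ZT

/-- All weights are between `- (n + 1)` and `n + 1`. -/
def InRange {n : ℕ} (x : Fin 3 × Fin n × Fin n → ℤ) : Prop := ∀ e, |x e| ≤ n + 1

open Classical in
/-- A tripartite graph with three parts of `n` vertices: `x (0, i, j)` is the weight of the edge
between vertex `i` of part 1 and vertex `j` of part 2, `x (1, j, k)` the weight of the edge between
vertex `j` of part 2 and vertex `k` of part 3, and `x (2, i, k)` the weight of the edge between vertex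
`i` of part 1 and vertex `k` of part 3. Is there a triangle of weight zero? -/
noncomputable def zeroTri {n : ℕ} (x : Fin 3 × Fin n × Fin n → ℤ) : Bool :=
  decide (∃ i j k : Fin n, x (0, i, j) + x (1, j, k) + x (2, i, k) = 0)

end Pool.Agent.Y638.RF.ZT
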