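import Pool.Agent.Y638.RF.NetGen
import Pool.Agent.Y638.RF.NetZTDefs

set_option autoImplicit false

/-! # Triangles of weight zero and networks -/

namespace Pool.Agent.Y638.RF.ZT

open Finset Pool.Agent.TH697.Form Pool.Agent.TH697.Row
open Pool.Agent.Y638.RF

variable {n : ℕ}

/-- the weights which store `z` for the edge `(0, i, j)` -/
def store (j : Fin n) (z : Fin n → Bool) (e : Fin 3 × Fin n × Fin n) : ℤ :=
  if e.1 = 0 then (n : ℤ) + 1
  else if e.1 = 1 ∧ e.2.1 = j ∧ z e.2.2 = true then -(((e.2.2 : ℕ) : ℤ) + 1) else 0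

theorem store_zero (j : Fin n) (z : Fin n → Bool) (a b : Fin n) : store j z (0, a, b) = n + 1 := by
  unfold store
  simp

theorem store_two (j : Fin n) (z : Fin n → Bool) (a b : Fin n) : store j z (2, a, b) = 0 := by
  unfold store
  simp

theorem store_one (j : Fin n) (z : Fin n → Bool) (a b : Fin n) :
    store j z (1, a, b) = if a = j ∧ z b = true then -(((b : ℕ) : ℤ) + 1) else 0 := by
  unfold store
  rw [if_neg (by simp)]
  simp only [true_and]

theorem inRange_update (i j : Fin n) (z : Fin n → Bool) (t : Fin n) :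
    InRange (Function.update (store j z) (0, i, j) ((t : ℕ) + 1)) := by
  have ht := t.2
  intro e
  by_cases he : e = (0, i, j)
  · subst he
    rw [Function.update_self, abs_le]
    constructor <;> omega
  · rw [Function.update_of_ne he]
    obtain ⟨p, a, b⟩ := e
    have hb := b.2
    have h3 : p = 0 ∨ p = 1 ∨ p = 2 := by omega
    rcases h3 with rfl | rfl | rfl
    · rw [store_zero, abs_le]
      constructor <;> omega
    · rw [store_one, abs_le]
      split_ifs <;> constructor <;> omega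
    · rw [store_two, abs_le]
      constructor <;> omega

theorem zeroTri_update (i j : Fin n) (z : Fin n → Bool) (t : Fin n) :
    zeroTri (Function.update (store j z) (0, i, j) ((t : ℕ) + 1)) = z t := by
  classical
  have e1 : ∀ a b, Function.update (store j z) (0, i, j) ((t : ℕ) + 1) (1, a, b) =
      if a = j ∧ z b = true then -(((b : ℕ) : ℤ) + 1) else 0 := by
    intro a b
    rw [Function.update_of_ne (by simp), store_one]
  have e2 : ∀ a b, Function.update (store j z) (0, i, j) ((t : ℕ) + 1) (2, a, b) = (0 : ℤ) := by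
    intro a b
    rw [Function.update_of_ne (by simp), store_two]
  unfold zeroTri
  simp only [e1, e2]
  rw [Bool.eq_iff_iff, decide_eq_true_iff]
  constructor
  · rintro ⟨a, b, k, h⟩
    have hk := k.2
    by_cases hab : a = i ∧ b = j
    · obtain ⟨rfl, rfl⟩ := hab
      rw [Function.update_self] at h
      split_ifs at h with h1
      · have h2 : t = k := Fin.ext (by omega)
        rw [h2]
        exact h1.2
      · omega
    · rw [Function.update_of_ne (by
        intro h1
        apply hab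
        rw [Prod.mk.injEq, Prod.mk.injEq] at h1
        exact h1.2), store_zero] at h
      split_ifs at h <;> omega
  · intro hz
    refine ⟨i, j, t, ?_⟩
    rw [Function.update_self, if_pos ⟨rfl, hz⟩]
    ring

theorem asks (p : Fin n × Fin n) :
    Asks (D := fun _ : Fin 3 × Fin n × Fin n => ℤ) (Fin n) n 0 InRange zeroTri (0, p) := by
  classical
  obtain ⟨i, j⟩ := p
  refine asks_of (univ.image (fun t : Fin n => (((t : ℕ) : ℤ) + 1))) (fun _ => 0)
    (fun t _ => ((t : ℕ) : ℤ) + 1) (fun z => store j z) ?_ ?_ ?_ ?_ ?_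
  · refine card_image_le.trans ?_
    rw [card_univ, Fintype.card_fin]
  · intro t z
    exact mem_image_of_mem _ (mem_univ _)
  · intro t z z' _
    rfl
  · intro t z
    exact inRange_update i j z t
  · simp only [zeroTri_update, ne_eq, not_true_eq_false, filter_false, card_empty]
    simp

/-- the edges between the parts 1 and 2 -/
def first (n : ℕ) : Finset (Fin 3 × Fin n × Fin n) :=
  univ.map ⟨fun p => (0, p), fun _ _ h => (Prod.mk.inj h).2⟩

theorem card_first : (first n).card = n ^ 2 := by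
  rw [first, card_map, card_univ, Fintype.card_prod, Fintype.card_fin, sq]

theorem asks_first : ∀ e ∈ first n,
    Asks (D := fun _ : Fin 3 × Fin n × Fin n => ℤ) (Fin n) n 0 InRange zeroTri e := by
  intro e he
  rw [first, mem_map] at he
  obtain ⟨p, _, rfl⟩ := he
  exact asks p

theorem net_bound' {c w : ℕ} (hn : 100 ≤ n) (hc : 1 ≤ c) (hw : 1 ≤ w) {Ω : Type} [Fintype Ω]
    (μ : Ω → ℝ) (hμ : IsProb μ) (s : ℕ)
    (F : Ω → Net (Fin 3 × Fin n × Fin n) (fun _ => ℤ) w (n ^ c)) (hs : ∀ ω, (F ω).size ≤ s)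
    (hF : ApproximatesOn μ (fun ω => (F ω).eval) InRange zeroTri ∨
      ApproximatesOn μ (fun ω x => !(F ω).eval x) InRange zeroTri) :
    (n : ℝ) ^ 3 ≤ 4000 * w * (Real.sqrt n + 53 * c * w * Real.logb 2 n) * s := by
  classical
  have hn' : (100 : ℝ) ≤ n := by exact_mod_cast hn
  have hw' : (1 : ℝ) ≤ w := by exact_mod_cast hw
  have hc' : (1 : ℝ) ≤ c := by exact_mod_cast hc
  have hs0 : (0 : ℝ) ≤ s := Nat.cast_nonneg s
  have hr := Real.sqrt_nonneg (n : ℝ)
  have hl : (6 : ℝ) ≤ Real.logb 2 n := by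
    have h11 : ((2 : ℝ)) ^ 6 ≤ n := by linarith
    have h12 := Real.logb_le_logb_of_le (by norm_num : (1 : ℝ) < 2) (by positivity) h11
    rw [Real.logb_pow, Real.logb_self_eq_one (by norm_num)] at h12
    norm_num at h12
    exact h12
  have hcw : (1 : ℝ) ≤ c * w := by nlinarith
  have hX : (1 : ℝ) ≤ Real.sqrt n + 53 * c * w * Real.logb 2 n := by nlinarith
  by_cases hsm : n ^ 3 ≤ s
  · have h1 : (n : ℝ) ^ 3 ≤ s := by exact_mod_cast hsm
    have h2 : (1 : ℝ) ≤ 4000 * w * (Real.sqrt n + 53 * c * w * Real.logb 2 n) := by nlinarith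
    nlinarith
  have hM : 4 * n * (2 * s + 1) + 2 + s ≤ n ^ 5 := by
    have h1 : s < n ^ 3 := by omega
    have h2 : 4 * n * (2 * s + 1) ≤ 4 * n * (2 * n ^ 3) := Nat.mul_le_mul_left _ (by omega)
    have h3 : 4 * n * (2 * n ^ 3) = 8 * n ^ 4 := by ring
    have h4 : n ^ 3 ≤ n ^ 4 := Nat.pow_le_pow_right (by omega) (by norm_num)
    have h5 : 100 * n ^ 4 ≤ n ^ 5 := by
      calc 100 * n ^ 4 ≤ n * n ^ 4 := Nat.mul_le_mul_right _ hn
        _ = n ^ 5 := by ring
    have h6 : 1 ≤ n ^ 4 := Nat.one_le_pow _ _ (by omega)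
    omega
  have h := net_bound_le (D := fun _ : Fin 3 × Fin n × Fin n => ℤ) μ hμ F InRange zeroTri hF s hs
    (Nat.one_le_pow _ _ (by omega)) hw n (n ^ 5) hM 0 (by norm_num) (first n) (T := Fin n)
    asks_first (n : ℝ) hn' (by rw [Fintype.card_fin])
  rw [card_first, Nat.cast_pow n 5, Nat.cast_pow n c, Nat.cast_pow n 2, Real.logb_pow,
    Real.logb_pow] at h
  obtain ⟨l, hl'⟩ : ∃ l : ℝ, l = Real.logb 2 (n : ℝ) := ⟨_, rfl⟩
  rw [← hl'] at h hl hX ⊢
  push_cast at h
  have h1 : 3 + 10 * (5 * l) + 2 * ((w : ℝ) - 1) * (c * l) ≤ 53 * c * w * l := by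
    have h2 : 3 + 10 * (5 * l) ≤ 51 * l := by linarith
    have h3 : 51 * l ≤ 51 * (c * w) * l := by nlinarith
    have h4 : 0 ≤ (c : ℝ) * l := by positivity
    nlinarith
  calc (n : ℝ) ^ 3 = (n : ℝ) ^ 2 * n := by ring
    _ ≤ _ := h
    _ ≤ 4000 * w * (Real.sqrt n + 53 * c * w * l) * s := by
        apply mul_le_mul_of_nonneg_right _ hs0
        apply mul_le_mul_of_nonneg_left _ (by linarith)
        linarith

end Pool.Agent.Y638.RF.ZT
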