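import Pool.Agent.Y638.RF.Prog
import Pool.Agent.Y638.RF.Sum
import Pool.Agent.TH697.Form.ET

set_option autoImplicit false

/-! # Exact triangles and real formulas -/

namespace Pool.Agent.Y638.RF.ET

open Finset Pool.Agent.TH697.Form Pool.Agent.TH697.Row Pool.Agent.Y638.RF
open Pool.Agent.TH697.Form.ET (Item InRange zeroTri lab lab_inj lab_pos lab_le)

variable {n a b c w : ℕ}

/-- the string is a family of bits -/
abbrev Str (n a b : ℕ) : Type := Fin n × Fin (2 ^ a) × Fin b

/-- a part of the string -/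
def row (z : Str n a b → Bool) (k : Fin n) (u : Fin (2 ^ a)) : Fin b → Bool := fun s => z (k, u, s)

/-- no collision with an earlier part -/
def First (z : Str n a b → Bool) (k : Fin n) (u : Fin (2 ^ a)) : Prop :=
  ∀ u', u' < u → row z k u' ≠ row z k u

theorem first_unique (z : Str n a b → Bool) (k : Fin n) (u u' : Fin (2 ^ a)) (h : First z k u)
    (h' : First z k u') (he : row z k u = row z k u') : u = u' := by
  rcases lt_trichotomy u u' with h1 | h1 | h1
  · exact absurd he (h' u h1)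
  · exact h1
  · exact absurd he.symm (h u' h1)

section

variable (e : (Fin b → Bool) ↪ Fin n)

open Classical in
/-- the weights which encode the string `z` -/
noncomputable def enc (z : Str n a b → Bool) : ∀ i, Item n i
  | none => fun k j => if h : ∃ u, First z k u ∧ e (row z k u) = j then -lab k h.choose else n ^ 2
  | some _ => (fun _ => 0, fun _ => n ^ 2)

/-- the candidates for the next bit -/
def Cand (t : Str n a b) (y : Fin b → Bool) (j : Fin n) : Prop :=
  ∃ w : Fin b → Bool, (∀ s, s < t.2.2 → w s = y s) ∧ w t.2.2 = true ∧ e w = j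

open Classical in
/-- the weights which ask for a bit -/
noncomputable def ask (t : Str n a b) (y : Fin b → Bool) : (Fin n → ℤ) × (Fin n → ℤ) :=
  (fun _ => 0, fun j => if Cand e t y j then lab t.1 t.2.1 else n ^ 2)

theorem ask_causal (t : Str n a b) (y y' : Fin b → Bool) (h : ∀ s, s < t.2.2 → y s = y' s) :
    ask e t y = ask e t y' := by
  have h3 : ∀ j, Cand e t y j = Cand e t y' j := by
    intro j
    unfold Cand
    apply propext
    constructor
    · rintro ⟨w, hw1, hw2⟩
      exact ⟨w, fun s hs => by rw [hw1 s hs, h s hs], hw2⟩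
    · rintro ⟨w, hw1, hw2⟩
      exact ⟨w, fun s hs => by rw [hw1 s hs, h s hs], hw2⟩
  unfold ask
  refine Prod.ext rfl ?_
  funext j
  dsimp only
  by_cases hc : Cand e t y j
  · rw [if_pos hc, if_pos ((h3 j) ▸ hc)]
  · rw [if_neg hc, if_neg (fun hc' => hc ((h3 j) ▸ hc'))]

variable (i : Fin n) (t : Str n a b) (z : Str n a b → Bool)

theorem enc_row (k : Fin n) (u : Fin (2 ^ a)) (hu : First z k u) :
    enc e z none k (e (row z k u)) = -lab k u := by
  have h : ∃ u', First z k u' ∧ e (row z k u') = e (row z k u) := ⟨u, hu, rfl⟩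
  simp only [enc]
  rw [dif_pos h]
  have h2 := first_unique z k _ u h.choose_spec.1 hu (e.injective h.choose_spec.2)
  rw [h2]

theorem enc_cases (k j : Fin n) :
    (∃ u, e (row z k u) = j ∧ enc e z none k j = -lab k u) ∨ enc e z none k j = n ^ 2 := by
  by_cases h : ∃ u, First z k u ∧ e (row z k u) = j
  · left
    obtain ⟨u, hu, rfl⟩ := h
    exact ⟨u, rfl, enc_row e z k u hu⟩
  · right
    simp only [enc]
    rw [dif_neg h]

theorem enc_none (y : Fin b → Bool) :
    Function.update (enc e z : ∀ i, Item n i) (some i) (ask e t y) none = enc e z none := by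
  rw [Function.update_of_ne (by simp)]

theorem inRange_enc (ha : 2 ^ (a + 1) ≤ n) (y : Fin b → Bool) :
    InRange n (n ^ 2) (Function.update (enc e z) (some i) (ask e t y)) := by
  have h0 : (0 : ℤ) ≤ (n : ℤ) ^ 2 := by positivity
  refine ⟨fun k j => ?_, fun i' k => ?_⟩
  · rw [enc_none]
    push_cast
    rcases enc_cases e z k j with ⟨u, -, h⟩ | h
    · rw [h, abs_neg, abs_of_pos (by linarith [lab_pos k u])]
      exact (lab_le k u ha).le
    · rw [h, abs_of_nonneg h0]
  · push_cast
    by_cases hi : i' = i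
    · subst hi
      rw [Function.update_self]
      simp only [ask, abs_zero]
      refine ⟨h0, ?_⟩
      split_ifs
      · rw [abs_of_pos (by linarith [lab_pos t.1 t.2.1])]
        exact (lab_le _ _ ha).le
      · rw [abs_of_nonneg h0]
    · rw [Function.update_of_ne (by simpa using hi)]
      simp only [enc, abs_zero]
      exact ⟨h0, by rw [abs_of_nonneg h0]⟩

theorem zeroTri_enc (ha : 2 ^ (a + 1) ≤ n)
    (h : zeroTri n (Function.update (enc e z) (some i) (ask e t (row z t.1 t.2.1))) ≠ z t) :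
    ¬ First z t.1 t.2.1 := by
  intro hF
  apply h
  unfold zeroTri
  rw [Bool.eq_iff_iff, decide_eq_true_iff, enc_none]
  have hn0 : (0 : ℤ) < (n : ℤ) ^ 2 := by
    have : 0 < n := lt_of_lt_of_le (by positivity) ha
    positivity
  constructor
  · rintro ⟨i', k, j, h⟩
    have big : ∀ c : ℤ, c = n ^ 2 → 0 + enc e z none k j + c ≠ 0 := by
      intro c hc
      rcases enc_cases e z k j with ⟨u, -, h1⟩ | h1
      · have := lab_le k u ha
        rw [h1, hc]
        intro h2
        linarith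
      · rw [h1, hc]
        intro h2
        linarith
    by_cases hi : i' = i
    · subst hi
      rw [Function.update_self] at h
      simp only [ask] at h
      by_cases hj : Cand e t (row z t.1 t.2.1) j
      · rw [if_pos hj] at h
        rcases enc_cases e z k j with ⟨u, h1, h2⟩ | h2
        · rw [h2] at h
          obtain ⟨h3, h4⟩ := lab_inj k t.1 u t.2.1 (by linarith)
          obtain ⟨w, -, hw2, hw3⟩ := hj
          rw [← h1, h3, h4] at hw3
          have h5 := e.injective hw3
          rw [h5] at hw2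
          exact hw2
        · rw [h2] at h
          linarith [lab_pos t.1 t.2.1]
      · rw [if_neg hj] at h
        exact absurd h (big _ rfl)
    · rw [Function.update_of_ne (by simpa using hi)] at h
      exact absurd h (big _ rfl)
  · intro h
    refine ⟨i, t.1, e (row z t.1 t.2.1), ?_⟩
    rw [Function.update_self, enc_row e z _ _ hF]
    have hc : Cand e t (row z t.1 t.2.1) (e (row z t.1 t.2.1)) :=
      ⟨row z t.1 t.2.1, fun s _ => rfl, h, rfl⟩
    simp only [ask]
    rw [if_pos hc]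
    ring

end

open Classical in
/-- collisions are rare -/
theorem card_collision (k : Fin n) (u u' : Fin (2 ^ a)) (h : u' ≠ u) :
    (univ.filter (fun z : Str n a b → Bool => row z k u' = row z k u)).card * 2 ^ b ≤
      2 ^ Fintype.card (Str n a b) := by
  have e1 : 2 ^ b = (univ : Finset (Fin b → Bool)).card := by simp
  have e2 : 2 ^ Fintype.card (Str n a b) = (univ : Finset (Str n a b → Bool)).card := by
    rw [card_univ, Fintype.card_fun, Fintype.card_bool]
  rw [e1, e2, ← card_product]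
  apply card_le_card_of_injOn (fun p => fun t : Str n a b =>
    if t.1 = k ∧ t.2.1 = u' then p.2 t.2.2 else p.1 t)
  · intro p _
    exact mem_coe.2 (mem_univ _)
  · rintro ⟨z, y⟩ hp ⟨z', y'⟩ hp' heq
    have hz : row z k u' = row z k u := by simpa using hp
    have hz' : row z' k u' = row z' k u := by simpa using hp'
    have hy : y = y' := by
      funext s
      have := congrFun heq (k, u', s)
      simpa using this
    have hr : ∀ t : Str n a b, ¬ (t.1 = k ∧ t.2.1 = u') → z t = z' t := by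
      intro t ht
      have := congrFun heq t
      simpa [ht] using this
    refine Prod.ext ?_ hy
    funext t
    by_cases ht : t.1 = k ∧ t.2.1 = u'
    · obtain ⟨t1, t2, t3⟩ := t
      obtain ⟨rfl, rfl⟩ := ht
      have e3 : z (t1, t2, t3) = row z t1 t2 t3 := rfl
      have e4 : z' (t1, t2, t3) = row z' t1 t2 t3 := rfl
      simp only
      rw [e3, e4, hz, hz']
      exact hr (t1, u, t3) (by
        rintro ⟨-, h5⟩
        exact h h5.symm)
    · exact hr t ht

open Classical in
theorem sum_collision (h : b = a + 5) :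
    ∑ z : Str n a b → Bool, ((univ.filter (fun t : Str n a b => ¬ First z t.1 t.2.1)).card : ℝ) ≤
      1 / 32 * Fintype.card (Str n a b) * 2 ^ Fintype.card (Str n a b) := by
  obtain ⟨N, hN⟩ : ∃ N, N = Fintype.card (Str n a b) := ⟨_, rfl⟩
  rw [← hN]
  have h1 : ∑ z : Str n a b → Bool, ((univ.filter (fun t : Str n a b => ¬ First z t.1 t.2.1)).card : ℝ)
      ≤ ∑ t : Str n a b, ∑ u' : Fin (2 ^ a), (2 ^ N / 2 ^ b : ℝ) := by
    have h2 : ∀ z : Str n a b → Bool,
        ((univ.filter (fun t : Str n a b => ¬ First z t.1 t.2.1)).card : ℝ) ≤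
        ∑ t : Str n a b, ∑ u' : Fin (2 ^ a),
          (if u' ≠ t.2.1 ∧ row z t.1 u' = row z t.1 t.2.1 then (1 : ℝ) else 0) := by
      intro z
      rw [card_filter, Nat.cast_sum]
      apply sum_le_sum
      intro t _
      have hnn : ∀ u' ∈ (univ : Finset (Fin (2 ^ a))), (0 : ℝ) ≤
          (if u' ≠ t.2.1 ∧ row z t.1 u' = row z t.1 t.2.1 then (1 : ℝ) else 0) := by
        intro u' _
        split_ifs <;> norm_num
      by_cases hF : First z t.1 t.2.1
      · rw [if_neg (not_not.2 hF)]
        rw [Nat.cast_zero]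
        exact sum_nonneg hnn
      · rw [if_pos hF]
        unfold First at hF
        push Not at hF
        obtain ⟨u', hu1, hu2⟩ := hF
        refine le_trans ?_ (single_le_sum hnn (mem_univ u'))
        rw [if_pos ⟨hu1.ne, hu2⟩]
        norm_num
    refine (sum_le_sum fun z _ => h2 z).trans ?_
    rw [sum_comm]
    apply sum_le_sum
    intro t _
    rw [sum_comm]
    apply sum_le_sum
    intro u' _
    by_cases hu : u' = t.2.1
    · simp only [hu, ne_eq, not_true_eq_false, false_and, if_false, sum_const_zero]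
      positivity
    · rw [le_div_iff₀ (by positivity)]
      have h3 := card_collision (n := n) (b := b) t.1 t.2.1 u' hu
      rw [← hN] at h3
      have h4 : ∑ z : Str n a b → Bool,
          (if u' ≠ t.2.1 ∧ row z t.1 u' = row z t.1 t.2.1 then (1 : ℝ) else 0) =
          ((univ.filter (fun z : Str n a b → Bool =>
            row z t.1 u' = row z t.1 t.2.1)).card : ℝ) := by
        rw [card_filter, Nat.cast_sum]
        refine sum_congr rfl fun z _ => ?_
        by_cases hz : row z t.1 u' = row z t.1 t.2.1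
        · rw [if_pos ⟨hu, hz⟩, if_pos hz]
          norm_num
        · rw [if_neg (fun h => hz h.2), if_neg hz]
          norm_num
      rw [h4]
      exact_mod_cast h3
  refine h1.trans (le_of_eq ?_)
  simp only [sum_const, card_univ, nsmul_eq_mul, Fintype.card_fin, ← hN]
  rw [h]
  push_cast
  rw [pow_add]
  field_simp
  norm_num

theorem asks (hb : 2 ^ b ≤ n) (hab : b = a + 5) (i : Fin n) :
    Asks (Str n a b) (n ^ 4) (1 / 32) (InRange n (n ^ 2)) (zeroTri n) (some i) := by
  classical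
  have he : Nonempty ((Fin b → Bool) ↪ Fin n) := by
    rw [Function.Embedding.nonempty_iff_card_le]
    simpa using hb
  obtain ⟨e⟩ := he
  have ha : 2 ^ (a + 1) ≤ n := by
    refine le_trans (Nat.pow_le_pow_right (by norm_num) (by omega)) hb
  refine asks_of ((univ : Finset (Str n a b × (Fin b → Bool))).image (fun p => ask e p.1 p.2))
    (fun t => t.2.2.val) (fun t z => ask e t (row z t.1 t.2.1)) (enc e) ?_ ?_ ?_ ?_ ?_
  · refine card_image_le.trans ?_
    rw [card_univ]
    simp only [Fintype.card_prod, Fintype.card_fin, Fintype.card_fun, Fintype.card_bool]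
    have h1 : 2 ^ a ≤ n := le_trans (Nat.pow_le_pow_right (by norm_num) (by omega)) hb
    have h2 : b ≤ n := le_trans Nat.lt_two_pow_self.le hb
    calc n * (2 ^ a * b) * 2 ^ b ≤ n * (n * n) * n :=
          Nat.mul_le_mul (Nat.mul_le_mul_left _ (Nat.mul_le_mul h1 h2)) hb
      _ = n ^ 4 := by ring
  · intro t z
    rw [mem_image]
    exact ⟨(t, row z t.1 t.2.1), mem_univ _, rfl⟩
  · intro t z z' hz
    apply ask_causal
    intro s hs
    apply hz
    exact hs
  · intro t z
    exact inRange_enc e i t z ha _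
  · refine le_trans ?_ (sum_collision hab)
    apply sum_le_sum
    intro z _
    have : univ.filter (fun t => zeroTri n (Function.update (enc e z) (some i)
        (ask e t (row z t.1 t.2.1))) ≠ z t) ⊆
        univ.filter (fun t : Str n a b => ¬ First z t.1 t.2.1) := by
      intro t
      rw [mem_filter, mem_filter]
      rintro ⟨h1, h2⟩
      exact ⟨h1, zeroTri_enc e i t z ha h2⟩
    exact_mod_cast card_le_card this

theorem logb_two_pow' (d : ℕ) : Real.logb 2 ((2 : ℝ) ^ d) = d := by
  rw [← Real.rpow_natCast, Real.logb_rpow (by norm_num) (by norm_num)]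

/-- the arithmetic -/
theorem arith {n b c w N L l s : ℝ} (hn : 128 ≤ n) (hb : 7 ≤ b) (hc : 1 ≤ c) (hw : 1 ≤ w)
    (hN : n ^ 2 * b / 64 ≤ N) (hl : l ≤ 8 / 7 * b) (hL : L = c * l) (hs : 0 ≤ s)
    (h : n * ((49 / 600 - 1 / 32) * N - 1) ≤
      2 * w * (1 + 5 * (8 * l) + (w - 1) * L) * s) :
    n ^ 3 ≤ 120000 * c * w ^ 2 * s := by
  have h0 : 16384 ≤ n ^ 2 := by nlinarith
  have h00 : 114688 ≤ n ^ 2 * b := by nlinarith
  have h1 : n ^ 2 * b / 1300 ≤ (49 / 600 - 1 / 32) * N - 1 := by linarith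
  have h2 : n * (n ^ 2 * b / 1300) ≤ n * ((49 / 600 - 1 / 32) * N - 1) :=
    mul_le_mul_of_nonneg_left h1 (by linarith)
  have h3 : 2 * w * (1 + 5 * (8 * l) + (w - 1) * L) ≤ 92 * c * b * w ^ 2 := by
    have h4 : (w - 1) * L ≤ (w - 1) * (8 / 7 * c * b) := by
      apply mul_le_mul_of_nonneg_left _ (by linarith)
      rw [hL]
      nlinarith
    have h5 : 1 + 5 * (8 * l) ≤ 46 * b := by linarith
    have h6 : b ≤ c * b := by nlinarith
    have h7 : 0 ≤ (w - 1) * (c * b) := by
      apply mul_nonneg (by linarith)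
      positivity
    calc 2 * w * (1 + 5 * (8 * l) + (w - 1) * L) ≤ 2 * w * (46 * c * b * w) := by
          apply mul_le_mul_of_nonneg_left _ (by linarith)
          nlinarith
      _ = _ := by ring
  have h4 := mul_le_mul_of_nonneg_right h3 hs
  have h5 : b * n ^ 3 ≤ b * (120000 * c * w ^ 2 * s) := by
    have e1 : n * (n ^ 2 * b / 1300) = b * n ^ 3 / 1300 := by ring
    have e2 : 92 * c * b * w ^ 2 * s = b * (c * w ^ 2 * s) * 92 := by ring
    have e3 : 0 ≤ b * (c * w ^ 2 * s) := by positivity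
    rw [e1] at h2
    rw [e2] at h4
    have e4 : b * (120000 * c * w ^ 2 * s) = b * (c * w ^ 2 * s) * 120000 := by ring
    rw [e4]
    linarith
  exact le_of_mul_le_mul_left h5 (by linarith)

theorem lower (hn : 128 ≤ n) (hc : 1 ≤ c) (hw : 1 ≤ w) {Ω : Type} [Fintype Ω] (μ : Ω → ℝ)
    (hμ : IsProb μ) (s : ℕ) (F : Ω → Fml (Option (Fin n)) (Item n) w (n ^ c))
    (hs : ∀ ω, (F ω).size ≤ s)
    (hF : ApproximatesOn μ (fun ω => (F ω).accepts) (InRange n (n ^ 2)) (zeroTri n)) :
    (n : ℝ) ^ 3 ≤ 120000 * c * w ^ 2 * s := by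
  classical
  have hw' : (1 : ℝ) ≤ w := by exact_mod_cast hw
  have hc' : (1 : ℝ) ≤ c := by exact_mod_cast hc
  have hs0 : (0 : ℝ) ≤ s := Nat.cast_nonneg s
  by_cases hsn : n ^ 3 ≤ s
  · have h1 : (n : ℝ) ^ 3 ≤ s := by exact_mod_cast hsn
    have h2 : (1 : ℝ) ≤ w ^ 2 := by nlinarith
    have h3 : (1 : ℝ) ≤ c * w ^ 2 := by nlinarith
    nlinarith
  obtain ⟨b, hb⟩ : ∃ b, b = Nat.log 2 n := ⟨_, rfl⟩
  have hb7 : 7 ≤ b := by
    have := Nat.log_mono_right (b := 2) hn
    rw [hb]
    rwa [show Nat.log 2 128 = 7 by decide +kernel] at this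
  obtain ⟨a, ha⟩ : ∃ a, b = a + 5 := ⟨b - 5, by omega⟩
  have hpow : 2 ^ b ≤ n := by
    rw [hb]
    exact Nat.pow_log_le_self 2 (by omega)
  have hpow2 : n < 2 ^ (b + 1) := by
    have := Nat.lt_pow_succ_log_self (b := 2) (by norm_num) n
    rw [hb]
    exact this
  have hM : 4 * n ^ 4 * (2 * s + 1) + 2 + s ≤ n ^ 8 := by
    have h1 : s < n ^ 3 := by omega
    have h2 : 4 * n ^ 4 * (2 * s + 1) ≤ 4 * n ^ 4 * (2 * n ^ 3) := Nat.mul_le_mul_left _ (by omega)
    have h3 : 4 * n ^ 4 * (2 * n ^ 3) = 8 * n ^ 7 := by ring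
    have h4 : n ^ 3 ≤ n ^ 7 := Nat.pow_le_pow_right (by omega) (by norm_num)
    have h5 : 16 * n ^ 7 ≤ n ^ 8 := by
      calc 16 * n ^ 7 ≤ n * n ^ 7 := Nat.mul_le_mul_right _ (by omega)
        _ = n ^ 8 := by ring
    have h6 : 1 ≤ n ^ 7 := Nat.one_le_pow _ _ (by omega)
    omega
  have h := formula_lower μ hμ F (InRange n (n ^ 2)) (zeroTri n) hF s hs
    (Nat.one_le_pow _ _ (by omega)) hw (n ^ 4) (n ^ 8) hM (1 / 32)
    ((univ : Finset (Fin n)).map Function.Embedding.some) (T := Str n a b) (by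
      intro a' ha'
      rw [mem_map] at ha'
      obtain ⟨i, -, rfl⟩ := ha'
      exact asks hpow ha i)
  rw [card_map, card_univ, Fintype.card_fin, Nat.cast_pow n 8, Nat.cast_pow n c, Real.logb_pow,
    Real.logb_pow] at h
  push_cast at h
  have hb' : (7 : ℝ) ≤ b := by exact_mod_cast hb7
  refine arith (l := Real.logb 2 n) (L := c * Real.logb 2 n) (b := b)
    (N := ((Fintype.card (Str n a b) : ℕ) : ℝ)) (by exact_mod_cast hn)
    hb' hc' hw' ?_ ?_ rfl hs0 h
  · have e1 : ((Fintype.card (Str n a b) : ℕ) : ℝ) = (n : ℝ) * 2 ^ a * b := by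
      simp [Str]; ring
    rw [e1]
    have e2 : (n : ℝ) / 64 ≤ 2 ^ a := by
      have h3 : (n : ℝ) < 2 ^ (b + 1) := by exact_mod_cast hpow2
      have h4 : (2 : ℝ) ^ (b + 1) = 64 * 2 ^ a := by
        rw [ha, show a + 5 + 1 = a + 6 by ring, pow_add]; ring
      linarith
    have e3 : (n : ℝ) ^ 2 * b / 64 = n * (n / 64) * b := by ring
    rw [e3]
    gcongr
  · have h1 : (n : ℝ) ≤ (2 : ℝ) ^ (b + 1) := by exact_mod_cast hpow2.le
    have h2 := Real.logb_le_logb_of_le (by norm_num : (1 : ℝ) < 2)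
      (by exact_mod_cast (by omega : 0 < n)) h1
    rw [logb_two_pow'] at h2
    push_cast at h2
    linarith

/-- the arithmetic for programs -/
theorem arith_program {n b c w N L l s : ℝ} (hn : 256 ≤ n) (hb : 8 ≤ b) (hc : 1 ≤ c) (hw : 1 ≤ w)
    (hN : n ^ 2 * b / 64 ≤ N) (hl : l ≤ 9 / 8 * b) (hL : L = c * l) (hs : 0 ≤ s)
    (h : n * ((49 / 600 - 1 / 32) * N - 8 * l) ≤
      w * (3 + 12 * (8 * l) + 2 * (w - 1) * L) * s) :
    n ^ 3 ≤ 180000 * c * w ^ 2 * s := by
  have h0 : 65536 ≤ n ^ 2 := by nlinarith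
  have h00 : 65536 * b ≤ n ^ 2 * b := mul_le_mul_of_nonneg_right h0 (by linarith)
  have h1 : n ^ 2 * b / 1600 ≤ (49 / 600 - 1 / 32) * N - 8 * l := by linarith
  have h2 : n * (n ^ 2 * b / 1600) ≤ n * ((49 / 600 - 1 / 32) * N - 8 * l) :=
    mul_le_mul_of_nonneg_left h1 (by linarith)
  have h3 : w * (3 + 12 * (8 * l) + 2 * (w - 1) * L) ≤ 110 * c * b * w ^ 2 := by
    have h4 : (w - 1) * L ≤ (w - 1) * (9 / 8 * c * b) := by
      apply mul_le_mul_of_nonneg_left _ (by linarith)
      rw [hL]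
      nlinarith
    have h5 : 3 + 12 * (8 * l) ≤ 110 * b := by linarith
    have h6 : b ≤ c * b := by nlinarith
    have h7 : 0 ≤ (w - 1) * (c * b) := by
      apply mul_nonneg (by linarith)
      positivity
    calc w * (3 + 12 * (8 * l) + 2 * (w - 1) * L) ≤ w * (110 * c * b * w) := by
          apply mul_le_mul_of_nonneg_left _ (by linarith)
          nlinarith
      _ = _ := by ring
  have h4 := mul_le_mul_of_nonneg_right h3 hs
  have h5 : b * n ^ 3 ≤ b * (180000 * c * w ^ 2 * s) := by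
    have e1 : n * (n ^ 2 * b / 1600) = b * n ^ 3 / 1600 := by ring
    have e2 : 110 * c * b * w ^ 2 * s = b * (c * w ^ 2 * s) * 110 := by ring
    have e3 : 0 ≤ b * (c * w ^ 2 * s) := by positivity
    rw [e1] at h2
    rw [e2] at h4
    have e4 : b * (180000 * c * w ^ 2 * s) = b * (c * w ^ 2 * s) * 180000 := by ring
    rw [e4]
    linarith
  exact le_of_mul_le_mul_left h5 (by linarith)

theorem program_bound (hn : 256 ≤ n) (hc : 1 ≤ c) (hw : 1 ≤ w) {Ω : Type} [Fintype Ω] (μ : Ω → ℝ)
    (hμ : IsProb μ) (s : ℕ) (F : Ω → Program (Option (Fin n)) (Item n) w (n ^ c) s)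
    (hF : ApproximatesOn μ (fun ω => (F ω).eval) (InRange n (n ^ 2)) (zeroTri n)) :
    (n : ℝ) ^ 3 ≤ 180000 * c * w ^ 2 * s := by
  classical
  have hw' : (1 : ℝ) ≤ w := by exact_mod_cast hw
  have hc' : (1 : ℝ) ≤ c := by exact_mod_cast hc
  have hs0 : (0 : ℝ) ≤ s := Nat.cast_nonneg s
  by_cases hsn : n ^ 3 ≤ s
  · have h1 : (n : ℝ) ^ 3 ≤ s := by exact_mod_cast hsn
    have h2 : (1 : ℝ) ≤ w ^ 2 := by nlinarith
    have h3 : (1 : ℝ) ≤ c * w ^ 2 := by nlinarith
    nlinarith
  obtain ⟨b, hb⟩ : ∃ b, b = Nat.log 2 n := ⟨_, rfl⟩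
  have hb7 : 8 ≤ b := by
    have := Nat.log_mono_right (b := 2) hn
    rw [hb]
    rwa [show Nat.log 2 256 = 8 by decide +kernel] at this
  obtain ⟨a, ha⟩ : ∃ a, b = a + 5 := ⟨b - 5, by omega⟩
  have hpow : 2 ^ b ≤ n := by
    rw [hb]
    exact Nat.pow_log_le_self 2 (by omega)
  have hpow2 : n < 2 ^ (b + 1) := by
    have := Nat.lt_pow_succ_log_self (b := 2) (by norm_num) n
    rw [hb]
    exact this
  have hM : 4 * n ^ 4 * (2 * s + 1) + 2 + s ≤ n ^ 8 := by
    have h1 : s < n ^ 3 := by omega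
    have h2 : 4 * n ^ 4 * (2 * s + 1) ≤ 4 * n ^ 4 * (2 * n ^ 3) := Nat.mul_le_mul_left _ (by omega)
    have h3 : 4 * n ^ 4 * (2 * n ^ 3) = 8 * n ^ 7 := by ring
    have h4 : n ^ 3 ≤ n ^ 7 := Nat.pow_le_pow_right (by omega) (by norm_num)
    have h5 : 16 * n ^ 7 ≤ n ^ 8 := by
      calc 16 * n ^ 7 ≤ n * n ^ 7 := Nat.mul_le_mul_right _ (by omega)
        _ = n ^ 8 := by ring
    have h6 : 1 ≤ n ^ 7 := Nat.one_le_pow _ _ (by omega)
    omega
  have h := program_lower μ hμ s F (InRange n (n ^ 2)) (zeroTri n) hF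
    (Nat.one_le_pow _ _ (by omega)) hw (n ^ 4) (n ^ 8) hM (1 / 32)
    ((univ : Finset (Fin n)).map Function.Embedding.some) (T := Str n a b) (by
      intro a' ha'
      rw [mem_map] at ha'
      obtain ⟨i, -, rfl⟩ := ha'
      exact asks hpow ha i)
  rw [card_map, card_univ, Fintype.card_fin] at h
  push_cast at h
  simp only [Real.logb_pow] at h
  push_cast at h
  have hb' : (8 : ℝ) ≤ b := by exact_mod_cast hb7
  refine arith_program (l := Real.logb 2 n) (L := c * Real.logb 2 n) (b := b)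
    (N := ((Fintype.card (Str n a b) : ℕ) : ℝ)) (by exact_mod_cast hn)
    hb' hc' hw' ?_ ?_ rfl hs0 h
  · have e1 : ((Fintype.card (Str n a b) : ℕ) : ℝ) = (n : ℝ) * 2 ^ a * b := by
      simp [Str]; ring
    rw [e1]
    have e2 : (n : ℝ) / 64 ≤ 2 ^ a := by
      have h3 : (n : ℝ) < 2 ^ (b + 1) := by exact_mod_cast hpow2
      have h4 : (2 : ℝ) ^ (b + 1) = 64 * 2 ^ a := by
        rw [ha, show a + 5 + 1 = a + 6 by ring, pow_add]; ring
      linarith
    have e3 : (n : ℝ) ^ 2 * b / 64 = n * (n / 64) * b := by ring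
    rw [e3]
    gcongr
  · have h1 : (n : ℝ) ≤ (2 : ℝ) ^ (b + 1) := by exact_mod_cast hpow2.le
    have h2 := Real.logb_le_logb_of_le (by norm_num : (1 : ℝ) < 2)
      (by exact_mod_cast (by omega : 0 < n)) h1
    rw [logb_two_pow'] at h2
    push_cast at h2
    linarith

theorem val_eq (A B C : ℤ) :
    ((if (0 : ℝ) < (A : ℝ) + C + 1 + B then (1 : ℝ) else 0) *
      (if (0 : ℝ) < 1 - (A : ℝ) - C + -B then (1 : ℝ) else 0) = 1) ↔ A + B + C = 0 := by
  have e1 : (0 : ℝ) < (A : ℝ) + C + 1 + B ↔ 0 ≤ A + B + C := by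
    constructor
    · intro h
      have : (0 : ℝ) < ((A + C + 1 + B : ℤ) : ℝ) := by push_cast; linarith
      have : 0 < A + C + 1 + B := by exact_mod_cast this
      omega
    · intro h
      have : 0 < A + C + 1 + B := by omega
      have : (0 : ℝ) < ((A + C + 1 + B : ℤ) : ℝ) := by exact_mod_cast this
      push_cast at this
      linarith
  have e2 : (0 : ℝ) < 1 - (A : ℝ) - C + -B ↔ A + B + C ≤ 0 := by
    constructor
    · intro h
      have : (0 : ℝ) < ((1 - A - C + -B : ℤ) : ℝ) := by push_cast; linarith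
      have : 0 < 1 - A - C + -B := by exact_mod_cast this
      omega
    · intro h
      have : 0 < 1 - A - C + -B := by omega
      have : (0 : ℝ) < ((1 - A - C + -B : ℤ) : ℝ) := by exact_mod_cast this
      push_cast at this
      linarith
  split_ifs with h1 h2 h2
  · have := e1.1 h1
    have := e2.1 h2
    simp only [mul_one, true_iff]
    omega
  · simp only [mul_zero, zero_ne_one, false_iff]
    intro h3
    exact h2 (e2.2 h3.le)
  · simp only [zero_mul, zero_ne_one, false_iff]
    intro h3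
    exact h1 (e1.2 h3.ge)
  · simp only [mul_zero, zero_ne_one, false_iff]
    intro h3
    exact h1 (e1.2 h3.ge)

/-- exhaustive search -/
theorem upper (n w q : ℕ) : ∃ F : Fml (Option (Fin n)) (Item n) w q, F.size = 4 * n ^ 3 ∧
    ∀ x, F.accepts x = zeroTri n x := by
  obtain ⟨F, h1, h2⟩ := exists_or (w := w) (q := q) (fun p : Fin n × Fin n × Fin n =>
    Fml.mul
      (.pos (.add (.item (D := Item n) (some p.1) (fun d => (d.1 p.2.1 : ℝ) + d.2 p.2.2 + 1))
        (.item (D := Item n) none (fun B => (B p.2.1 p.2.2 : ℝ)))))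
      (.pos (.add (.item (D := Item n) (some p.1) (fun d => 1 - (d.1 p.2.1 : ℝ) - d.2 p.2.2))
        (.item (D := Item n) none (fun B => -(B p.2.1 p.2.2 : ℝ))))))
    (fun x p => (x (some p.1)).1 p.2.1 + x none p.2.1 p.2.2 + (x (some p.1)).2 p.2.2 = 0)
    (fun x p => by
      simp only [Fml.eval]
      split_ifs <;> simp)
    (fun x p => by
      simp only [Fml.eval]
      exact val_eq ((x (some p.1)).1 p.2.1) (x none p.2.1 p.2.2) ((x (some p.1)).2 p.2.2))
    (zeroTri n) (fun x => by
      unfold zeroTri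
      rw [decide_eq_true_iff]
      constructor
      · rintro ⟨i, k, j, h⟩
        exact ⟨(i, k, j), h⟩
      · rintro ⟨p, h⟩
        exact ⟨p.1, p.2.1, p.2.2, h⟩)
  refine ⟨F, ?_, h2⟩
  rw [h1]
  simp only [Fml.size, sum_const, card_univ, Fintype.card_prod, Fintype.card_fin, smul_eq_mul]
  ring

end Pool.Agent.Y638.RF.ET
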