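import Pool.Agent.Y638.RF.Prog
import Pool.Agent.Y638.RF.Sum
import Pool.Agent.TH457.Ary.MinPlus

set_option autoImplicit false

/-! # Negative triangles and real formulas -/

namespace Pool.Agent.Y638.RF.MinPlus

open Finset Pool.Agent.TH697.Form Pool.Agent.TH697.Row Pool.Agent.TH697.Form.MinPlus
open Pool.Agent.TH457.Ary.MinPlus Pool.Agent.Y638.RF

variable {n b c w : ℕ}

theorem asks (hb : 2 ^ b ≤ n) (i : Fin n) :
    Asks (Fin n × Fin n × Fin b) (n ^ 3) 0 (InRange n (2 ^ b + 1)) (shortcut n) (some i) := by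
  classical
  refine ⟨(univ : Finset (Fin n × Fin n × Fin (2 ^ b))).image (fun v =>
    ((fun k => if k = v.1 then 1 else 2 ^ b + 1,
      fun j => if j = v.2.1 then v.2.2.val + 2 else 1) : (Fin n → ℕ) × (Fin n → ℕ))),
    fun t : Fin n × Fin n × Fin b => b - t.2.2.val, fun t z => ask t z, enc, ?_, ?_, ?_, ?_, ?_⟩
  · refine card_image_le.trans ?_
    rw [card_univ, Fintype.card_prod, Fintype.card_prod, Fintype.card_fin, Fintype.card_fin]
    calc n * (n * 2 ^ b) ≤ n * (n * n) := Nat.mul_le_mul_left _ (Nat.mul_le_mul_left _ hb)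
      _ = n ^ 3 := by ring
  · intro t z
    rw [mem_image]
    exact ⟨(t.1, t.2.1, ⟨thr (fun s => z (t.1, t.2.1, s)) t.2.2, thr_lt _ _⟩), mem_univ _, rfl⟩
  · intro t z z' hz
    simp only [ask]
    rw [thr_causal (fun s => z (t.1, t.2.1, s)) (fun s => z' (t.1, t.2.1, s)) t.2.2]
    intro s' hs'
    apply hz
    rw [Fin.lt_def] at hs'
    have := s'.2
    simp only
    omega
  · exact fun t z => inRange_enc i t z
  · simp only [shortcut_enc, ne_eq, not_true_eq_false, filter_false, card_empty]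
    simp

theorem approx_mono {Ω : Type} [Fintype Ω] {X : Type} (μ : Ω → ℝ) (G : Ω → X → Bool)
    (P P' : X → Prop) (f : X → Bool) (h : ∀ x, P' x → P x) (hG : ApproximatesOn μ G P f) :
    ApproximatesOn μ G P' f := fun x hx => hG x (h x hx)

/-- the arithmetic -/
theorem arith {n b c w L l s : ℝ} (hn : 16 ≤ n) (hb : 4 ≤ b) (hc : 1 ≤ c) (hw : 1 ≤ w)
    (hl : l ≤ 5 / 4 * b) (hL : L = c * l) (hs : 0 ≤ s)
    (h : n * ((49 / 600 - 0) * (n ^ 2 * b) - 1) ≤
      2 * w * (1 + 5 * (7 * l) + (w - 1) * L) * s) :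
    n ^ 3 ≤ 2200 * c * w ^ 2 * s := by
  have h0 : 256 ≤ n ^ 2 := by nlinarith
  have h1 : n ^ 2 * b / 25 ≤ (49 / 600 - 0) * (n ^ 2 * b) - 1 := by nlinarith
  have h2 : n * (n ^ 2 * b / 25) ≤ n * ((49 / 600 - 0) * (n ^ 2 * b) - 1) :=
    mul_le_mul_of_nonneg_left h1 (by linarith)
  have h3 : 2 * w * (1 + 5 * (7 * l) + (w - 1) * L) ≤ 88 * c * b * w ^ 2 := by
    have h4 : (w - 1) * L ≤ (w - 1) * (5 / 4 * c * b) := by
      apply mul_le_mul_of_nonneg_left _ (by linarith)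
      rw [hL]
      nlinarith
    have h5 : 1 + 5 * (7 * l) ≤ 44 * b := by linarith
    have h6 : b ≤ c * b := by nlinarith
    have h7 : 0 ≤ (w - 1) * (c * b) := by
      apply mul_nonneg (by linarith)
      positivity
    calc 2 * w * (1 + 5 * (7 * l) + (w - 1) * L) ≤ 2 * w * (44 * c * b * w) := by
          apply mul_le_mul_of_nonneg_left _ (by linarith)
          nlinarith
      _ = _ := by ring
  have h4 := mul_le_mul_of_nonneg_right h3 hs
  have h5 : b * n ^ 3 ≤ b * (2200 * c * w ^ 2 * s) := by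
    have e1 : n * (n ^ 2 * b / 25) = b * n ^ 3 / 25 := by ring
    have e2 : 88 * c * b * w ^ 2 * s = b * (2200 * c * w ^ 2 * s) / 25 := by ring
    rw [e1] at h2
    rw [e2] at h4
    linarith
  exact le_of_mul_le_mul_left h5 (by linarith)

theorem lower (hn : 16 ≤ n) (hc : 1 ≤ c) (hw : 1 ≤ w) {Ω : Type} [Fintype Ω] (μ : Ω → ℝ)
    (hμ : IsProb μ) (s : ℕ) (F : Ω → Fml (Option (Fin n)) (Item n) w (n ^ c))
    (hs : ∀ ω, (F ω).size ≤ s)
    (hF : ApproximatesOn μ (fun ω => (F ω).accepts) (InRange n (n + 1)) (shortcut n)) :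
    (n : ℝ) ^ 3 ≤ 2200 * c * w ^ 2 * s := by
  classical
  have hw' : (1 : ℝ) ≤ w := by exact_mod_cast hw
  have hc' : (1 : ℝ) ≤ c := by exact_mod_cast hc
  have hs0 : (0 : ℝ) ≤ s := Nat.cast_nonneg s
  by_cases hsn : n ^ 3 ≤ s
  · have h1 : (n : ℝ) ^ 3 ≤ s := by exact_mod_cast hsn
    have h2 : (1 : ℝ) ≤ w ^ 2 := by nlinarith
    have h3 : (1 : ℝ) ≤ c * w ^ 2 := by nlinarith
    nlinarith
  obtain ⟨b, hb⟩ : ∃ b, b = Nat.log 2 n := ⟨_, rfl⟩
  have hb4 : 4 ≤ b := by
    have := Nat.log_mono_right (b := 2) hn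
    rw [hb]
    rwa [show Nat.log 2 16 = 4 by decide +kernel] at this
  have hpow : 2 ^ b ≤ n := by
    rw [hb]
    exact Nat.pow_log_le_self 2 (by omega)
  have hpow2 : n < 2 ^ (b + 1) := by
    have := Nat.lt_pow_succ_log_self (b := 2) (by norm_num) n
    rw [hb]
    exact this
  have hM : 4 * n ^ 3 * (2 * s + 1) + 2 + s ≤ n ^ 7 := by
    have h1 : s < n ^ 3 := by omega
    have h2 : 4 * n ^ 3 * (2 * s + 1) ≤ 4 * n ^ 3 * (2 * n ^ 3) := Nat.mul_le_mul_left _ (by omega)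
    have h3 : 4 * n ^ 3 * (2 * n ^ 3) = 8 * n ^ 6 := by ring
    have h4 : n ^ 3 ≤ n ^ 6 := Nat.pow_le_pow_right (by omega) (by norm_num)
    have h5 : 16 * n ^ 6 ≤ n ^ 7 := by
      calc 16 * n ^ 6 ≤ n * n ^ 6 := Nat.mul_le_mul_right _ hn
        _ = n ^ 7 := by ring
    have h6 : 1 ≤ n ^ 6 := Nat.one_le_pow _ _ (by omega)
    omega
  have h := formula_lower μ hμ F (InRange n (2 ^ b + 1)) (shortcut n)
    (approx_mono μ _ _ _ _ (fun x hx => inRange_mono (by omega) x hx) hF) s hs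
    (Nat.one_le_pow _ _ (by omega)) hw (n ^ 3) (n ^ 7) hM 0
    ((univ : Finset (Fin n)).map Function.Embedding.some) (T := Fin n × Fin n × Fin b) (by
      intro a ha
      rw [mem_map] at ha
      obtain ⟨i, -, rfl⟩ := ha
      exact asks hpow i)
  rw [card_map, card_univ, Fintype.card_fin, card_T] at h
  push_cast at h
  rw [Real.logb_pow, Real.logb_pow] at h
  push_cast at h
  refine arith (l := Real.logb 2 n) (L := c * Real.logb 2 n) (by exact_mod_cast hn)
    (by exact_mod_cast hb4) hc' hw' ?_ rfl hs0 h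
  have h9 := logb_q (c := 1) (by omega) hb4 hpow2
  simpa using h9

/-- the arithmetic for programs -/
theorem arith_program {n b c w L l s : ℝ} (hn : 16 ≤ n) (hb : 4 ≤ b) (hc : 1 ≤ c) (hw : 1 ≤ w)
    (hl : l ≤ 5 / 4 * b) (hL : L = c * l) (hs : 0 ≤ s)
    (h : n * ((49 / 600 - 0) * (n ^ 2 * b) - 7 * l) ≤
      w * (3 + 12 * (7 * l) + 2 * (w - 1) * L) * s) :
    n ^ 3 ≤ 2700 * c * w ^ 2 * s := by
  have h0 : 256 ≤ n ^ 2 := by nlinarith
  have h00 : 256 * b ≤ n ^ 2 * b := mul_le_mul_of_nonneg_right h0 (by linarith)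
  have h1 : n ^ 2 * b / 25 ≤ (49 / 600 - 0) * (n ^ 2 * b) - 7 * l := by linarith
  have h2 : n * (n ^ 2 * b / 25) ≤ n * ((49 / 600 - 0) * (n ^ 2 * b) - 7 * l) :=
    mul_le_mul_of_nonneg_left h1 (by linarith)
  have h3 : w * (3 + 12 * (7 * l) + 2 * (w - 1) * L) ≤ 108 * c * b * w ^ 2 := by
    have h4 : (w - 1) * L ≤ (w - 1) * (5 / 4 * c * b) := by
      apply mul_le_mul_of_nonneg_left _ (by linarith)
      rw [hL]
      nlinarith
    have h5 : 3 + 12 * (7 * l) ≤ 106 * b := by linarith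
    have h6 : b ≤ c * b := by nlinarith
    have h7 : 0 ≤ (w - 1) * (c * b) := by
      apply mul_nonneg (by linarith)
      positivity
    calc w * (3 + 12 * (7 * l) + 2 * (w - 1) * L) ≤ w * (108 * c * b * w) := by
          apply mul_le_mul_of_nonneg_left _ (by linarith)
          nlinarith
      _ = _ := by ring
  have h4 := mul_le_mul_of_nonneg_right h3 hs
  have h5 : b * n ^ 3 ≤ b * (2700 * c * w ^ 2 * s) := by
    have e1 : n * (n ^ 2 * b / 25) = b * n ^ 3 / 25 := by ring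
    have e2 : 108 * c * b * w ^ 2 * s = b * (2700 * c * w ^ 2 * s) / 25 := by ring
    rw [e1] at h2
    rw [e2] at h4
    linarith
  exact le_of_mul_le_mul_left h5 (by linarith)

theorem program_bound (hn : 16 ≤ n) (hc : 1 ≤ c) (hw : 1 ≤ w) {Ω : Type} [Fintype Ω] (μ : Ω → ℝ)
    (hμ : IsProb μ) (s : ℕ) (F : Ω → Program (Option (Fin n)) (Item n) w (n ^ c) s)
    (hF : ApproximatesOn μ (fun ω => (F ω).eval) (InRange n (n + 1)) (shortcut n)) :
    (n : ℝ) ^ 3 ≤ 2700 * c * w ^ 2 * s := by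
  classical
  have hw' : (1 : ℝ) ≤ w := by exact_mod_cast hw
  have hc' : (1 : ℝ) ≤ c := by exact_mod_cast hc
  have hs0 : (0 : ℝ) ≤ s := Nat.cast_nonneg s
  by_cases hsn : n ^ 3 ≤ s
  · have h1 : (n : ℝ) ^ 3 ≤ s := by exact_mod_cast hsn
    have h2 : (1 : ℝ) ≤ w ^ 2 := by nlinarith
    have h3 : (1 : ℝ) ≤ c * w ^ 2 := by nlinarith
    nlinarith
  obtain ⟨b, hb⟩ : ∃ b, b = Nat.log 2 n := ⟨_, rfl⟩
  have hb4 : 4 ≤ b := by
    have := Nat.log_mono_right (b := 2) hn
    rw [hb]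
    rwa [show Nat.log 2 16 = 4 by decide +kernel] at this
  have hpow : 2 ^ b ≤ n := by
    rw [hb]
    exact Nat.pow_log_le_self 2 (by omega)
  have hpow2 : n < 2 ^ (b + 1) := by
    have := Nat.lt_pow_succ_log_self (b := 2) (by norm_num) n
    rw [hb]
    exact this
  have hM : 4 * n ^ 3 * (2 * s + 1) + 2 + s ≤ n ^ 7 := by
    have h1 : s < n ^ 3 := by omega
    have h2 : 4 * n ^ 3 * (2 * s + 1) ≤ 4 * n ^ 3 * (2 * n ^ 3) := Nat.mul_le_mul_left _ (by omega)
    have h3 : 4 * n ^ 3 * (2 * n ^ 3) = 8 * n ^ 6 := by ring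
    have h4 : n ^ 3 ≤ n ^ 6 := Nat.pow_le_pow_right (by omega) (by norm_num)
    have h5 : 16 * n ^ 6 ≤ n ^ 7 := by
      calc 16 * n ^ 6 ≤ n * n ^ 6 := Nat.mul_le_mul_right _ hn
        _ = n ^ 7 := by ring
    have h6 : 1 ≤ n ^ 6 := Nat.one_le_pow _ _ (by omega)
    omega
  have h := program_lower μ hμ s F (InRange n (2 ^ b + 1)) (shortcut n)
    (approx_mono μ _ _ _ _ (fun x hx => inRange_mono (by omega) x hx) hF)
    (Nat.one_le_pow _ _ (by omega)) hw (n ^ 3) (n ^ 7) hM 0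
    ((univ : Finset (Fin n)).map Function.Embedding.some) (T := Fin n × Fin n × Fin b) (by
      intro a ha
      rw [mem_map] at ha
      obtain ⟨i, -, rfl⟩ := ha
      exact asks hpow i)
  rw [card_map, card_univ, Fintype.card_fin, card_T] at h
  push_cast at h
  simp only [Real.logb_pow] at h
  push_cast at h
  refine arith_program (l := Real.logb 2 n) (L := c * Real.logb 2 n) (by exact_mod_cast hn)
    (by exact_mod_cast hb4) hc' hw' ?_ rfl hs0 h
  have h9 := logb_q (c := 1) (by omega) hb4 hpow2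
  simpa using h9

/-- exhaustive search -/
theorem upper (n w q : ℕ) : ∃ F : Fml (Option (Fin n)) (Item n) w q, F.size = 2 * n ^ 3 ∧
    ∀ x, F.accepts x = shortcut n x := by
  obtain ⟨F, h1, h2⟩ := exists_or (w := w) (q := q) (fun p : Fin n × Fin n × Fin n =>
    Fml.pos (.add (.item (D := Item n) (some p.1) (fun d => (d.2 p.2.2 : ℝ) - d.1 p.2.1))
      (.item (D := Item n) none (fun B => -(B p.2.1 p.2.2 : ℝ)))))
    (fun x p => (x (some p.1)).1 p.2.1 + x none p.2.1 p.2.2 < (x (some p.1)).2 p.2.2)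
    (fun x p => by
      simp only [Fml.eval]
      split_ifs <;> simp)
    (fun x p => by
      simp only [Fml.eval]
      have e : (0 : ℝ) < (((x (some p.1)).2 p.2.2 : ℕ) : ℝ) - ((x (some p.1)).1 p.2.1 : ℕ) +
          -((x none p.2.1 p.2.2 : ℕ) : ℝ) ↔
          (x (some p.1)).1 p.2.1 + x none p.2.1 p.2.2 < (x (some p.1)).2 p.2.2 := by
        constructor
        · intro h
          have : (((x (some p.1)).1 p.2.1 + x none p.2.1 p.2.2 : ℕ) : ℝ) <
              ((x (some p.1)).2 p.2.2 : ℕ) := by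
            push_cast
            linarith
          exact_mod_cast this
        · intro h
          have : (((x (some p.1)).1 p.2.1 + x none p.2.1 p.2.2 : ℕ) : ℝ) <
              ((x (some p.1)).2 p.2.2 : ℕ) := by exact_mod_cast h
          push_cast at this
          linarith
      rw [← e]
      split_ifs with h
      · simp [h]
      · simp [h])
    (shortcut n) (fun x => by
      unfold shortcut
      rw [decide_eq_true_iff]
      constructor
      · rintro ⟨i, k, j, h⟩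
        exact ⟨(i, k, j), h⟩
      · rintro ⟨p, h⟩
        exact ⟨p.1, p.2.1, p.2.2, h⟩)
  refine ⟨F, ?_, h2⟩
  rw [h1]
  simp only [Fml.size, sum_const, card_univ, Fintype.card_prod, Fintype.card_fin, smul_eq_mul]
  ring

end Pool.Agent.Y638.RF.MinPlus
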