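import Pool.Agent.Y638.RF.Blk
import Pool.Agent.TH457.Ary.Tri

set_option autoImplicit false

/-! # Triangles and real formulas -/

namespace Pool.Agent.Y638.RF.Tri

open Finset Pool.Agent.TH697.Form Pool.Agent.TH697.Row
open Pool.Agent.TH457.Ary.Tri
open Pool.Agent.TH457.Ary.Sat (exists_k logb_four_pow)
open Pool.Agent.Y638.RF

variable {m k c w : ℕ}

theorem asks (hk : 3 ≤ k) (hm : 4 ^ k ≤ m) (p : Fin m) :
    Asks (D := fun _ : Fin m => Edge (2 * m)) (Fin (M m k) × Fin k) (4 * m ^ 2) 0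
      Simple triangle p := by
  have h := asks_of_queries (queries hk hm p)
  have e : Fintype.card (Edge (2 * m)) = 4 * m ^ 2 := by
    rw [Fintype.card_prod, Fintype.card_fin]
    ring
  rw [e] at h
  exact h

theorem logb_m (hk : 4 ≤ k) (hm0 : 0 < m) (hm : m < 4 ^ (k + 1)) :
    Real.logb 2 (m : ℝ) ≤ 5 / 2 * k := by
  have h1 : (m : ℝ) ≤ (4 : ℝ) ^ (k + 1) := by exact_mod_cast hm.le
  have h4 := Real.logb_le_logb_of_le (by norm_num : (1 : ℝ) < 2)
    (by exact_mod_cast hm0) h1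
  rw [logb_four_pow] at h4
  push_cast at h4
  have hk' : (4 : ℝ) ≤ k := by exact_mod_cast hk
  linarith

/-- the arithmetic for programs -/
theorem arith_program {m k c w N l s : ℝ} (hm : 1000 ≤ m) (hk : 4 ≤ k) (hc : 1 ≤ c) (hw : 1 ≤ w)
    (hN : m * k / 2 ≤ N) (hl : l ≤ 5 / 2 * k) (hs : 0 ≤ s)
    (h : m * ((49 / 600 - 0) * N - 5 * l) ≤ w * (3 + 12 * (5 * l) + 2 * (w - 1) * (c * l)) * s) :
    m ^ 2 ≤ 6100 * c * w ^ 2 * s := by
  have h0 : 1000 * k ≤ m * k := mul_le_mul_of_nonneg_right hm (by linarith)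
  have h1 : m * k / 40 ≤ (49 / 600 - 0) * N - 5 * l := by linarith
  have h2 : m * (m * k / 40) ≤ m * ((49 / 600 - 0) * N - 5 * l) :=
    mul_le_mul_of_nonneg_left h1 (by linarith)
  have h3 : w * (3 + 12 * (5 * l) + 2 * (w - 1) * (c * l)) ≤ 152 * c * k * w ^ 2 := by
    have h4 : (w - 1) * (c * l) ≤ (w - 1) * (c * (5 / 2 * k)) :=
      mul_le_mul_of_nonneg_left (mul_le_mul_of_nonneg_left hl (by linarith)) (by linarith)
    have h5 : 3 + 12 * (5 * l) ≤ 151 * k := by linarith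
    have h6 : k ≤ c * k := by nlinarith
    have h7 : 0 ≤ (w - 1) * (c * k) := by
      apply mul_nonneg (by linarith)
      positivity
    calc w * (3 + 12 * (5 * l) + 2 * (w - 1) * (c * l)) ≤ w * (152 * c * k * w) := by
          apply mul_le_mul_of_nonneg_left _ (by linarith)
          nlinarith
      _ = _ := by ring
  have h4 := mul_le_mul_of_nonneg_right h3 hs
  have h5 : k * m ^ 2 ≤ k * (6100 * c * w ^ 2 * s) := by
    have e1 : m * (m * k / 40) = k * m ^ 2 / 40 := by ring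
    have e2 : 152 * c * k * w ^ 2 * s = k * (6080 * c * w ^ 2 * s) / 40 := by ring
    rw [e1] at h2
    rw [e2] at h4
    have h8 : 0 ≤ k * (c * w ^ 2 * s) := by positivity
    nlinarith
  exact le_of_mul_le_mul_left h5 (by linarith)

theorem program_bound (hm : 1000 ≤ m) (hc : 1 ≤ c) (hw : 1 ≤ w) {Ω : Type} [Fintype Ω] (μ : Ω → ℝ)
    (hμ : IsProb μ) (s : ℕ) (B : Ω → Program (Fin m) (fun _ => Edge (2 * m)) w (m ^ c) s)
    (hB : ApproximatesOn μ (fun ω => (B ω).eval) Simple triangle) :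
    (m : ℝ) ^ 2 ≤ 6100 * c * w ^ 2 * s := by
  classical
  have hw' : (1 : ℝ) ≤ w := by exact_mod_cast hw
  have hc' : (1 : ℝ) ≤ c := by exact_mod_cast hc
  have hs0 : (0 : ℝ) ≤ s := Nat.cast_nonneg s
  by_cases hsm : m ^ 2 ≤ s
  · have h1 : (m : ℝ) ^ 2 ≤ s := by exact_mod_cast hsm
    have h2 : (1 : ℝ) ≤ w ^ 2 := by nlinarith
    have h3 : (1 : ℝ) ≤ c * w ^ 2 := by nlinarith
    nlinarith
  obtain ⟨k, hk, hk1, hk2⟩ := exists_k (m := m) (by omega)
  have hM : 4 * (4 * m ^ 2) * (2 * s + 1) + 2 + s ≤ m ^ 5 := by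
    have h1 : s < m ^ 2 := by omega
    have h2 : 4 * (4 * m ^ 2) * (2 * s + 1) ≤ 4 * (4 * m ^ 2) * (2 * m ^ 2) :=
      Nat.mul_le_mul_left _ (by omega)
    have h3 : 4 * (4 * m ^ 2) * (2 * m ^ 2) = 32 * m ^ 4 := by ring
    have h4 : m ^ 2 ≤ m ^ 4 := Nat.pow_le_pow_right (by omega) (by norm_num)
    have h5 : 1000 * m ^ 4 ≤ m ^ 5 := by
      calc 1000 * m ^ 4 ≤ m * m ^ 4 := Nat.mul_le_mul_right _ hm
        _ = m ^ 5 := by ring
    have h6 : 1 ≤ m ^ 4 := Nat.one_le_pow _ _ (by omega)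
    omega
  have h := program_lower (D := fun _ : Fin m => Edge (2 * m)) μ hμ s B Simple triangle hB
    (Nat.one_le_pow _ _ (by omega)) hw (4 * m ^ 2) (m ^ 5) hM 0 univ (T := Fin (M m k) × Fin k)
    (fun p _ => asks (by omega) hk1 p)
  rw [card_univ (α := Fin m), Fintype.card_fin, Nat.cast_pow m 5, Nat.cast_pow m c,
    Real.logb_pow, Real.logb_pow] at h
  refine arith_program (N := ((Fintype.card (Fin (M m k) × Fin k) : ℕ) : ℝ))
    (l := Real.logb 2 (m : ℝ)) (by exact_mod_cast hm)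
    (by exact_mod_cast hk) hc' hw' (card_T (by omega) hk1) (logb_m hk (by omega) hk2) hs0 ?_
  push_cast at h ⊢
  exact h

end Pool.Agent.Y638.RF.Tri
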