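import Pool.Agent.Y638.RF.NetZeroSum
import Pool.Agent.Y638.RF.Tri

set_option autoImplicit false

/-! # Triangles and networks -/

namespace Pool.Agent.Y638.RF.Tri

open Finset Pool.Agent.TH697.Form Pool.Agent.TH697.Row
open Pool.Agent.TH457.Ary.Tri
open Pool.Agent.TH457.Ary.Sat (exists_k logb_four_pow)
open Pool.Agent.Y638.RF

variable {m k c w : ℕ}

/-- the arithmetic for networks -/
theorem arith_net {m k c w l s : ℝ} (hm : 0 ≤ m) (hk : 4 ≤ k) (hc : 1 ≤ c) (hw : 1 ≤ w)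
    (hl : l ≤ 5 / 2 * k) (hs : 0 ≤ s)
    (h : m * (m * k * (1 / 2)) ≤ 4000 * w * (Real.sqrt (m * k * (1 / 2)) +
      (3 + 10 * (5 * l) + 2 * (w - 1) * (c * l))) * s) :
    m ^ 2 ≤ 3000 * w * (Real.sqrt m + 350 * c * w) * s := by
  have h1 : Real.sqrt (m * k * (1 / 2)) ≤ 3 / 8 * k * Real.sqrt m :=
    sqrt_mul_le hm (by linarith) (by norm_num) (by norm_num) (by linarith)
  have h2 : 3 + 10 * (5 * l) + 2 * (w - 1) * (c * l) ≤ 126 * (c * w * k) := by
    have h4 : (w - 1) * (c * l) ≤ (w - 1) * (c * (5 / 2 * k)) :=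
      mul_le_mul_of_nonneg_left (mul_le_mul_of_nonneg_left hl (by linarith)) (by linarith)
    have h5 : 3 + 10 * (5 * l) ≤ 126 * k := by linarith
    have h6 : k ≤ c * k := by nlinarith
    have h7 : 0 ≤ (w - 1) * (c * k) := by
      apply mul_nonneg (by linarith)
      positivity
    nlinarith
  have h3 : m * (m * k * (1 / 2)) ≤ 4000 * w * (3 / 8 * k * Real.sqrt m + 126 * (c * w * k)) * s := by
    refine h.trans ?_
    apply mul_le_mul_of_nonneg_right _ hs
    apply mul_le_mul_of_nonneg_left _ (by linarith)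
    linarith
  have h4 : k * m ^ 2 ≤ k * (3000 * w * (Real.sqrt m + 336 * c * w) * s) := by
    have e1 : m * (m * k * (1 / 2)) = k * m ^ 2 / 2 := by ring
    have e2 : 4000 * w * (3 / 8 * k * Real.sqrt m + 126 * (c * w * k)) * s =
        k * (3000 * w * (Real.sqrt m + 336 * c * w) * s) / 2 := by ring
    rw [e1, e2] at h3
    linarith
  have h5 := le_of_mul_le_mul_left h4 (by linarith)
  refine h5.trans ?_
  apply mul_le_mul_of_nonneg_right _ hs
  apply mul_le_mul_of_nonneg_left _ (by linarith)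
  have : 0 ≤ c * w := by positivity
  nlinarith

theorem net_bound' (hm : 1000 ≤ m) (hc : 1 ≤ c) (hw : 1 ≤ w) {Ω : Type} [Fintype Ω] (μ : Ω → ℝ)
    (hμ : IsProb μ) (s : ℕ) (F : Ω → Net (Fin m) (fun _ => Edge (2 * m)) w (m ^ c))
    (hs : ∀ ω, (F ω).size ≤ s)
    (hF : ApproximatesOn μ (fun ω => (F ω).eval) Simple triangle ∨
      ApproximatesOn μ (fun ω x => !(F ω).eval x) Simple triangle) :
    (m : ℝ) ^ 2 ≤ 3000 * w * (Real.sqrt m + 350 * c * w) * s := by
  classical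
  have hw' : (1 : ℝ) ≤ w := by exact_mod_cast hw
  have hc' : (1 : ℝ) ≤ c := by exact_mod_cast hc
  have hs0 : (0 : ℝ) ≤ s := Nat.cast_nonneg s
  by_cases hsm : m ^ 2 ≤ s
  · exact ZeroSum.trivial_case (Nat.cast_nonneg m) hc' hw' 3000 350 (by norm_num) (by norm_num)
      (by exact_mod_cast hsm)
  obtain ⟨k, hk, hk1, hk2⟩ := exists_k (m := m) (by omega)
  have hM : 4 * (4 * m ^ 2) * (2 * s + 1) + 2 + s ≤ m ^ 5 := by
    have h1 : s < m ^ 2 := by omega
    have h2 : 4 * (4 * m ^ 2) * (2 * s + 1) ≤ 4 * (4 * m ^ 2) * (2 * m ^ 2) :=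
      Nat.mul_le_mul_left _ (by omega)
    have h3 : 4 * (4 * m ^ 2) * (2 * m ^ 2) = 32 * m ^ 4 := by ring
    have h4 : m ^ 2 ≤ m ^ 4 := Nat.pow_le_pow_right (by omega) (by norm_num)
    have h5 : 1000 * m ^ 4 ≤ m ^ 5 := by
      calc 1000 * m ^ 4 ≤ m * m ^ 4 := Nat.mul_le_mul_right _ hm
        _ = m ^ 5 := by ring
    have h6 : 1 ≤ m ^ 4 := Nat.one_le_pow _ _ (by omega)
    omega
  have hk' : (4 : ℝ) ≤ k := by exact_mod_cast hk
  have hm' : (1000 : ℝ) ≤ m := by exact_mod_cast hm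
  have h := net_bound_le (D := fun _ : Fin m => Edge (2 * m)) μ hμ F Simple triangle hF s hs
    (Nat.one_le_pow _ _ (by omega)) hw (4 * m ^ 2) (m ^ 5) hM 0 (by norm_num) univ
    (T := Fin (M m k) × Fin k) (fun p _ => asks (by omega) hk1 p) ((m : ℝ) * k * (1 / 2))
    (by nlinarith) (by
      have := card_T (m := m) (k := k) (by omega) hk1
      linarith)
  rw [card_univ (α := Fin m), Fintype.card_fin, Nat.cast_pow m 5, Nat.cast_pow m c,
    Real.logb_pow, Real.logb_pow] at h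
  refine arith_net (l := Real.logb 2 (m : ℝ)) (Nat.cast_nonneg m) hk' hc' hw'
    (logb_m hk (by omega) hk2) hs0 ?_
  push_cast at h ⊢
  exact h

end Pool.Agent.Y638.RF.Tri
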