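import Pool.Agent.Y638.RF.Prog
import Pool.Agent.TH457.Ary.Core

set_option autoImplicit false

/-! # Queries by one item of a finite type -/

namespace Pool.Agent.Y638.RF

open Finset Pool.Agent.TH697.Form Pool.Agent.TH697.Row

theorem asks_of_queries {ι : Type} {D : ι → Type} [DecidableEq ι] {T : Type} [Fintype T]
    {P : (∀ i, D i) → Prop} {f : (∀ i, D i) → Bool} {i : ι} [Fintype (D i)]
    (h : Pool.Agent.TH457.Ary.Queries T id P f i) :
    Asks T (Fintype.card (D i)) 0 P f i := by
  classical
  obtain ⟨r, Q, R, h1, h2, h3⟩ := h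
  have e : ∀ t z, Pool.Agent.TH457.Ary.merge id i (Q t z) (R z) =
      Function.update (R z) i (Q t z i) := by
    intro t z
    funext j
    unfold Pool.Agent.TH457.Ary.merge
    by_cases hj : j = i
    · subst hj
      simp
    · simp [hj]
  refine ⟨univ, r, fun t z => Q t z i, R, le_of_eq card_univ, fun t z => mem_univ _, ?_, ?_, ?_⟩
  · intro t z z' hz
    simp only
    rw [h1 t z z' hz]
  · intro t z
    rw [← e]
    exact h2 t z
  · have h4 : ∀ t z, f (Function.update (R z) i (Q t z i)) = z t := by
      intro t z
      rw [← e]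
      exact h3 t z
    simp only [h4, ne_eq, not_true_eq_false, filter_false, card_empty]
    simp

end Pool.Agent.Y638.RF
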