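import Pool.Agent.Y638.RF.NetGen
import Pool.Agent.Y638.RF.Blk
import Pool.Agent.TH457.Ary.Comp

set_option autoImplicit false

/-! # Comparator circuits and real formulas -/

namespace Pool.Agent.Y638.RF.Comp

open Finset Pool.Agent.TH697.Form Pool.Agent.TH697.Row
open Pool.Agent.TH457.Ary.Comp (Item value queries late mem_late card_late card_T logb_q)
open Pool.Agent.Y638.RF

variable {m w : ℕ}

theorem asks (p : Fin m) (hp : m / 2 ≤ p.val) :
    Asks (D := Item m (m + 3)) (Fin (m / 2)) ((m + 3) ^ 2) 0 (fun _ => True) value (.inl p) := by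
  have : Fintype (Item m (m + 3) (.inl p)) :=
    inferInstanceAs (Fintype (Fin (m + 3) × Fin (m + 3)))
  have h := asks_of_queries (queries p hp)
  have e : Fintype.card (Item m (m + 3) (.inl p)) = (m + 3) ^ 2 := by
    have e1 : Fintype.card (Item m (m + 3) (.inl p)) = Fintype.card (Fin ((m + 3) * (m + 3))) :=
      Fintype.card_congr (finProdFinEquiv : Fin (m + 3) × Fin (m + 3) ≃ Fin ((m + 3) * (m + 3)))
    rw [e1, Fintype.card_fin]
    ring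
  rw [e] at h
  exact h

/-- the logarithm is small -/
theorem logb_small (hm : 4096 ≤ m) : Real.logb 2 m ≤ m / 300 := by
  obtain ⟨K, hK⟩ : ∃ K, K = Nat.log 2 m := ⟨_, rfl⟩
  have hK9 : 12 ≤ K := by
    rw [hK]
    have := Nat.log_mono_right (b := 2) hm
    rwa [show Nat.log 2 4096 = 12 by decide +kernel] at this
  have h5 := Nat.lt_pow_succ_log_self (b := 2) (by norm_num) m
  have h6 : (m : ℝ) ≤ (2 : ℝ) ^ (Nat.log 2 m + 1) := by exact_mod_cast h5.le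
  have hm0 : (0 : ℝ) < m := by
    have : 0 < m := by omega
    exact_mod_cast this
  have h7 := Real.logb_le_logb_of_le (by norm_num : (1 : ℝ) < 2) hm0 h6
  rw [Pool.Agent.TH457.Ary.OuMv.logb_two_pow', ← hK] at h7
  push_cast at h7
  have h8 : 300 * (K + 1) ≤ 2 ^ K := by
    clear h7 hK
    induction K, hK9 using Nat.le_induction with
    | base => norm_num
    | succ k hk ih =>
      rw [pow_succ]
      omega
  have h10 : 2 ^ K ≤ m := by
    rw [hK]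
    exact Nat.pow_log_le_self 2 (by omega)
  have h11 : 300 * ((K : ℝ) + 1) ≤ m := by exact_mod_cast h8.trans h10
  linarith

theorem sizes (hm : 4096 ≤ m) (s : ℕ) (hs : s < m ^ 2) :
    4 * (m + 3) ^ 2 * (2 * s + 1) + 2 + s ≤ m ^ 5 := by
  have h2 : (m + 3) ^ 2 ≤ 2 * m ^ 2 := by nlinarith
  have h3 : 4 * (m + 3) ^ 2 * (2 * s + 1) ≤ 4 * (2 * m ^ 2) * (2 * m ^ 2) :=
    Nat.mul_le_mul (Nat.mul_le_mul_left _ h2) (by omega)
  have h4 : 4 * (2 * m ^ 2) * (2 * m ^ 2) = 16 * m ^ 4 := by ring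
  have h5 : m ^ 2 ≤ m ^ 4 := Nat.pow_le_pow_right (by omega) (by norm_num)
  have h6 : 4096 * m ^ 4 ≤ m ^ 5 := by
    calc 4096 * m ^ 4 ≤ m * m ^ 4 := Nat.mul_le_mul_right _ hm
      _ = m ^ 5 := by ring
  have h7 : 1 ≤ m ^ 4 := Nat.one_le_pow _ _ (by omega)
  omega

theorem program_bound (hm : 4096 ≤ m) (hw : 1 ≤ w) {Ω : Type} [Fintype Ω] (μ : Ω → ℝ)
    (hμ : IsProb μ) (s : ℕ)
    (B : Ω → Program (Fin m ⊕ Fin (m + 3)) (Item m (m + 3)) w ((m + 3) ^ 2) s)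
    (hB : ApproximatesOn μ (fun ω => (B ω).eval) (fun _ => True) value) :
    (m : ℝ) ^ 2 ≤ 6100 * w ^ 2 * Real.logb 2 m * s := by
  classical
  obtain ⟨hq, hl⟩ := logb_q (by omega : 64 ≤ m)
  have hl2 := logb_small hm
  have hm' : (4096 : ℝ) ≤ m := by exact_mod_cast hm
  have hw' : (1 : ℝ) ≤ w := by exact_mod_cast hw
  have hs0 : (0 : ℝ) ≤ s := Nat.cast_nonneg s
  have hw2 : (1 : ℝ) ≤ w ^ 2 := by nlinarith
  obtain ⟨l, hl'⟩ : ∃ l : ℝ, l = Real.logb 2 (m : ℝ) := ⟨_, rfl⟩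
  rw [← hl'] at hq hl hl2 ⊢
  by_cases hs : m ^ 2 ≤ s
  · have h1 : (m : ℝ) ^ 2 ≤ s := by exact_mod_cast hs
    have h3 : (1 : ℝ) ≤ 6100 * w ^ 2 * l := by nlinarith
    nlinarith
  have h := program_lower μ hμ s B (fun _ => True) value hB (Nat.one_le_pow _ _ (by omega)) hw
    ((m + 3) ^ 2) (m ^ 5) (sizes hm s (by omega)) 0 (late m) (T := Fin (m / 2)) (by
      intro a ha
      obtain ⟨p, hp, rfl⟩ := mem_late ha
      exact asks p hp)
  have hI := card_late (m := m)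
  have hT := card_T (m := m)
  rw [Nat.cast_pow m 5, Real.logb_pow] at h
  obtain ⟨I, hI'⟩ : ∃ I : ℝ, I = ((late m).card : ℝ) := ⟨_, rfl⟩
  obtain ⟨N, hN'⟩ : ∃ N : ℝ, N = ((Fintype.card (Fin (m / 2)) : ℕ) : ℝ) := ⟨_, rfl⟩
  obtain ⟨L, hL'⟩ : ∃ L : ℝ, L = Real.logb 2 (((m + 3) ^ 2 : ℕ) : ℝ) := ⟨_, rfl⟩
  rw [← hI'] at h hI
  rw [← hN'] at h hT
  rw [← hL', ← hl'] at h
  rw [← hL'] at hq
  push_cast at h
  have h1 : (m : ℝ) / 50 ≤ (49 / 600 - 0) * N - 5 * l := by linarith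
  have h2 : (m : ℝ) / 2 * (m / 50) ≤ I * ((49 / 600 - 0) * N - 5 * l) :=
    mul_le_mul hI h1 (by positivity) (by linarith)
  have h3 : (w : ℝ) * (3 + 12 * (5 * l) + 2 * (w - 1) * L) ≤ 61 * l * w ^ 2 := by
    have h4 : ((w : ℝ) - 1) * L ≤ (w - 1) * (3 * l) :=
      mul_le_mul_of_nonneg_left hq (by linarith)
    have h6 : 3 + 12 * (5 * l) + 2 * ((w : ℝ) - 1) * L ≤ 61 * l * w := by nlinarith
    calc (w : ℝ) * (3 + 12 * (5 * l) + 2 * (w - 1) * L) ≤ w * (61 * l * w) :=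
          mul_le_mul_of_nonneg_left h6 (by linarith)
      _ = _ := by ring
  have h4 := mul_le_mul_of_nonneg_right h3 hs0
  nlinarith

theorem net_bound' (hm : 4096 ≤ m) (hw : 1 ≤ w) {Ω : Type} [Fintype Ω] (μ : Ω → ℝ)
    (hμ : IsProb μ) (s : ℕ)
    (F : Ω → Net (Fin m ⊕ Fin (m + 3)) (Item m (m + 3)) w ((m + 3) ^ 2))
    (hsz : ∀ ω, (F ω).size ≤ s)
    (hF : ApproximatesOn μ (fun ω => (F ω).eval) (fun _ => True) value ∨
      ApproximatesOn μ (fun ω x => !(F ω).eval x) (fun _ => True) value) :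
    (m : ℝ) ^ 2 ≤ 12000 * w * (Real.sqrt m + 77 * w * Real.logb 2 m) * s := by
  classical
  obtain ⟨hq, hl⟩ := logb_q (by omega : 64 ≤ m)
  have hm' : (4096 : ℝ) ≤ m := by exact_mod_cast hm
  have hw' : (1 : ℝ) ≤ w := by exact_mod_cast hw
  have hs0 : (0 : ℝ) ≤ s := Nat.cast_nonneg s
  obtain ⟨l, hl'⟩ : ∃ l : ℝ, l = Real.logb 2 (m : ℝ) := ⟨_, rfl⟩
  have hr := Real.sqrt_nonneg (m : ℝ)
  by_cases hs : m ^ 2 ≤ s
  · have h1 : (m : ℝ) ^ 2 ≤ s := by exact_mod_cast hs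
    rw [← hl'] at hl ⊢
    have h2 : 0 ≤ (w : ℝ) * l := by positivity
    have h3 : (1 : ℝ) ≤ 12000 * w * (Real.sqrt m + 77 * w * l) := by nlinarith
    nlinarith
  have h := net_bound_le μ hμ F (fun _ => True) value hF s hsz (Nat.one_le_pow _ _ (by omega)) hw
    ((m + 3) ^ 2) (m ^ 5) (sizes hm s (by omega)) 0 (by norm_num) (late m) (T := Fin (m / 2)) (by
      intro a ha
      obtain ⟨p, hp, rfl⟩ := mem_late ha
      exact asks p hp) (4 / 9 * (m : ℝ)) (by linarith) (by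
      have := card_T (m := m)
      linarith)
  have hI := card_late (m := m)
  rw [Nat.cast_pow m 5, Real.logb_pow] at h
  obtain ⟨I, hI'⟩ : ∃ I : ℝ, I = ((late m).card : ℝ) := ⟨_, rfl⟩
  obtain ⟨L, hL'⟩ : ∃ L : ℝ, L = Real.logb 2 (((m + 3) ^ 2 : ℕ) : ℝ) := ⟨_, rfl⟩
  rw [← hI'] at h hI
  rw [← hL', ← hl'] at h
  rw [← hL', ← hl'] at hq
  rw [← hl'] at hl ⊢
  have hsq : Real.sqrt (4 / 9 * (m : ℝ)) = 2 / 3 * Real.sqrt m := by
    rw [Real.sqrt_mul (by norm_num), show (4 / 9 : ℝ) = (2 / 3) ^ 2 by norm_num,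
      Real.sqrt_sq (by norm_num)]
  rw [hsq] at h
  push_cast at h
  have h1 : (m : ℝ) / 2 * (4 / 9 * m) ≤ I * (4 / 9 * m) :=
    mul_le_mul_of_nonneg_right hI (by linarith)
  have h2 : 3 + 10 * (5 * l) + 2 * ((w : ℝ) - 1) * L ≤ 51 * (w * l) := by
    have h4 : ((w : ℝ) - 1) * L ≤ (w - 1) * (3 * l) :=
      mul_le_mul_of_nonneg_left hq (by linarith)
    nlinarith
  have h3 : 4000 * (w : ℝ) * (2 / 3 * Real.sqrt m + (3 + 10 * (5 * l) + 2 * ((w : ℝ) - 1) * L)) * s ≤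
      4000 * w * (2 / 3 * Real.sqrt m + 51 * (w * l)) * s := by
    apply mul_le_mul_of_nonneg_right _ hs0
    apply mul_le_mul_of_nonneg_left _ (by linarith)
    linarith
  have h4 := h1.trans (h.trans h3)
  have h5 : (m : ℝ) ^ 2 ≤ 12000 * w * (Real.sqrt m + 153 / 2 * w * l) * s := by
    have e1 : (m : ℝ) / 2 * (4 / 9 * m) = 2 / 9 * m ^ 2 := by ring
    have e2 : 4000 * (w : ℝ) * (2 / 3 * Real.sqrt m + 51 * (w * l)) * s =
        2 / 9 * (12000 * w * (Real.sqrt m + 153 / 2 * w * l) * s) := by ring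
    rw [e1, e2] at h4
    linarith
  refine h5.trans ?_
  apply mul_le_mul_of_nonneg_right _ hs0
  apply mul_le_mul_of_nonneg_left _ (by linarith)
  have : 0 ≤ (w : ℝ) * l := by positivity
  nlinarith

end Pool.Agent.Y638.RF.Comp
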