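import Mathlib
import Pool.Agent.H589R2.MNL.DPDADef

set_option autoImplicit false

/-! # A deterministic context-free language: paths in trees -/

namespace Pool.Agent.Y638.RF.DCF

/-- The letters: neutral letter, bits of the address, inner nodes and leaves of a binary tree (in
preorder). -/
inductive Lt
  | e
  | bit (b : Bool)
  | node
  | leaf (b : Bool)
  deriving DecidableEq, Fintype

/-- Stack symbols: bottom, a bit of the address, and a counter for subtrees which are skipped. -/
inductive Sy
  | bot
  | a (b : Bool)
  | c
  deriving DecidableEq

instance : Finite Sy := Finite.of_surjective
  (fun x : Option (Option Bool) => match x with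
    | none => Sy.bot
    | some none => Sy.c
    | some (some b) => Sy.a b) (by
    rintro (_ | b | _)
    · exact ⟨none, rfl⟩
    · exact ⟨some (some b), rfl⟩
    · exact ⟨some none, rfl⟩)

/-- The moves of the automaton. The state is `none` as long as the answer is not known. -/
def move : Option Bool → Lt → Sy → Option (Option Bool × List Sy)
  | some b, _, z => some (some b, [z])
  | none, .e, z => some (none, [z])
  | none, .bit b, z => some (none, [.a b, z])
  | none, .node, .a false => some (none, [])
  | none, .node, .a true => some (none, [.c])
  | none, .node, .c => some (none, [.c, .c])
  | none, .node, .bot => none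
  | none, .leaf b, .bot => some (some b, [.bot])
  | none, .leaf _, .c => some (none, [])
  | none, .leaf _, .a _ => none

/-- The automaton pushes the bits of the address on the stack, follows the path which they describe in
the tree, and answers with the label of the leaf. -/
def auto : Pool.Agent.H589R2.MNL.DPDA Lt where
  Q := Option Bool
  Z := Sy
  finQ := inferInstance
  finZ := inferInstance
  start := none
  bot := .bot
  acc := {some true}
  δ := move

/-- The word which consists of `n` blocks of `k` letters. -/
def word {Γ : Type} {n k : ℕ} (x : Fin n → Fin k → Γ) : List Γ :=
  (List.ofFn fun i => List.ofFn (x i)).flatten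

open Classical in
/-- The words of `n` blocks of `k` letters which are accepted by an automaton. -/
noncomputable def lang {Γ : Type} (A : Pool.Agent.H589R2.MNL.DPDA Γ) {n k : ℕ}
    (x : Fin n → Fin k → Γ) : Bool :=
  decide (A.Accepts (word x))

theorem card_Lt : Fintype.card Lt = 6 := by decide

end Pool.Agent.Y638.RF.DCF
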