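import Pool.Agent.Y638.RF.NetGen
import Pool.Agent.Y638.RF.Prog
import Pool.Agent.Y638.RF.DCFDefs

set_option autoImplicit false

/-! # A deterministic context-free language and real formulas -/

namespace Pool.Agent.Y638.RF.DCF

open Finset Pool.Agent.TH697.Form Pool.Agent.TH697.Row
open Pool.Agent.H589R2.MNL (DPDA)
open Pool.Agent.Y638.RF

theorem run_append {Γ : Type} (M : DPDA Γ) (u v : List Γ) (c : M.Q × List M.Z) :
    M.run (u ++ v) c = (M.run u c).bind (M.run v) := by
  induction u generalizing c with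
  | nil => rfl
  | cons a u ih =>
    simp only [List.cons_append, DPDA.run]
    rcases M.step a c with _ | d
    · rfl
    · simp only [Option.bind_some]
      exact ih d

/-- the run of the automaton -/
def run (u : List Lt) (c : Option Bool × List Sy) : Option (Option Bool × List Sy) := auto.run u c

theorem run_app (u v : List Lt) (c : Option Bool × List Sy) :
    run (u ++ v) c = (run u c).bind (run v) := run_append auto u v c

theorem run_nil (c : Option Bool × List Sy) : run [] c = some c := rfl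

theorem run_cons (a : Lt) (u : List Lt) (q : Option Bool) (z : Sy) (s : List Sy) :
    run (a :: u) (q, z :: s) = ((move q a z).map (fun d => (d.1, d.2 ++ s))).bind (run u) := rfl

theorem run_done (u : List Lt) (b : Bool) (z : Sy) (s : List Sy) :
    run u (some b, z :: s) = some (some b, z :: s) := by
  induction u with
  | nil => rfl
  | cons a u ih =>
    rw [run_cons]
    simp only [move, Option.map_some, Option.bind_some, List.cons_append, List.nil_append]
    exact ih

theorem run_neutral (j : ℕ) (q : Option Bool) (z : Sy) (s : List Sy) :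
    run (List.replicate j Lt.e) (q, z :: s) = some (q, z :: s) := by
  induction j with
  | zero => rfl
  | succ j ih =>
    rw [List.replicate_succ, run_cons]
    rcases q with _ | b
    · simp only [move, Option.map_some, Option.bind_some, List.cons_append, List.nil_append]
      exact ih
    · simp only [move, Option.map_some, Option.bind_some, List.cons_append, List.nil_append]
      exact ih

theorem run_bits (l : List Bool) (z : Sy) (s : List Sy) :
    run (l.map Lt.bit) (none, z :: s) = some (none, l.reverse.map Sy.a ++ z :: s) := by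
  induction l generalizing z s with
  | nil => rfl
  | cons b l ih =>
    rw [List.map_cons, run_cons]
    simp only [move, Option.map_some, Option.bind_some, List.cons_append, List.nil_append]
    rw [ih]
    simp

/-- the complete binary tree of depth `d` in preorder -/
def polish : (d : ℕ) → (List Bool → Bool) → List Lt
  | 0, t => [Lt.leaf (t [])]
  | d + 1, t => Lt.node :: (polish d (fun l => t (false :: l)) ++ polish d (fun l => t (true :: l)))

theorem length_polish (d : ℕ) (t : List Bool → Bool) : (polish d t).length + 1 = 2 ^ (d + 1) := by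
  induction d generalizing t with
  | zero => rfl
  | succ d ih =>
    have h1 := ih (fun l => t (false :: l))
    have h2 := ih (fun l => t (true :: l))
    simp only [polish, List.length_cons, List.length_append]
    rw [pow_succ, ← h1]
    omega

theorem run_skip (d : ℕ) (t : List Bool → Bool) (s : List Sy) :
    run (polish d t) (none, Sy.c :: s) = some (none, s) := by
  induction d generalizing t s with
  | zero =>
    rw [polish, run_cons]
    simp only [move, Option.map_some, Option.bind_some, List.nil_append]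
    rfl
  | succ d ih =>
    rw [polish, run_cons]
    simp only [move, Option.map_some, Option.bind_some, List.cons_append, List.nil_append]
    rw [run_app, ih]
    simp only [Option.bind_some]
    exact ih _ _

theorem run_tree (d : ℕ) (t : List Bool → Bool) (l : List Bool) (hl : l.length = d) :
    run (polish d t) (none, l.map Sy.a ++ [Sy.bot]) = some (some (t l), [Sy.bot]) := by
  induction d generalizing t l with
  | zero =>
    obtain rfl := List.eq_nil_of_length_eq_zero hl
    rfl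
  | succ d ih =>
    obtain ⟨b, l, rfl⟩ : ∃ b l', l = b :: l' := by
      cases l with
      | nil => simp at hl
      | cons b l' => exact ⟨b, l', rfl⟩
    have hl' : l.length = d := by simpa using hl
    rw [polish, List.map_cons, List.cons_append, run_cons]
    cases b
    · simp only [move, Option.map_some, Option.bind_some, List.nil_append]
      rw [run_app, ih _ _ hl']
      simp only [Option.bind_some]
      exact run_done _ _ _ _
    · simp only [move, Option.map_some, Option.bind_some, List.cons_append, List.nil_append]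
      rw [run_app, run_skip]
      simp only [Option.bind_some]
      exact ih _ _ hl'

theorem run_neutral_blocks {k : ℕ} (n : ℕ) (y : Fin n → Fin k → Lt) (hy : ∀ j, y j = fun _ => Lt.e)
    (q : Option Bool) (z : Sy) (s : List Sy) :
    run (word y) (q, z :: s) = some (q, z :: s) := by
  induction n with
  | zero => rfl
  | succ n ih =>
    unfold word
    rw [List.ofFn_succ, List.flatten_cons, hy 0, List.ofFn_const, run_app, run_neutral]
    simp only [Option.bind_some]
    exact ih (fun j => y j.succ) (fun j => hy _)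

theorem run_one_block {k : ℕ} (n : ℕ) (y : Fin n → Fin k → Lt) (i : Fin n)
    (hy : ∀ j, j ≠ i → y j = fun _ => Lt.e) (z' : Sy) (s' : List Sy)
    (h : run (List.ofFn (y i)) (none, [Sy.bot]) = some (none, z' :: s')) :
    run (word y) (none, [Sy.bot]) = some (none, z' :: s') := by
  induction n with
  | zero => exact i.elim0
  | succ n ih =>
    unfold word
    rw [List.ofFn_succ, List.flatten_cons]
    by_cases hi : i = 0
    · subst hi
      rw [run_app, h]
      simp only [Option.bind_some]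
      exact run_neutral_blocks n (fun j => y j.succ) (fun j => hy _ (Fin.succ_ne_zero j)) _ _ _
    · obtain ⟨i', rfl⟩ := Fin.exists_succ_eq.2 hi
      rw [hy 0 (Fin.succ_ne_zero i').symm, List.ofFn_const, run_app, run_neutral]
      simp only [Option.bind_some]
      exact ih (fun j => y j.succ) i' (fun j hj => hy _ (fun e => hj (Fin.succ_injective _ e))) h

/-- the blocks which contain a list of letters, followed by neutral letters -/
def blocks (n k : ℕ) (L : List Lt) (j : Fin n) (c : Fin k) : Lt := L.getD (j.val * k + c.val) Lt.e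

theorem word_blocks (n k : ℕ) (L : List Lt) (hL : L.length ≤ n * k) :
    word (blocks n k L) = L ++ List.replicate (n * k - L.length) Lt.e := by
  have h1 : word (blocks n k L) = List.ofFn (fun p : Fin (n * k) => L.getD p.val Lt.e) := by
    rw [List.ofFn_mul]
    rfl
  rw [h1]
  apply List.ext_getElem
  · simp
    omega
  · intro p hp1 hp2
    rw [List.getElem_ofFn]
    by_cases hp : p < L.length
    · rw [List.getElem_append_left hp]
      simp [hp]
    · rw [List.getElem_append_right (by omega)]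
      simp [List.getElem?_eq_none (by omega : L.length ≤ p)]

theorem word_add {n m k : ℕ} {Γ : Type} (x : Fin (n + m) → Fin k → Γ) :
    word x = word (fun i => x (Fin.castAdd m i)) ++ word (fun j => x (Fin.natAdd n j)) := by
  unfold word
  rw [List.ofFn_add, List.flatten_append]
  rfl

/-- the block which contains an address -/
def adr {d : ℕ} (k : ℕ) (t : Fin d → Bool) (c : Fin k) : Lt :=
  if h : c.val < d then Lt.bit (t ⟨c.val, h⟩) else Lt.e

theorem ofFn_adr {d k : ℕ} (hd : d ≤ k) (t : Fin d → Bool) :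
    List.ofFn (adr k t) = (List.ofFn t).map Lt.bit ++ List.replicate (k - d) Lt.e := by
  apply List.ext_getElem
  · simp
    omega
  · intro p hp1 hp2
    rw [List.getElem_ofFn]
    by_cases hp : p < d
    · rw [List.getElem_append_left (by simpa using hp)]
      simp [adr, hp]
    · rw [List.getElem_append_right (by simpa using hp)]
      simp [adr, hp]

/-- the table -/
def tab {d : ℕ} (z : (Fin d → Bool) → Bool) (l : List Bool) : Bool :=
  z (fun c => l.reverse.getD c.val false)

theorem tab_reverse {d : ℕ} (z : (Fin d → Bool) → Bool) (t : Fin d → Bool) :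
    tab z (List.ofFn t).reverse = z t := by
  unfold tab
  congr 1
  funext c
  simp

/-- the other blocks -/
def rest (n k d : ℕ) (z : (Fin d → Bool) → Bool) : Fin (n + n) → Fin k → Lt :=
  Fin.addCases (fun _ _ => Lt.e) (fun j => blocks n k (polish d (tab z)) j)

theorem lang_update {n k d : ℕ} (hd : d ≤ k) (hk : 2 ^ (d + 1) ≤ n * k) (i : Fin n)
    (z : (Fin d → Bool) → Bool) (t : Fin d → Bool) :
    lang auto (Function.update (rest n k d z) (Fin.castAdd n i) (adr k t)) = z t := by
  obtain ⟨x, hx⟩ : ∃ x, x = Function.update (rest n k d z) (Fin.castAdd n i) (adr k t) := ⟨_, rfl⟩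
  rw [← hx]
  have hi : x (Fin.castAdd n i) = adr k t := by rw [hx, Function.update_self]
  have hj : ∀ j, j ≠ i → x (Fin.castAdd n j) = fun _ => Lt.e := by
    intro j hj
    rw [hx, Function.update_of_ne (fun e => hj (Fin.castAdd_injective _ _ e))]
    unfold rest
    rw [Fin.addCases_left]
  have hr : ∀ j, x (Fin.natAdd n j) = blocks n k (polish d (tab z)) j := by
    intro j
    rw [hx, Function.update_of_ne (by
      intro e
      have := congrArg Fin.val e
      simp at this
      have := i.2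
      omega)]
    unfold rest
    rw [Fin.addCases_right]
  have h1 : ∃ z' s', (List.ofFn t).reverse.map Sy.a ++ [Sy.bot] = z' :: s' := by
    cases h : (List.ofFn t).reverse.map Sy.a with
    | nil => exact ⟨_, _, rfl⟩
    | cons a l => exact ⟨_, _, rfl⟩
  obtain ⟨z', s', h1⟩ := h1
  have h2 : run (List.ofFn (x (Fin.castAdd n i))) (none, [Sy.bot]) = some (none, z' :: s') := by
    rw [hi, ofFn_adr hd, run_app, run_bits, h1]
    simp only [Option.bind_some]
    exact run_neutral _ _ _ _
  have h3 := run_one_block n (fun i => x (Fin.castAdd n i)) i hj z' s' h2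
  have h4 := length_polish d (tab z)
  have h5 : run (word x) (none, [Sy.bot]) = some (some (z t), [Sy.bot]) := by
    rw [word_add, run_app, h3]
    simp only [Option.bind_some]
    rw [show (fun j => x (Fin.natAdd n j)) = blocks n k (polish d (tab z)) from funext hr,
      word_blocks _ _ _ (by omega), run_app, ← h1, run_tree _ _ _ (by simp), tab_reverse]
    simp only [Option.bind_some]
    exact run_done _ _ _ _
  have h6 : auto.run (word x) (auto.start, [auto.bot]) = some (some (z t), [Sy.bot]) := h5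
  unfold lang
  by_cases hz : z t = true
  · rw [hz] at h6 ⊢
    simp only [decide_eq_true_eq]
    exact ⟨some true, rfl, _, h6⟩
  · simp only [Bool.not_eq_true] at hz
    rw [hz] at h6 ⊢
    simp only [decide_eq_false_iff_not]
    rintro ⟨q, hq, s, h7⟩
    have hq' : q = some true := hq
    have h8 := Option.some.inj (h6.symm.trans h7)
    have h9 : (some false : Option Bool) = q := congrArg Prod.fst h8
    rw [hq'] at h9
    exact absurd h9 (by decide)

theorem asks {n k d : ℕ} (hd : d ≤ k) (hk : 2 ^ (d + 1) ≤ n * k) (i : Fin n) :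
    Asks (D := fun _ : Fin (n + n) => Fin k → Lt) (Fin d → Bool) (2 ^ d) 0 (fun _ => True)
      (lang auto) (Fin.castAdd n i) := by
  classical
  refine asks_of (univ.image (adr (d := d) k)) (fun _ => 0) (fun t _ => adr k t) (rest n k d) ?_ ?_ ?_ ?_ ?_
  · refine card_image_le.trans ?_
    simp
  · intro t z
    exact mem_image_of_mem _ (mem_univ _)
  · intro t z z' _
    rfl
  · intro t z
    trivial
  · simp only [lang_update hd hk, ne_eq, not_true_eq_false, filter_false, card_empty]
    simp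

variable {n k w : ℕ}

/-- the depth of the tree -/
theorem depth (hn : 4096 ≤ n) (hk : n * k ≤ 2 ^ k) (hk0 : 1 ≤ k) :
    ∃ d, d ≤ k ∧ 2 ^ (d + 1) ≤ n * k ∧ n * k < 4 * 2 ^ d := by
  have h0 : 4096 ≤ n * k := by nlinarith
  have h1 : Nat.log 2 (n * k) ≠ 0 := by
    rw [Ne, Nat.log_eq_zero_iff]
    omega
  obtain ⟨d, hd⟩ := Nat.exists_eq_succ_of_ne_zero h1
  have h2 := Nat.pow_log_le_self 2 (by omega : n * k ≠ 0)
  have h3 := Nat.lt_pow_succ_log_self (b := 2) (by norm_num) (n * k)
  rw [hd] at h2 h3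
  refine ⟨d, ?_, h2, ?_⟩
  · have h4 : 2 ^ (d + 1) ≤ 2 ^ k := h2.trans hk
    have h5 := (Nat.pow_le_pow_iff_right (by norm_num : 1 < 2)).1 h4
    omega
  · have h4 : n * k < 2 ^ (d + 2) := h3
    rw [pow_add] at h4
    omega

/-- the parameters -/
theorem params (hn : 4096 ≤ n) (hk : n * k ≤ 2 ^ k) (hk2 : 2 ^ k ≤ n ^ 2) (hk0 : 1 ≤ k) :
    (12 : ℝ) ≤ Real.logb 2 n ∧ Real.logb 2 n ≤ k ∧ (k : ℝ) ≤ 2 * Real.logb 2 n ∧ k ≤ n ∧
      Real.logb 2 ((6 ^ k : ℕ) : ℝ) ≤ 13 / 5 * k := by
  have hn0 : (0 : ℝ) < n := by exact_mod_cast (by omega : 0 < n)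
  have h1 : (n : ℝ) ≤ (2 : ℝ) ^ k := by
    have : n ≤ n * k := Nat.le_mul_of_pos_right n hk0
    exact_mod_cast this.trans hk
  have h2 : ((2 : ℝ)) ^ k ≤ (n : ℝ) ^ 2 := by exact_mod_cast hk2
  have hlog : Real.logb 2 ((2 : ℝ) ^ k) = k := by
    rw [Real.logb_pow, Real.logb_self_eq_one (by norm_num), mul_one]
  have h3 := Real.logb_le_logb_of_le (by norm_num : (1 : ℝ) < 2) hn0 h1
  have h4 := Real.logb_le_logb_of_le (by norm_num : (1 : ℝ) < 2) (by positivity) h2
  rw [hlog] at h3 h4
  rw [Real.logb_pow] at h4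
  have h5 : (12 : ℝ) ≤ Real.logb 2 n := by
    have h6 : ((2 : ℝ)) ^ 12 ≤ n := by
      have : 2 ^ 12 ≤ n := by omega
      exact_mod_cast this
    have h7 := Real.logb_le_logb_of_le (by norm_num : (1 : ℝ) < 2) (by positivity) h6
    rw [Real.logb_pow, Real.logb_self_eq_one (by norm_num)] at h7
    norm_num at h7
    exact h7
  refine ⟨h5, h3, by push_cast at h4; linarith, ?_, ?_⟩
  · by_contra h
    have h6 : n * (n + 1) ≤ n ^ 2 :=
      (Nat.mul_le_mul_left n (by omega : n + 1 ≤ k)).trans (hk.trans hk2)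
    nlinarith
  · push_cast
    rw [Real.logb_pow]
    have h6 : Real.logb 2 6 ≤ 13 / 5 := by
      rw [Real.logb_le_iff_le_rpow (by norm_num) (by norm_num)]
      have h7 : (6 : ℝ) = ((6 : ℝ) ^ (5 : ℕ)) ^ ((1 : ℝ) / 5) := by
        rw [← Real.rpow_natCast, ← Real.rpow_mul (by norm_num)]
        norm_num
      have h8 : (2 : ℝ) ^ ((13 : ℝ) / 5) = ((2 : ℝ) ^ (13 : ℕ)) ^ ((1 : ℝ) / 5) := by
        rw [← Real.rpow_natCast, ← Real.rpow_mul (by norm_num)]
        norm_num
      rw [h7, h8]
      exact Real.rpow_le_rpow (by norm_num) (by norm_num) (by norm_num)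
    have hk' : (0 : ℝ) ≤ k := Nat.cast_nonneg k
    nlinarith

theorem sizes (hn : 4096 ≤ n) (hkn : k ≤ n) {d : ℕ} (hd : 2 ^ (d + 1) ≤ n * k) (s : ℕ)
    (hs : s < n ^ 2) : 4 * 2 ^ d * (2 * s + 1) + 2 + s ≤ n ^ 5 := by
  have h1 : 2 ^ d * 2 ≤ n * n := by
    rw [← pow_succ]
    exact hd.trans (Nat.mul_le_mul_left n hkn)
  have h2 : 4 * 2 ^ d * (2 * s + 1) ≤ 2 * (n * n) * (2 * n ^ 2) :=
    Nat.mul_le_mul (by omega) (by omega)
  have h3 : 2 * (n * n) * (2 * n ^ 2) = 4 * n ^ 4 := by ring
  have h5 : n ^ 2 ≤ n ^ 4 := Nat.pow_le_pow_right (by omega) (by norm_num)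
  have h6 : 4096 * n ^ 4 ≤ n ^ 5 := by
    calc 4096 * n ^ 4 ≤ n * n ^ 4 := Nat.mul_le_mul_right _ hn
      _ = n ^ 5 := by ring
  have h7 : 1 ≤ n ^ 4 := Nat.one_le_pow _ _ (by omega)
  omega

theorem card_T {d : ℕ} : (Fintype.card (Fin d → Bool) : ℝ) = 2 ^ d := by
  rw [Fintype.card_fun, Fintype.card_bool, Fintype.card_fin]
  push_cast
  rfl

/-- the first blocks -/
def first (n : ℕ) : Finset (Fin (n + n)) := univ.map (Fin.castAddEmb n)

theorem mem_first {a : Fin (n + n)} (h : a ∈ first n) : ∃ i : Fin n, Fin.castAdd n i = a := by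
  unfold first at h
  rw [mem_map] at h
  obtain ⟨i, _, hi⟩ := h
  exact ⟨i, hi⟩

theorem card_first : (first n).card = n := by
  unfold first
  rw [card_map, card_univ, Fintype.card_fin]

theorem program_bound (hn : 4096 ≤ n) (hk : n * k ≤ 2 ^ k) (hk2 : 2 ^ k ≤ n ^ 2) (hk0 : 1 ≤ k)
    (hw : 1 ≤ w) {Ω : Type} [Fintype Ω] (μ : Ω → ℝ) (hμ : IsProb μ) (s : ℕ)
    (B : Ω → Program (Fin (n + n)) (fun _ => Fin k → Lt) w (6 ^ k) s)
    (hB : ApproximatesOn μ (fun ω => (B ω).eval) (fun _ => True) (lang auto)) :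
    (n : ℝ) ^ 2 ≤ 3700 * w ^ 2 * s := by
  classical
  obtain ⟨hl12, hlk, hk2l, hkn, hq⟩ := params hn hk hk2 hk0
  have hn' : (4096 : ℝ) ≤ n := by exact_mod_cast hn
  have hw' : (1 : ℝ) ≤ w := by exact_mod_cast hw
  have hs0 : (0 : ℝ) ≤ s := Nat.cast_nonneg s
  have hw2 : (1 : ℝ) ≤ w ^ 2 := by nlinarith
  by_cases hs : n ^ 2 ≤ s
  · have h1 : (n : ℝ) ^ 2 ≤ s := by exact_mod_cast hs
    nlinarith
  obtain ⟨d, hd, hd1, hd2⟩ := depth hn hk hk0
  have h := program_lower μ hμ s B (fun _ => True) (lang auto) hB (Nat.one_le_pow _ _ (by norm_num))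
    hw (2 ^ d) (n ^ 5) (sizes hn hkn hd1 s (by omega)) 0 (first n) (T := Fin d → Bool) (by
      intro a ha
      obtain ⟨i, rfl⟩ := mem_first ha
      exact asks hd hd1 i)
  rw [Nat.cast_pow n 5, Real.logb_pow, card_first, card_T] at h
  have hd2' : (n : ℝ) * k / 4 ≤ 2 ^ d := by
    have : (n : ℝ) * k < 4 * 2 ^ d := by exact_mod_cast hd2
    linarith
  obtain ⟨l, hl⟩ : ∃ l : ℝ, l = Real.logb 2 (n : ℝ) := ⟨_, rfl⟩
  obtain ⟨L, hL⟩ : ∃ L : ℝ, L = Real.logb 2 ((6 ^ k : ℕ) : ℝ) := ⟨_, rfl⟩
  obtain ⟨N, hN⟩ : ∃ N : ℝ, N = 2 ^ d := ⟨_, rfl⟩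
  obtain ⟨κ, hκ⟩ : ∃ κ : ℝ, κ = (k : ℝ) := ⟨_, rfl⟩
  rw [← hl, ← hL, ← hN] at h
  rw [← hl, ← hκ] at hlk hk2l
  rw [← hl] at hl12
  rw [← hL, ← hκ] at hq
  rw [← hN, ← hκ] at hd2'
  push_cast at h
  have hκ12 : 12 ≤ κ := hl12.trans hlk
  have h1 : (n : ℝ) * κ / 60 ≤ (49 / 600 - 0) * N - 5 * l := by nlinarith
  have h2 : (n : ℝ) * (n * κ / 60) ≤ n * ((49 / 600 - 0) * N - 5 * l) :=
    mul_le_mul_of_nonneg_left h1 (by linarith)
  have h3 : (w : ℝ) * (3 + 12 * (5 * l) + 2 * (w - 1) * L) ≤ 61 * κ * w ^ 2 := by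
    have h4 : ((w : ℝ) - 1) * L ≤ (w - 1) * (13 / 5 * κ) :=
      mul_le_mul_of_nonneg_left hq (by linarith)
    have h6 : 3 + 12 * (5 * l) + 2 * ((w : ℝ) - 1) * L ≤ 61 * κ * w := by nlinarith
    calc (w : ℝ) * (3 + 12 * (5 * l) + 2 * (w - 1) * L) ≤ w * (61 * κ * w) :=
          mul_le_mul_of_nonneg_left h6 (by linarith)
      _ = _ := by ring
  have h4 := mul_le_mul_of_nonneg_right h3 hs0
  have h5 : κ * (n : ℝ) ^ 2 ≤ κ * (3700 * w ^ 2 * s) := by
    have h6 : (n : ℝ) * (n * κ / 60) = κ * n ^ 2 / 60 := by ring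
    have h7 : 0 ≤ κ * (w ^ 2 * s) := by positivity
    nlinarith
  exact le_of_mul_le_mul_left h5 (by linarith)

theorem net_bound' (hn : 4096 ≤ n) (hk : n * k ≤ 2 ^ k) (hk2 : 2 ^ k ≤ n ^ 2) (hk0 : 1 ≤ k)
    (hw : 1 ≤ w) {Ω : Type} [Fintype Ω] (μ : Ω → ℝ) (hμ : IsProb μ) (s : ℕ)
    (F : Ω → Net (Fin (n + n)) (fun _ => Fin k → Lt) w (6 ^ k)) (hsz : ∀ ω, (F ω).size ≤ s)
    (hF : ApproximatesOn μ (fun ω => (F ω).eval) (fun _ => True) (lang auto) ∨
      ApproximatesOn μ (fun ω x => !(F ω).eval x) (fun _ => True) (lang auto)) :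
    (n : ℝ) ^ 2 ≤ 8000 * w * (Real.sqrt (n / k) + 102 * w) * s := by
  classical
  obtain ⟨hl12, hlk, hk2l, hkn, hq⟩ := params hn hk hk2 hk0
  have hn' : (4096 : ℝ) ≤ n := by exact_mod_cast hn
  have hw' : (1 : ℝ) ≤ w := by exact_mod_cast hw
  have hs0 : (0 : ℝ) ≤ s := Nat.cast_nonneg s
  have hr0 := Real.sqrt_nonneg ((n : ℝ) / k)
  by_cases hs : n ^ 2 ≤ s
  · have h1 : (n : ℝ) ^ 2 ≤ s := by exact_mod_cast hs
    have h2 : (1 : ℝ) ≤ 8000 * w * (Real.sqrt (n / k) + 102 * w) := by nlinarith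
    nlinarith
  obtain ⟨d, hd, hd1, hd2⟩ := depth hn hk hk0
  have hd2' : (n : ℝ) * k / 4 ≤ 2 ^ d := by
    have : (n : ℝ) * k < 4 * 2 ^ d := by exact_mod_cast hd2
    linarith
  have hk1 : (1 : ℝ) ≤ k := by exact_mod_cast hk0
  have h := net_bound_le μ hμ F (fun _ => True) (lang auto) hF s hsz
    (Nat.one_le_pow _ _ (by norm_num)) hw (2 ^ d) (n ^ 5) (sizes hn hkn hd1 s (by omega)) 0
    (by norm_num) (first n) (T := Fin d → Bool) (by
      intro a ha
      obtain ⟨i, rfl⟩ := mem_first ha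
      exact asks hd hd1 i) ((n : ℝ) * k / 4) (by nlinarith) (by rw [card_T]; exact hd2')
  rw [Nat.cast_pow n 5, Real.logb_pow, card_first] at h
  have hsq : Real.sqrt ((n : ℝ) * k / 4) = 1 / 2 * (k * Real.sqrt (n / k)) := by
    rw [show (n : ℝ) * k / 4 = (1 / 2 * k) ^ 2 * (n / k) by field_simp; ring,
      Real.sqrt_mul (by positivity), Real.sqrt_sq (by positivity)]
    ring
  rw [hsq] at h
  obtain ⟨r, hr⟩ : ∃ r : ℝ, r = Real.sqrt ((n : ℝ) / k) := ⟨_, rfl⟩
  rw [← hr] at h hr0 ⊢
  obtain ⟨l, hl⟩ : ∃ l : ℝ, l = Real.logb 2 (n : ℝ) := ⟨_, rfl⟩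
  obtain ⟨L, hL⟩ : ∃ L : ℝ, L = Real.logb 2 ((6 ^ k : ℕ) : ℝ) := ⟨_, rfl⟩
  obtain ⟨κ, hκ⟩ : ∃ κ : ℝ, κ = (k : ℝ) := ⟨_, rfl⟩
  rw [← hl, ← hL, ← hκ] at h
  rw [← hl, ← hκ] at hlk hk2l
  rw [← hl] at hl12
  rw [← hL, ← hκ] at hq
  push_cast at h
  have hκ12 : 12 ≤ κ := hl12.trans hlk
  have h2 : 3 + 10 * (5 * l) + 2 * ((w : ℝ) - 1) * L ≤ 51 * κ * w := by
    have h4 : ((w : ℝ) - 1) * L ≤ (w - 1) * (13 / 5 * κ) :=
      mul_le_mul_of_nonneg_left hq (by linarith)
    nlinarith
  have h3 : 4000 * (w : ℝ) * (1 / 2 * (κ * r) + (3 + 10 * (5 * l) + 2 * ((w : ℝ) - 1) * L)) * s ≤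
      4000 * w * (1 / 2 * (κ * r) + 51 * κ * w) * s := by
    apply mul_le_mul_of_nonneg_right _ hs0
    apply mul_le_mul_of_nonneg_left _ (by linarith)
    linarith
  have h4 := h.trans h3
  have h5 : κ * (n : ℝ) ^ 2 ≤ κ * (8000 * w * (r + 102 * w) * s) := by
    have e1 : (n : ℝ) * (n * κ / 4) = κ * n ^ 2 / 4 := by ring
    have e2 : 4000 * (w : ℝ) * (1 / 2 * (κ * r) + 51 * κ * w) * s =
        κ * (8000 * w * (r + 102 * w) * s) / 4 := by ring
    rw [e1, e2] at h4
    linarith
  exact le_of_mul_le_mul_left h5 (by linarith)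

end Pool.Agent.Y638.RF.DCF
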