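import Mathlib

set_option autoImplicit false

/-! # Solvability of quadratic systems -/

namespace Pool.Agent.Y638.RF.HN

/-- The value at `(1, y 1, …, y k)` of the polynomial of degree at most `2` with the coefficients `A`. A
monomial of degree at most `2` in the unknowns `y 1, …, y k` is an unordered pair of elements of
`{0, …, k}`, where `y 0 = 1`. -/
def ev {K : Type} [Field K] {k : ℕ} (y : Fin (k + 1) → K) (A : Sym2 (Fin (k + 1)) → K) : K :=
  ∑ m, A m * (m.map y).mul

open Classical in
/-- Hilbert's Nullstellensatz for `k` polynomials of degree at most `2` in `k` unknowns, which are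
given by their coefficients: is there a common zero? -/
noncomputable def hn {K : Type} [Field K] {k : ℕ} (A : Fin k × Sym2 (Fin (k + 1)) → K) : Bool :=
  decide (∃ y : Fin (k + 1) → K, y 0 = 1 ∧ ∀ i, ev y (fun m => A (i, m)) = 0)

end Pool.Agent.Y638.RF.HN
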