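import Mathlib

set_option autoImplicit false

/-! # Knapsack over a field -/

namespace Pool.Agent.Y638.RF.Knap

open Classical in
/-- Knapsack: does some subset of the `n` numbers have the sum `1`? -/
noncomputable def knap {K : Type} [Field K] {n : ℕ} (x : Fin n → K) : Bool :=
  decide (∃ S : Finset (Fin n), ∑ j ∈ S, x j = 1)

end Pool.Agent.Y638.RF.Knap
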