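import Pool.Agent.Y638.RF.NetGen
import Pool.Agent.Y638.RF.Prog
import Pool.Agent.Y638.RF.KnapDefs

set_option autoImplicit false

/-! # Knapsack and real formulas -/

namespace Pool.Agent.Y638.RF.Knap

open Finset Pool.Agent.TH697.Form Pool.Agent.TH697.Row
open Pool.Agent.Y638.RF

variable {K : Type} [Field K] [CharZero K] {n m w q : ℕ}

/-! ### Digits -/

/-- the number with the digits `u` -/
def num {L : ℕ} (B : ℕ) (u : Fin L → ℕ) : ℕ := ∑ p, u p * B ^ (p : ℕ)

theorem num_inj {L B : ℕ} {u v : Fin L → ℕ} (hu : ∀ p, u p < B) (hv : ∀ p, v p < B)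
    (h : num B u = num B v) : u = v := by
  have h1 : finFunctionFinEquiv (fun p => (⟨u p, hu p⟩ : Fin B)) =
      finFunctionFinEquiv (fun p => (⟨v p, hv p⟩ : Fin B)) := by
    apply Fin.ext
    rw [finFunctionFinEquiv_apply, finFunctionFinEquiv_apply]
    exact h
  have h2 := finFunctionFinEquiv.injective h1
  funext p
  exact congrArg Fin.val (congrFun h2 p)

theorem num_sum {L B : ℕ} {ι : Type} (S : Finset ι) (u : ι → Fin L → ℕ) :
    ∑ j ∈ S, num B (u j) = num B (fun p => ∑ j ∈ S, u j p) := by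
  unfold num
  rw [sum_comm]
  refine sum_congr rfl fun p _ => ?_
  rw [sum_mul]

theorem num_one_pos {L B : ℕ} (hB : 0 < B) (hL : 0 < L) : 0 < num B (fun _ : Fin L => 1) := by
  unfold num
  exact sum_pos (fun p _ => by positivity) ⟨⟨0, hL⟩, mem_univ _⟩

/-- Knapsack for numbers which are given by their digits. -/
theorem knap_iff {L B : ℕ} (hL : 0 < L) (u : Fin n → Fin L → ℕ) (hu : ∀ j p, u j p ≤ 1)
    (hB : n + 1 < B) :
    knap (fun j => (num B (u j) : K) / (num B (fun _ : Fin L => 1) : ℕ)) = true ↔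
      ∃ S : Finset (Fin n), ∀ p, ∑ j ∈ S, u j p = 1 := by
  have hW : ((num B (fun _ : Fin L => 1) : ℕ) : K) ≠ 0 := by
    have := num_one_pos (B := B) (by omega) hL
    exact_mod_cast this.ne'
  classical
  unfold knap
  rw [decide_eq_true_iff]
  refine exists_congr fun S => ?_
  rw [← sum_div, div_eq_one_iff_eq hW, ← Nat.cast_sum, Nat.cast_inj, num_sum]
  constructor
  · intro h
    have h1 := num_inj (B := B) (fun p => ?_) (fun p => ?_) h
    · exact fun p => congrFun h1 p
    · refine lt_of_le_of_lt (sum_le_card_nsmul S _ 1 fun j _ => hu j p) ?_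
      have := card_le_univ S
      rw [Fintype.card_fin] at this
      simp only [smul_eq_mul, mul_one]
      omega
    · omega
  · intro h
    congr 1
    funext p
    exact h p

/-! ### The instances -/

/-- the positions -/
abbrev Pos (m : ℕ) : Type := Unit ⊕ (Fin m ⊕ (Fin m ⊕ Fin m))

/-- the numbers which store the table: rows, and two helpers for every column -/
abbrev Str (m : ℕ) : Type := Fin m ⊕ (Fin m ⊕ Fin m)

/-- the query -/
def qvec (t : Fin m × Fin m) : Pos m → ℕ
  | .inl _ => 1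
  | .inr (.inl i) => if i = t.1 then 0 else 1
  | .inr (.inr (.inl _)) => 0
  | .inr (.inr (.inr j)) => if j = t.2 then 1 else 0

/-- the table -/
def wvec (z : Fin m × Fin m → Bool) : Str m → Pos m → ℕ
  | .inl i => fun p => match p with
    | .inl _ => 0
    | .inr (.inl i') => if i' = i then 1 else 0
    | .inr (.inr (.inl j)) => if z (i, j) then 1 else 0
    | .inr (.inr (.inr _)) => 0
  | .inr (.inl j) => fun p => match p with
    | .inl _ => 0
    | .inr (.inl _) => 0
    | .inr (.inr (.inl j')) => if j' = j then 1 else 0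
    | .inr (.inr (.inr j')) => if j' = j then 1 else 0
  | .inr (.inr j) => fun p => match p with
    | .inl _ => 0
    | .inr (.inl _) => 0
    | .inr (.inr (.inl _)) => 0
    | .inr (.inr (.inr j')) => if j' = j then 1 else 0

/-- the digits of all numbers: the number `a` contains the query -/
noncomputable def vec (g : Str m ↪ Fin n) (a : Fin n) (z : Fin m × Fin m → Bool)
    (t : Fin m × Fin m) : Fin n → Pos m → ℕ :=
  Function.update (Function.extend g (wvec z) (fun _ _ => 0)) a (qvec t)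

theorem vec_le (g : Str m ↪ Fin n) (a : Fin n) (z : Fin m × Fin m → Bool) (t : Fin m × Fin m)
    (j : Fin n) (p : Pos m) : vec g a z t j p ≤ 1 := by
  unfold vec
  by_cases hj : j = a
  · subst hj
    rw [Function.update_self]
    rcases p with _ | i | j | j
    · simp [qvec]
    · simp only [qvec]
      split_ifs <;> omega
    · simp [qvec]
    · simp only [qvec]
      split_ifs <;> omega
  · rw [Function.update_of_ne hj]
    by_cases h : ∃ v, g v = j
    · obtain ⟨v, rfl⟩ := h
      rw [g.injective.extend_apply]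
      rcases v with i | j | j <;> rcases p with _ | i' | j' | j' <;> simp only [wvec] <;>
        first | omega | (split_ifs <;> omega)
    · rw [Function.extend_apply' _ _ _ h]
      omega

/-- the sums of digits -/
theorem sum_vec (g : Str m ↪ Fin n) (a : Fin n) (ha : ∀ v, g v ≠ a) (z : Fin m × Fin m → Bool)
    (t : Fin m × Fin m) (S : Finset (Fin n)) (p : Pos m) :
    ∑ j ∈ S, vec g a z t j p = (if a ∈ S then qvec t p else 0) +
      ∑ v : Str m, if g v ∈ S then wvec z v p else 0 := by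
  classical
  have h1 : ∑ j ∈ S, vec g a z t j p = ∑ j, if j ∈ S then vec g a z t j p else 0 := by
    rw [← sum_filter]
    congr 1
    ext j
    simp
  have h2 : ∀ j, j ≠ a → (∀ v, g v ≠ j) → (if j ∈ S then vec g a z t j p else 0) = 0 := by
    intro j hj hv
    unfold vec
    rw [Function.update_of_ne hj, Function.extend_apply' _ _ _ (by rintro ⟨v, h⟩; exact hv v h)]
    simp
  rw [h1]
  have h3 : ∑ j, (if j ∈ S then vec g a z t j p else 0) =
      ∑ j ∈ insert a (univ.map g), if j ∈ S then vec g a z t j p else 0 := by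
    symm
    apply sum_subset (subset_univ _)
    intro j _ hj
    apply h2
    · rintro rfl
      exact hj (mem_insert_self _ _)
    · intro v hv
      exact hj (mem_insert_of_mem (mem_map.2 ⟨v, mem_univ _, hv⟩))
  rw [h3, sum_insert (by
    rw [mem_map]
    rintro ⟨v, _, hv⟩
    exact ha v hv), sum_map]
  congr 1
  · unfold vec
    rw [Function.update_self]
  · refine sum_congr rfl fun v _ => ?_
    unfold vec
    rw [Function.update_of_ne (ha v), g.injective.extend_apply]

theorem sum_pick (A : Fin m → Prop) [DecidablePred A] (y : Fin m) :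
    (∑ x, if A x then (if y = x then 1 else 0) else 0) = if A y then 1 else 0 := by
  rw [sum_eq_single y]
  · simp
  · intro x _ hx
    simp [hx.symm]
  · simp

/-- the sums of digits at the four kinds of positions -/
theorem digits (g : Str m ↪ Fin n) (a : Fin n) (ha : ∀ v, g v ≠ a) (z : Fin m × Fin m → Bool)
    (t : Fin m × Fin m) (S : Finset (Fin n)) (haS : a ∈ S) :
    (∑ j ∈ S, vec g a z t j (.inl ()) = 1) ∧
    (∀ i, ∑ j ∈ S, vec g a z t j (.inr (.inl i)) =
      (if i = t.1 then 0 else 1) + if g (.inl i) ∈ S then 1 else 0) ∧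
    (∀ i, ∑ j ∈ S, vec g a z t j (.inr (.inr (.inl i))) =
      (∑ x, if g (.inl x) ∈ S then (if z (x, i) then 1 else 0) else 0) +
        if g (.inr (.inl i)) ∈ S then 1 else 0) ∧
    (∀ i, ∑ j ∈ S, vec g a z t j (.inr (.inr (.inr i))) =
      (if i = t.2 then 1 else 0) + ((if g (.inr (.inl i)) ∈ S then 1 else 0) +
        if g (.inr (.inr i)) ∈ S then 1 else 0)) := by
  classical
  refine ⟨?_, ?_, ?_, ?_⟩
  · rw [sum_vec g a ha, if_pos haS]
    simp [Fintype.sum_sum_type, qvec, wvec]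
  · intro i
    rw [sum_vec g a ha, if_pos haS]
    simp only [Fintype.sum_sum_type, qvec, wvec]
    rw [sum_pick (fun x => g (.inl x) ∈ S)]
    simp
  · intro i
    rw [sum_vec g a ha, if_pos haS]
    simp only [Fintype.sum_sum_type, qvec, wvec]
    rw [sum_pick (fun x => g (.inr (.inl x)) ∈ S)]
    simp
  · intro i
    rw [sum_vec g a ha, if_pos haS]
    simp only [Fintype.sum_sum_type, qvec, wvec]
    rw [sum_pick (fun x => g (.inr (.inl x)) ∈ S), sum_pick (fun x => g (.inr (.inr x)) ∈ S)]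
    simp

theorem exists_iff (g : Str m ↪ Fin n) (a : Fin n) (ha : ∀ v, g v ≠ a) (z : Fin m × Fin m → Bool)
    (t : Fin m × Fin m) :
    (∃ S : Finset (Fin n), ∀ p, ∑ j ∈ S, vec g a z t j p = 1) ↔ z t = true := by
  classical
  constructor
  · rintro ⟨S, hS⟩
    have haS : a ∈ S := by
      have h := hS (.inl ())
      rw [sum_vec g a ha] at h
      by_contra h'
      simp [h', wvec, Fintype.sum_sum_type] at h
    obtain ⟨_, h2, h3, h4⟩ := digits g a ha z t S haS
    have hrow : ∀ i, g (.inl i) ∈ S ↔ i = t.1 := by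
      intro i
      have h := (h2 i).symm.trans (hS _)
      by_cases hi : i = t.1
      · rw [if_pos hi] at h
        refine ⟨fun _ => hi, fun _ => ?_⟩
        by_contra h'
        rw [if_neg h'] at h
        omega
      · rw [if_neg hi] at h
        refine ⟨fun h' => ?_, fun h' => absurd h' hi⟩
        rw [if_pos h'] at h
        omega
    have h5 := (h4 t.2).symm.trans (hS _)
    have h6 := (h3 t.2).symm.trans (hS _)
    rw [if_pos rfl] at h5
    have h7 : g (.inr (.inl t.2)) ∉ S := by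
      intro h'
      rw [if_pos h'] at h5
      omega
    rw [if_neg h7, sum_eq_single t.1, if_pos ((hrow _).2 rfl)] at h6
    · by_contra hz
      have : z (t.1, t.2) = false := by simpa using hz
      rw [this] at h6
      simp at h6
    · intro x _ hx
      rw [if_neg (fun h => hx ((hrow x).1 h))]
    · intro h
      exact absurd (mem_univ _) h
  · intro hz
    obtain ⟨good, hgood⟩ : ∃ good : Str m → Prop, good = fun v => match v with
      | .inl i => i = t.1
      | .inr (.inl j) => j ≠ t.2 ∧ z (t.1, j) = false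
      | .inr (.inr j) => j ≠ t.2 ∧ z (t.1, j) = true := ⟨_, rfl⟩
    obtain ⟨S, hS⟩ : ∃ S : Finset (Fin n), S = insert a ((univ.filter good).map g) := ⟨_, rfl⟩
    have haS : a ∈ S := by rw [hS]; exact mem_insert_self _ _
    have hmem : ∀ v, g v ∈ S ↔ good v := by
      intro v
      rw [hS, mem_insert, mem_map]
      constructor
      · rintro (h | ⟨v', h1, h2⟩)
        · exact absurd h (ha v)
        · rw [g.injective h2] at h1
          exact (mem_filter.1 h1).2
      · intro h
        exact Or.inr ⟨v, mem_filter.2 ⟨mem_univ _, h⟩, rfl⟩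
    obtain ⟨h1, h2, h3, h4⟩ := digits g a ha z t S haS
    refine ⟨S, ?_⟩
    rintro (u | i | i | i)
    · exact h1
    · rw [h2 i]
      simp only [hmem, hgood]
      by_cases hi : i = t.1
      · simp [hi]
      · simp [hi]
    · rw [h3 i]
      simp only [hmem, hgood]
      rw [sum_ite_eq' univ t.1]
      by_cases hi : i = t.2
      · subst hi
        have : z (t.1, t.2) = true := hz
        simp [this]
      · by_cases hz' : z (t.1, i) = true
        · simp [hz']
        · simp [hz', hi]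
    · rw [h4 i]
      simp only [hmem, hgood]
      by_cases hi : i = t.2
      · simp [hi]
      · by_cases hz' : z (t.1, i) = true
        · simp [hz', hi]
        · simp [hz', hi]

theorem exists_emb (h : 3 * m + 1 ≤ n) (a : Fin n) : ∃ g : Str m ↪ Fin n, ∀ v, g v ≠ a := by
  have h1 : Fintype.card (Str m) ≤ Fintype.card {j : Fin n // j ≠ a} := by
    rw [Fintype.card_subtype_compl, Fintype.card_subtype_eq]
    simp only [Fintype.card_sum, Fintype.card_fin]
    omega
  obtain ⟨g⟩ := Function.Embedding.nonempty_of_card_le h1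
  exact ⟨g.trans (Function.Embedding.subtype _), fun v => (g v).2⟩

/-- the number with given digits -/
noncomputable def cod (K : Type) [Field K] (n : ℕ) (v : Pos m → ℕ) : K :=
  (num (n + 2) (fun p : Fin (Fintype.card (Pos m)) => v ((Fintype.equivFin (Pos m)).symm p)) : K) /
    (num (n + 2) (fun _ : Fin (Fintype.card (Pos m)) => 1) : ℕ)

theorem knap_update (g : Str m ↪ Fin n) (a : Fin n) (ha : ∀ v, g v ≠ a)
    (z : Fin m × Fin m → Bool) (t : Fin m × Fin m) :
    knap (Function.update (fun j => cod K n (Function.extend g (wvec z) (fun _ _ => 0) j)) a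
      (cod K n (qvec t))) = z t := by
  classical
  have e1 : Function.update (fun j => cod K n (Function.extend g (wvec z) (fun _ _ => 0) j)) a
      (cod K n (qvec t)) = fun j => cod K n (vec g a z t j) := by
    funext j
    unfold vec
    by_cases hj : j = a
    · subst hj
      rw [Function.update_self, Function.update_self]
    · rw [Function.update_of_ne hj, Function.update_of_ne hj]
  have h1 := knap_iff (K := K) (n := n) (L := Fintype.card (Pos m)) (B := n + 2)
    (by simp only [Fintype.card_sum, Fintype.card_unit]; omega)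
    (fun j p => vec g a z t j ((Fintype.equivFin (Pos m)).symm p)) (fun j p => vec_le g a z t j _)
    (by omega)
  have h2 : (∃ S : Finset (Fin n), ∀ p : Fin (Fintype.card (Pos m)),
      ∑ j ∈ S, vec g a z t j ((Fintype.equivFin (Pos m)).symm p) = 1) ↔ z t = true := by
    rw [← exists_iff g a ha z t]
    refine exists_congr fun S => ⟨fun h p => ?_, fun h p => h _⟩
    have := h (Fintype.equivFin (Pos m) p)
    simpa using this
  rw [e1]
  rw [Bool.eq_iff_iff]
  exact h1.trans h2

theorem asks (h : 3 * m + 1 ≤ n) (a : Fin n) :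
    Asks (D := fun _ : Fin n => K) (Fin m × Fin m) (m * m) 0 (fun _ => True) knap a := by
  classical
  obtain ⟨g, ha⟩ := exists_emb h a
  refine asks_of (univ.image (fun t : Fin m × Fin m => cod K n (qvec t))) (fun _ => 0)
    (fun t _ => cod K n (qvec t))
    (fun z j => cod K n (Function.extend g (wvec z) (fun _ _ => 0) j)) ?_ ?_ ?_ ?_ ?_
  · refine card_image_le.trans ?_
    simp
  · intro t z
    exact mem_image_of_mem _ (mem_univ _)
  · intro t z z' _
    rfl
  · intro t z
    trivial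
  · simp only [knap_update g a ha, ne_eq, not_true_eq_false, filter_false, card_empty]
    simp

/-! ### The bounds -/

theorem card_T : (Fintype.card (Fin m × Fin m) : ℝ) = m * m := by
  rw [Fintype.card_prod, Fintype.card_fin]
  push_cast
  rfl

theorem logb_facts (hn : 4096 ≤ n) : 12 ≤ Real.logb 2 (n : ℝ) ∧ Real.logb 2 (n : ℝ) ≤ n / 300 := by
  obtain ⟨k, hk⟩ : ∃ k, k = Nat.log 2 n := ⟨_, rfl⟩
  have hk9 : 12 ≤ k := by
    rw [hk]
    have := Nat.log_mono_right (b := 2) hn
    rwa [show Nat.log 2 4096 = 12 by decide +kernel] at this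
  have h5 := Nat.lt_pow_succ_log_self (b := 2) (by norm_num) n
  have h6 : (n : ℝ) ≤ (2 : ℝ) ^ (k + 1) := by rw [hk]; exact_mod_cast h5.le
  have hn0 : (0 : ℝ) < n := by exact_mod_cast (by omega : 0 < n)
  have h7 := Real.logb_le_logb_of_le (by norm_num : (1 : ℝ) < 2) hn0 h6
  rw [Real.logb_pow, Real.logb_self_eq_one (by norm_num), mul_one] at h7
  push_cast at h7
  have h8 : 300 * (k + 1) ≤ 2 ^ k := by
    clear h7 hk h6
    induction k, hk9 using Nat.le_induction with
    | base => norm_num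
    | succ k hk ih =>
      rw [pow_succ]
      omega
  have h10 : 2 ^ k ≤ n := by
    rw [hk]
    exact Nat.pow_log_le_self 2 (by omega)
  constructor
  · have h11 : ((2 : ℝ)) ^ 12 ≤ n := by
      have : 2 ^ 12 ≤ n := by omega
      exact_mod_cast this
    have h12 := Real.logb_le_logb_of_le (by norm_num : (1 : ℝ) < 2) (by positivity) h11
    rw [Real.logb_pow, Real.logb_self_eq_one (by norm_num)] at h12
    norm_num at h12
    exact h12
  · have h14 : 300 * ((k : ℝ) + 1) ≤ n := by exact_mod_cast h8.trans h10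
    linarith

theorem sizes (hn : 4096 ≤ n) (hm : 3 * m + 1 ≤ n) (s : ℕ) (hs : s < n ^ 3) :
    4 * (m * m) * (2 * s + 1) + 2 + s ≤ n ^ 5 := by
  have h1 : 9 * (m * m) ≤ n * n := by nlinarith
  have h2 : 2 * s + 1 ≤ 2 * n ^ 3 := by omega
  have h3 : 9 * (4 * (m * m) * (2 * s + 1)) ≤ 8 * n ^ 5 := by
    calc 9 * (4 * (m * m) * (2 * s + 1)) = 4 * (9 * (m * m)) * (2 * s + 1) := by ring
      _ ≤ 4 * (n * n) * (2 * n ^ 3) := Nat.mul_le_mul (Nat.mul_le_mul_left _ h1) h2
      _ = 8 * n ^ 5 := by ring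
  have h5 : n ^ 3 * 10 ≤ n ^ 5 := by
    calc n ^ 3 * 10 ≤ n ^ 3 * (n * n) := Nat.mul_le_mul_left _ (by nlinarith)
      _ = n ^ 5 := by ring
  have h6 : 1000 ≤ n ^ 3 := by
    calc 1000 ≤ n := by omega
      _ = n ^ 1 := (pow_one n).symm
      _ ≤ n ^ 3 := Nat.pow_le_pow_right (by omega) (by norm_num)
  omega

theorem exists_m (hn : 4096 ≤ n) : ∃ m : ℕ, 3 * m + 1 ≤ n ∧ (n : ℝ) / 3 - 1 ≤ m := by
  refine ⟨(n - 1) / 3, by omega, ?_⟩
  have h : n ≤ 3 * ((n - 1) / 3) + 3 := by omega
  have h' : (n : ℝ) ≤ 3 * (((n - 1) / 3 : ℕ) : ℝ) + 3 := by exact_mod_cast h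
  linarith

theorem program_bound (hn : 4096 ≤ n) (hw : 1 ≤ w) (hq : 1 ≤ q) {Ω : Type} [Fintype Ω] (μ : Ω → ℝ)
    (hμ : IsProb μ) (s : ℕ) (B : Ω → Program (Fin n) (fun _ => K) w q s)
    (hB : ApproximatesOn μ (fun ω => (B ω).eval) (fun _ => True) knap) :
    (n : ℝ) ^ 3 ≤ 7400 * w * (Real.logb 2 n + (w - 1) * Real.logb 2 q) * s := by
  classical
  obtain ⟨hl, hl2⟩ := logb_facts hn
  have hn' : (4096 : ℝ) ≤ n := by exact_mod_cast hn
  have hw' : (1 : ℝ) ≤ w := by exact_mod_cast hw
  have hs0 : (0 : ℝ) ≤ s := Nat.cast_nonneg s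
  have hlq : 0 ≤ Real.logb 2 (q : ℝ) := Real.logb_nonneg (by norm_num) (by exact_mod_cast hq)
  have hwq : 0 ≤ ((w : ℝ) - 1) * Real.logb 2 q := mul_nonneg (by linarith) hlq
  by_cases hs : n ^ 3 ≤ s
  · have h1 : (n : ℝ) ^ 3 ≤ s := by exact_mod_cast hs
    have h2 : (1 : ℝ) ≤ 7400 * w * (Real.logb 2 n + (w - 1) * Real.logb 2 q) := by nlinarith
    nlinarith
  obtain ⟨m, hm, hm2⟩ := exists_m hn
  have h := program_lower μ hμ s B (fun _ => True) knap hB hq hw (m * m) (n ^ 5)
    (sizes hn hm s (by omega)) 0 univ (T := Fin m × Fin m) (fun a _ => asks hm a)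
  rw [Nat.cast_pow n 5, Real.logb_pow, card_univ, Fintype.card_fin, card_T] at h
  obtain ⟨l, hl'⟩ : ∃ l : ℝ, l = Real.logb 2 (n : ℝ) := ⟨_, rfl⟩
  obtain ⟨L, hL⟩ : ∃ L : ℝ, L = (w - 1) * Real.logb 2 (q : ℝ) := ⟨_, rfl⟩
  obtain ⟨N, hN⟩ : ∃ N : ℝ, N = (n : ℝ) := ⟨_, rfl⟩
  rw [← hl', ← hN] at hl2
  rw [← hl'] at hl
  rw [← hl', ← hN, mul_assoc 2, ← hL] at h
  rw [← hL] at hwq
  rw [← hl', ← hN, ← hL]
  rw [← hN] at hn' hm2
  push_cast at h
  have h0 : (N / 3 - 1) ^ 2 ≤ (m : ℝ) * m := by nlinarith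
  have h1 : N ^ 2 / 120 ≤ (49 / 600 - 0) * ((m : ℝ) * m) - 5 * l := by nlinarith
  have h2 : N * (N ^ 2 / 120) ≤ N * ((49 / 600 - 0) * ((m : ℝ) * m) - 5 * l) :=
    mul_le_mul_of_nonneg_left h1 (by linarith)
  have h3 : (w : ℝ) * (3 + 12 * (5 * l) + 2 * L) ≤ w * (61 * (l + L)) :=
    mul_le_mul_of_nonneg_left (by linarith) (by linarith)
  have h4 := mul_le_mul_of_nonneg_right h3 hs0
  have h5 : 0 ≤ (w : ℝ) * (l + L) * s := by positivity
  nlinarith

theorem net_bound' (hn : 4096 ≤ n) (hw : 1 ≤ w) (hq : 1 ≤ q) {Ω : Type} [Fintype Ω] (μ : Ω → ℝ)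
    (hμ : IsProb μ) (s : ℕ) (F : Ω → Net (Fin n) (fun _ => K) w q) (hsz : ∀ ω, (F ω).size ≤ s)
    (hF : ApproximatesOn μ (fun ω => (F ω).eval) (fun _ => True) knap ∨
      ApproximatesOn μ (fun ω x => !(F ω).eval x) (fun _ => True) knap) :
    (n : ℝ) ^ 3 ≤ 20000 * w * (n + 4 * ((w - 1) * Real.logb 2 q)) * s := by
  classical
  obtain ⟨hl, hl2⟩ := logb_facts hn
  have hn' : (4096 : ℝ) ≤ n := by exact_mod_cast hn
  have hw' : (1 : ℝ) ≤ w := by exact_mod_cast hw
  have hs0 : (0 : ℝ) ≤ s := Nat.cast_nonneg s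
  have hlq : 0 ≤ Real.logb 2 (q : ℝ) := Real.logb_nonneg (by norm_num) (by exact_mod_cast hq)
  have hwq : 0 ≤ ((w : ℝ) - 1) * Real.logb 2 q := mul_nonneg (by linarith) hlq
  by_cases hs : n ^ 3 ≤ s
  · have h1 : (n : ℝ) ^ 3 ≤ s := by exact_mod_cast hs
    have h2 : (1 : ℝ) ≤ 20000 * w * (n + 4 * ((w - 1) * Real.logb 2 q)) := by nlinarith
    nlinarith
  obtain ⟨m, hm, hm2⟩ := exists_m hn
  have h0 : ((n : ℝ) / 3 - 1) ^ 2 ≤ (m : ℝ) * m := by nlinarith
  have h := net_bound_le μ hμ F (fun _ => True) knap hF s hsz hq hw (m * m) (n ^ 5)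
    (sizes hn hm s (by omega)) 0 (by norm_num) univ (T := Fin m × Fin m) (fun a _ => asks hm a)
    (((n : ℝ) / 3 - 1) ^ 2) (by nlinarith) (by rw [card_T]; exact h0)
  rw [Nat.cast_pow n 5, Real.logb_pow, card_univ, Fintype.card_fin,
    Real.sqrt_sq (by linarith)] at h
  obtain ⟨l, hl'⟩ : ∃ l : ℝ, l = Real.logb 2 (n : ℝ) := ⟨_, rfl⟩
  obtain ⟨L, hL⟩ : ∃ L : ℝ, L = (w - 1) * Real.logb 2 (q : ℝ) := ⟨_, rfl⟩
  obtain ⟨N, hN⟩ : ∃ N : ℝ, N = (n : ℝ) := ⟨_, rfl⟩
  rw [← hl', ← hN] at hl2
  rw [← hl'] at hl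
  rw [← hl', ← hN, mul_assoc 2, ← hL] at h
  rw [← hL] at hwq
  rw [← hN, ← hL]
  rw [← hN] at hn' hm2
  push_cast at h
  have h1 : N ^ 2 / (903 / 100) ≤ (N / 3 - 1) ^ 2 := by nlinarith
  have h2 : N * (N ^ 2 / (903 / 100)) ≤ N * (N / 3 - 1) ^ 2 :=
    mul_le_mul_of_nonneg_left h1 (by linarith)
  have h3 : 4000 * (w : ℝ) * (N / 3 - 1 + (3 + 10 * (5 * l) + 2 * L)) ≤
      4000 * w * (51 / 100 * N + 2 * L) :=
    mul_le_mul_of_nonneg_left (by linarith) (by linarith)
  have h4 := mul_le_mul_of_nonneg_right h3 hs0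
  have h5 : 0 ≤ (w : ℝ) * N * s := by positivity
  have h6 : 0 ≤ (w : ℝ) * L * s := by positivity
  nlinarith

end Pool.Agent.Y638.RF.Knap
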