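import Pool.Agent.Y638.RF.NetGen
import Pool.Agent.Y638.RF.Prog
import Pool.Agent.Y638.RF.Knap
import Pool.Agent.Y638.RF.HNDefs

set_option autoImplicit false

/-! # Quadratic systems and real formulas -/

namespace Pool.Agent.Y638.RF.HN

open Finset Pool.Agent.TH697.Form Pool.Agent.TH697.Row
open Pool.Agent.Y638.RF
open Pool.Agent.Y638.RF.Knap (num num_inj)

variable {K : Type} [Field K] {k q : ℕ}

/-! ### Evaluation -/

theorem ev_add (y : Fin (k + 1) → K) (A B : Sym2 (Fin (k + 1)) → K) :
    ev y (A + B) = ev y A + ev y B := by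
  unfold ev
  rw [← sum_add_distrib]
  refine sum_congr rfl fun m _ => ?_
  rw [Pi.add_apply, add_mul]

theorem ev_sub (y : Fin (k + 1) → K) (A B : Sym2 (Fin (k + 1)) → K) :
    ev y (A - B) = ev y A - ev y B := by
  unfold ev
  rw [← sum_sub_distrib]
  refine sum_congr rfl fun m _ => ?_
  rw [Pi.sub_apply, sub_mul]

theorem ev_smul (y : Fin (k + 1) → K) (c : K) (A : Sym2 (Fin (k + 1)) → K) :
    ev y (c • A) = c * ev y A := by
  unfold ev
  rw [mul_sum]
  refine sum_congr rfl fun m _ => ?_
  rw [Pi.smul_apply, smul_eq_mul, mul_assoc]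

theorem ev_zero (y : Fin (k + 1) → K) : ev y (0 : Sym2 (Fin (k + 1)) → K) = 0 := by
  unfold ev
  simp

theorem ev_sum {ι : Type} (s : Finset ι) (y : Fin (k + 1) → K)
    (A : ι → Sym2 (Fin (k + 1)) → K) : ev y (∑ i ∈ s, A i) = ∑ i ∈ s, ev y (A i) := by
  classical
  induction s using Finset.induction_on with
  | empty => simp [ev_zero]
  | insert a s ha ih => rw [sum_insert ha, sum_insert ha, ev_add, ih]

/-- a monomial -/
def mon (K : Type) [Field K] {k : ℕ} (a b : Fin (k + 1)) : Sym2 (Fin (k + 1)) → K :=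
  Pi.single s(a, b) 1

theorem ev_mon (y : Fin (k + 1) → K) (a b : Fin (k + 1)) : ev y (mon K a b) = y a * y b := by
  unfold ev mon
  rw [sum_eq_single s(a, b)]
  · simp [Sym2.mul_mk]
  · intro m _ hm
    rw [Pi.single_eq_of_ne hm, zero_mul]
  · simp

theorem mon_apply_of_ne {a b c d : Fin (k + 1)} (h : s(c, d) ≠ s(a, b)) :
    mon K a b s(c, d) = 0 := by
  unfold mon
  rw [Pi.single_eq_of_ne h]

/-! ### The system -/

/-- kinds of unknowns: selectors of four types, bits, slack -/
inductive VK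
  | w | u | v | t | r | s
  deriving DecidableEq, Fintype

/-- kinds of equations with an index: for the selectors and bits, the table, the slack -/
inductive EK
  | w | u | v | t | r | tab | sla
  deriving DecidableEq, Fintype

/-- single equations -/
inductive EO
  | w | u | v | t | fa | fb | bit
  deriving DecidableEq, Fintype

/-- the table entry -/
def entry (z : Fin q × Fin q × Fin q × Fin q → Bool) (i x y : Fin q) : ℕ :=
  num 2 (fun j : Fin q => if z (i, x, y, j) then 1 else 0)

/-- the equations -/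
def eqn (K : Type) [Field K] (g : VK × Fin q → Fin (k + 1)) (a b : Fin (k + 1))
    (z : Fin q × Fin q × Fin q × Fin q → Bool) :
    (EK × Fin q) ⊕ EO → Sym2 (Fin (k + 1)) → K
  | .inl (.w, i) => mon K (g (.w, i)) (g (.w, i)) - mon K 0 (g (.w, i))
  | .inl (.u, i) => mon K (g (.u, i)) (g (.u, i)) - mon K 0 (g (.u, i))
  | .inl (.v, i) => mon K (g (.v, i)) (g (.v, i)) - mon K 0 (g (.v, i))
  | .inl (.t, i) => mon K (g (.t, i)) (g (.t, i)) - mon K 0 (g (.t, i))
  | .inl (.r, i) => mon K (g (.r, i)) (g (.r, i)) - mon K 0 (g (.r, i))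
  | .inl (.tab, i) => (∑ x : Fin q, ∑ y : Fin q, (entry z i x y : K) • mon K (g (.u, x)) (g (.v, y))) -
      (∑ j : Fin q, (2 ^ (j : ℕ) : K) • mon K 0 (g (.r, j))) - mon K 0 (g (.s, i))
  | .inl (.sla, i) => mon K (g (.s, i)) (g (.w, i))
  | .inr .w => (∑ i : Fin q, mon K 0 (g (.w, i))) - mon K 0 0
  | .inr .u => (∑ i : Fin q, mon K 0 (g (.u, i))) - mon K 0 0
  | .inr .v => (∑ i : Fin q, mon K 0 (g (.v, i))) - mon K 0 0
  | .inr .t => (∑ i : Fin q, mon K 0 (g (.t, i))) - mon K 0 0
  | .inr .fa => mon K 0 a - mon K 0 0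
  | .inr .fb => mon K 0 b - mon K 0 0
  | .inr .bit => (∑ j : Fin q, mon K (g (.t, j)) (g (.r, j))) - mon K 0 0

/-- the linear part of the equation with the query -/
def base (K : Type) [Field K] (g : VK × Fin q → Fin (k + 1)) : Sym2 (Fin (k + 1)) → K :=
  ∑ i : Fin q, ((((i : ℕ) * q ^ 3 : ℕ) : K) • mon K 0 (g (.w, i)) +
    (((i : ℕ) * q ^ 2 : ℕ) : K) • mon K 0 (g (.u, i)) +
    (((i : ℕ) * q : ℕ) : K) • mon K 0 (g (.v, i)) + ((i : ℕ) : K) • mon K 0 (g (.t, i)))

/-- the query -/
def code (t : Fin q × Fin q × Fin q × Fin q) : ℕ :=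
  (t.1 : ℕ) * q ^ 3 + (t.2.1 : ℕ) * q ^ 2 + (t.2.2.1 : ℕ) * q + (t.2.2.2 : ℕ)

theorem step_inj {a a' b b' : ℕ} (hb : b < q) (hb' : b' < q) (h : a * q + b = a' * q + b') :
    a = a' ∧ b = b' := by
  have hq : 0 < q := by omega
  have h1 : (a * q + b) / q = a := by
    rw [Nat.mul_comm, Nat.mul_add_div hq, Nat.div_eq_of_lt hb, add_zero]
  have h2 : (a' * q + b') / q = a' := by
    rw [Nat.mul_comm, Nat.mul_add_div hq, Nat.div_eq_of_lt hb', add_zero]
  have h3 : a = a' := by rw [← h1, ← h2, h]
  subst h3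
  exact ⟨rfl, by omega⟩

theorem code_inj : Function.Injective (code (q := q)) := by
  rintro ⟨i, x, y, j⟩ ⟨i', x', y', j'⟩ h
  unfold code at h
  simp only at h
  have h1 : (((i : ℕ) * q + x) * q + y) * q + j = (((i' : ℕ) * q + x') * q + y') * q + j' := by
    nlinarith
  obtain ⟨h2, h3⟩ := step_inj j.2 j'.2 h1
  obtain ⟨h4, h5⟩ := step_inj y.2 y'.2 h2
  obtain ⟨h6, h7⟩ := step_inj x.2 x'.2 h4
  simp only [Prod.mk.injEq, Fin.ext_iff]
  exact ⟨h6, h7, h5, h3⟩

/-- one of several boolean values is one -/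
theorem one_hot [CharZero K] (s : Fin q → K) (hs : ∀ i, s i * s i - 1 * s i = 0)
    (h1 : ∑ i, 1 * s i - 1 * 1 = 0) : ∃ i₀, ∀ i, s i = if i = i₀ then 1 else 0 := by
  classical
  have hb : ∀ i, s i = 0 ∨ s i = 1 := by
    intro i
    have h := hs i
    have h2 : s i * (s i - 1) = 0 := by linear_combination h
    rcases mul_eq_zero.1 h2 with h3 | h3
    · exact Or.inl h3
    · exact Or.inr (sub_eq_zero.1 h3)
  have h2 : ∑ i, s i = ((univ.filter (fun i => s i = 1)).card : K) := by
    rw [card_filter]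
    push_cast
    refine sum_congr rfl fun i _ => ?_
    rcases hb i with h | h
    · rw [h]
      simp
    · rw [h]
      simp
  have h3 : ((univ.filter (fun i => s i = 1)).card : K) = 1 := by
    rw [← h2]
    simp only [one_mul, mul_one] at h1
    linear_combination h1
  have h4 : (univ.filter (fun i => s i = 1)).card = 1 := by exact_mod_cast h3
  obtain ⟨i₀, hi₀⟩ := card_eq_one.1 h4
  refine ⟨i₀, fun i => ?_⟩
  by_cases hi : i = i₀
  · rw [if_pos hi]
    have : i ∈ univ.filter (fun i => s i = 1) := by rw [hi₀, hi]; exact mem_singleton_self _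
    exact (mem_filter.1 this).2
  · rw [if_neg hi]
    rcases hb i with h | h
    · exact h
    · exfalso
      have : i ∈ univ.filter (fun i => s i = 1) := mem_filter.2 ⟨mem_univ _, h⟩
      rw [hi₀, mem_singleton] at this
      exact hi this

/-- the conditions on the values of the unknowns -/
structure Sol (z : Fin q × Fin q × Fin q × Fin q → Bool) (c α β : K) (W U V T R S : Fin q → K) :
    Prop where
  w : ∀ i, W i * W i - 1 * W i = 0
  u : ∀ i, U i * U i - 1 * U i = 0
  v : ∀ i, V i * V i - 1 * V i = 0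
  t : ∀ i, T i * T i - 1 * T i = 0
  r : ∀ i, R i * R i - 1 * R i = 0
  tab : ∀ i, ∑ x, ∑ y, (entry z i x y : K) * (U x * V y) - ∑ j : Fin q, 2 ^ (j : ℕ) * (1 * R j) -
    1 * S i = 0
  sla : ∀ i, S i * W i = 0
  ow : ∑ i, 1 * W i - 1 * 1 = 0
  ou : ∑ i, 1 * U i - 1 * 1 = 0
  ov : ∑ i, 1 * V i - 1 * 1 = 0
  ot : ∑ i, 1 * T i - 1 * 1 = 0
  fa : 1 * α - 1 * 1 = 0
  fb : 1 * β - 1 * 1 = 0
  bit : ∑ j, T j * R j - 1 * 1 = 0
  qry : c * (α * β) - ∑ i : Fin q, ((((i : ℕ) * q ^ 3 : ℕ) : K) * (1 * W i) +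
    (((i : ℕ) * q ^ 2 : ℕ) : K) * (1 * U i) + (((i : ℕ) * q : ℕ) : K) * (1 * V i) +
    ((i : ℕ) : K) * (1 * T i)) = 0

theorem Sol.forward [CharZero K] {z : Fin q × Fin q × Fin q × Fin q → Bool}
    {t : Fin q × Fin q × Fin q × Fin q} {α β : K} {W U V T R S : Fin q → K}
    (h : Sol z (code t : K) α β W U V T R S) : z t = true := by
  classical
  obtain ⟨i₀, hW⟩ := one_hot W h.w h.ow
  obtain ⟨x₀, hU⟩ := one_hot U h.u h.ou
  obtain ⟨y₀, hV⟩ := one_hot V h.v h.ov
  obtain ⟨j₀, hT⟩ := one_hot T h.t h.ot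
  have hα : α = 1 := by linear_combination h.fa
  have hβ : β = 1 := by linear_combination h.fb
  have hsum : ∀ (f X : Fin q → K) (a₀ : Fin q), (∀ i, X i = if i = a₀ then 1 else 0) →
      ∑ i, f i * X i = f a₀ := by
    intro f X a₀ hX
    simp only [hX, mul_ite, mul_one, mul_zero, sum_ite_eq', mem_univ, if_true]
  have hq := h.qry
  simp only [one_mul, sum_add_distrib] at hq
  rw [hsum _ W i₀ hW, hsum _ U x₀ hU, hsum _ V y₀ hV, hsum _ T j₀ hT, hα, hβ] at hq
  have hc : (code t : K) = (code (i₀, x₀, y₀, j₀) : K) := by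
    unfold code at hq ⊢
    push_cast at hq ⊢
    linear_combination hq
  have ht : t = (i₀, x₀, y₀, j₀) := code_inj (by exact_mod_cast hc)
  have hS : S i₀ = 0 := by
    have := h.sla i₀
    rwa [hW i₀, if_pos rfl, mul_one] at this
  have htab := h.tab i₀
  have hxy : ∑ x, ∑ y, (entry z i₀ x y : K) * (U x * V y) = (entry z i₀ x₀ y₀ : K) := by
    have h1 : ∀ x, ∑ y, (entry z i₀ x y : K) * (U x * V y) = (entry z i₀ x y₀ : K) * U x := by
      intro x
      have := hsum (fun y => (entry z i₀ x y : K) * U x) V y₀ hV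
      rw [← this]
      exact sum_congr rfl fun y _ => by ring
    rw [sum_congr rfl fun x _ => h1 x]
    exact hsum (fun x => (entry z i₀ x y₀ : K)) U x₀ hU
  rw [hxy, hS] at htab
  have hR : ∀ j, R j = ((if R j = 1 then 1 else 0 : ℕ) : K) := by
    intro j
    have h1 := h.r j
    have h2 : R j * (R j - 1) = 0 := by linear_combination h1
    rcases mul_eq_zero.1 h2 with h3 | h3
    · rw [h3]
      simp
    · rw [sub_eq_zero.1 h3]
      simp
  have hnum : entry z i₀ x₀ y₀ = num 2 (fun j : Fin q => if R j = 1 then 1 else 0) := by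
    have h1 : (entry z i₀ x₀ y₀ : K) = (num 2 (fun j : Fin q => if R j = 1 then 1 else 0) : ℕ) := by
      unfold num
      rw [Nat.cast_sum]
      have h2 : ∑ j : Fin q, (2 : K) ^ (j : ℕ) * (1 * R j) =
          ∑ j : Fin q, (((if R j = 1 then 1 else 0) * 2 ^ (j : ℕ) : ℕ) : K) := by
        refine sum_congr rfl fun j _ => ?_
        rw [Nat.cast_mul, ← hR j]
        push_cast
        ring
      rw [← h2]
      linear_combination htab
    exact_mod_cast h1
  have hd : ∀ (P : Prop) [Decidable P], (if P then 1 else 0 : ℕ) < 2 := by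
    intro P _
    split_ifs <;> omega
  unfold entry at hnum
  have hdig := num_inj (B := 2) (fun p => hd _) (fun p => hd _) hnum
  have hbit := h.bit
  have h3 : ∑ j, T j * R j = R j₀ := by
    rw [← hsum R T j₀ hT]
    exact sum_congr rfl fun y _ => mul_comm _ _
  rw [h3] at hbit
  have h4 : R j₀ = 1 := by linear_combination hbit
  have h5 := congrFun hdig j₀
  simp only [h4, if_true] at h5
  rw [ht]
  by_contra hz
  rw [if_neg hz] at h5
  omega

theorem Sol.backward {z : Fin q × Fin q × Fin q × Fin q → Bool}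
    {t : Fin q × Fin q × Fin q × Fin q} (hz : z t = true) :
    Sol (K := K) z (code t : K) 1 1 (fun i => if i = t.1 then 1 else 0)
      (fun i => if i = t.2.1 then 1 else 0) (fun i => if i = t.2.2.1 then 1 else 0)
      (fun i => if i = t.2.2.2 then 1 else 0)
      (fun j => if z (t.1, t.2.1, t.2.2.1, j) then 1 else 0)
      (fun i => (entry z i t.2.1 t.2.2.1 : K) - (entry z t.1 t.2.1 t.2.2.1 : K)) := by
  classical
  obtain ⟨i₀, x₀, y₀, j₀⟩ := t
  have hbool : ∀ (p : Prop) [Decidable p], ((if p then 1 else 0 : K)) * (if p then 1 else 0) -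
      1 * (if p then 1 else 0) = 0 := by
    intro p _
    split_ifs <;> simp
  have hent : ∑ j : Fin q, (2 : K) ^ (j : ℕ) * (1 * if z (i₀, x₀, y₀, j) then 1 else 0) =
      (entry z i₀ x₀ y₀ : K) := by
    unfold entry num
    rw [Nat.cast_sum]
    refine sum_congr rfl fun j _ => ?_
    by_cases h : z (i₀, x₀, y₀, j) = true
    · simp [h]
    · simp [h]
  refine ⟨fun i => hbool _, fun i => hbool _, fun i => hbool _, fun i => hbool _, fun i => hbool _,
    ?_, ?_, ?_, ?_, ?_, ?_, ?_, ?_, ?_, ?_⟩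
  · intro i
    simp only
    rw [hent]
    have h1 : ∑ x, ∑ y, (entry z i x y : K) * ((if x = x₀ then 1 else 0) *
        (if y = y₀ then 1 else 0)) = (entry z i x₀ y₀ : K) := by
      simp [sum_ite_eq', mul_ite]
    rw [h1]
    ring
  · intro i
    simp only
    by_cases hi : i = i₀
    · subst hi
      simp
    · simp [hi]
  · simp
  · simp
  · simp
  · simp
  · simp
  · simp
  · simp only [ite_mul, one_mul, zero_mul, sum_ite_eq', mem_univ, if_true, mul_one]
    have hz' : z (i₀, x₀, y₀, j₀) = true := hz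
    rw [if_pos hz', sub_self]
  · simp only [sum_add_distrib, mul_ite, mul_one, mul_zero, sum_ite_eq', mem_univ,
      if_true]
    unfold code
    push_cast
    ring

/-! ### The instances -/

/-- the coefficients of the other polynomials, and of the polynomial with the query -/
noncomputable def rest (K : Type) [Field K] (g : VK × Fin q → Fin (k + 1))
    (h : (EK × Fin q) ⊕ EO → Fin k) (i₀ : Fin k) (a b : Fin (k + 1))
    (z : Fin q × Fin q × Fin q × Fin q → Bool) (p : Fin k × Sym2 (Fin (k + 1))) : K :=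
  if p.1 = i₀ then -(base K g p.2) else Function.extend h (eqn K g a b z) 0 p.1 p.2

theorem hn_update [CharZero K] (g : VK × Fin q ↪ Fin (k + 1)) (h : (EK × Fin q) ⊕ EO ↪ Fin k)
    (i₀ : Fin k) (a b : Fin (k + 1)) (hi : ∀ e, h e ≠ i₀) (h0 : ∀ v, g v ≠ 0) (ha : ∀ v, g v ≠ a)
    (hb : ∀ v, g v ≠ b) (z : Fin q × Fin q × Fin q × Fin q → Bool)
    (t : Fin q × Fin q × Fin q × Fin q) :
    hn (Function.update (rest K g h i₀ a b z) (i₀, s(a, b)) (code t : K)) = z t := by
  classical
  obtain ⟨A, hA⟩ : ∃ A, A = Function.update (rest K g h i₀ a b z) (i₀, s(a, b)) (code t : K) :=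
    ⟨_, rfl⟩
  rw [← hA]
  have hbase : base K g s(a, b) = 0 := by
    have h1 : ∀ v, mon K 0 (g v) s(a, b) = 0 := by
      intro v
      apply mon_apply_of_ne
      rw [Ne, Sym2.eq_iff]
      rintro (⟨_, h2⟩ | ⟨h2, _⟩)
      · exact hb v h2.symm
      · exact ha v h2.symm
    unfold base
    simp [h1]
  have hrow0 : (fun m => A (i₀, m)) = (code t : K) • mon K a b - base K g := by
    funext m
    rw [hA]
    by_cases hm : m = s(a, b)
    · rw [hm, Function.update_self]
      simp [hbase, mon]
    · rw [Function.update_of_ne (by simpa using hm)]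
      unfold rest
      rw [if_pos rfl]
      simp [mon, hm]
  have hrow : ∀ e, (fun m => A (h e, m)) = eqn K g a b z e := by
    intro e
    funext m
    rw [hA, Function.update_of_ne (by
      intro h1
      exact hi e (congrArg Prod.fst h1))]
    unfold rest
    rw [if_neg (hi e), h.injective.extend_apply]
  have hrow' : ∀ i, i ≠ i₀ → (∀ e, h e ≠ i) → (fun m => A (i, m)) = 0 := by
    intro i h1 h2
    funext m
    rw [hA, Function.update_of_ne (by
      intro h3
      exact h1 (congrArg Prod.fst h3))]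
    unfold rest
    rw [if_neg h1, Function.extend_apply' _ _ _ (by rintro ⟨e, h3⟩; exact h2 e h3)]
    rfl
  have key : (∃ y : Fin (k + 1) → K, y 0 = 1 ∧ ∀ i, ev y (fun m => A (i, m)) = 0) ↔
      z t = true := by
    constructor
    · rintro ⟨y, hy0, hy⟩
      have hq0 := hy i₀
      rw [hrow0] at hq0
      have he : ∀ e, ev y (eqn K g a b z e) = 0 := by
        intro e
        rw [← hrow e]
        exact hy (h e)
      have hS : Sol z (code t : K) (y a) (y b) (fun i => y (g (.w, i))) (fun i => y (g (.u, i)))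
          (fun i => y (g (.v, i))) (fun i => y (g (.t, i))) (fun i => y (g (.r, i)))
          (fun i => y (g (.s, i))) := by
        refine ⟨fun i => ?_, fun i => ?_, fun i => ?_, fun i => ?_, fun i => ?_, fun i => ?_,
          fun i => ?_, ?_, ?_, ?_, ?_, ?_, ?_, ?_, ?_⟩
        · simpa [eqn, ev_sub, ev_mon, hy0] using he (.inl (.w, i))
        · simpa [eqn, ev_sub, ev_mon, hy0] using he (.inl (.u, i))
        · simpa [eqn, ev_sub, ev_mon, hy0] using he (.inl (.v, i))
        · simpa [eqn, ev_sub, ev_mon, hy0] using he (.inl (.t, i))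
        · simpa [eqn, ev_sub, ev_mon, hy0] using he (.inl (.r, i))
        · simpa [eqn, ev_sub, ev_mon, ev_sum, ev_smul, hy0] using he (.inl (.tab, i))
        · simpa [eqn, ev_sub, ev_mon, hy0] using he (.inl (.sla, i))
        · simpa [eqn, ev_sub, ev_mon, ev_sum, hy0] using he (.inr .w)
        · simpa [eqn, ev_sub, ev_mon, ev_sum, hy0] using he (.inr .u)
        · simpa [eqn, ev_sub, ev_mon, ev_sum, hy0] using he (.inr .v)
        · simpa [eqn, ev_sub, ev_mon, ev_sum, hy0] using he (.inr .t)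
        · simpa [eqn, ev_sub, ev_mon, hy0] using he (.inr .fa)
        · simpa [eqn, ev_sub, ev_mon, hy0] using he (.inr .fb)
        · simpa [eqn, ev_sub, ev_mon, ev_sum, hy0] using he (.inr .bit)
        · simpa [base, ev_sub, ev_add, ev_mon, ev_sum, ev_smul, hy0] using hq0
      exact hS.forward
    · intro hz
      have hS := Sol.backward (K := K) hz
      obtain ⟨val, hval⟩ : ∃ val : VK × Fin q → K, val = fun v => match v with
        | (.w, i) => if i = t.1 then 1 else 0
        | (.u, i) => if i = t.2.1 then 1 else 0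
        | (.v, i) => if i = t.2.2.1 then 1 else 0
        | (.t, i) => if i = t.2.2.2 then 1 else 0
        | (.r, j) => if z (t.1, t.2.1, t.2.2.1, j) then 1 else 0
        | (.s, i) => (entry z i t.2.1 t.2.2.1 : K) - (entry z t.1 t.2.1 t.2.2.1 : K) := ⟨_, rfl⟩
      obtain ⟨y, hy⟩ : ∃ y : Fin (k + 1) → K, y = Function.extend g val (fun _ => 1) := ⟨_, rfl⟩
      have hy1 : ∀ c, (∀ v, g v ≠ c) → y c = 1 := by
        intro c hc
        rw [hy, Function.extend_apply' _ _ _ (by rintro ⟨e, h3⟩; exact hc e h3)]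
      have hyg : ∀ v, y (g v) = val v := by
        intro v
        rw [hy, g.injective.extend_apply]
      have hy0 := hy1 0 h0
      have hya := hy1 a ha
      have hyb := hy1 b hb
      refine ⟨y, hy0, fun i => ?_⟩
      by_cases h1 : i = i₀
      · rw [h1, hrow0]
        have := hS.qry
        simp only [hval] at hyg
        simpa [base, ev_sub, ev_add, ev_mon, ev_sum, ev_smul, hy0, hya, hyb, hyg] using this
      · by_cases h2 : ∃ e, h e = i
        · obtain ⟨e, rfl⟩ := h2
          rw [hrow e]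
          simp only [hval] at hyg
          rcases e with ⟨e, i⟩ | e
          · cases e
            · simpa [eqn, ev_sub, ev_mon, hy0, hyg] using hS.w i
            · simpa [eqn, ev_sub, ev_mon, hy0, hyg] using hS.u i
            · simpa [eqn, ev_sub, ev_mon, hy0, hyg] using hS.v i
            · simpa [eqn, ev_sub, ev_mon, hy0, hyg] using hS.t i
            · simpa [eqn, ev_sub, ev_mon, hy0, hyg] using hS.r i
            · have := hS.tab i
              simp only [eqn, ev_sub, ev_mon, ev_sum, ev_smul, hy0, hyg]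
              exact this
            · simpa [eqn, ev_sub, ev_mon, hy0, hyg] using hS.sla i
          · cases e
            · simpa [eqn, ev_sub, ev_mon, ev_sum, hy0, hyg] using hS.ow
            · simpa [eqn, ev_sub, ev_mon, ev_sum, hy0, hyg] using hS.ou
            · simpa [eqn, ev_sub, ev_mon, ev_sum, hy0, hyg] using hS.ov
            · simpa [eqn, ev_sub, ev_mon, ev_sum, hy0, hyg] using hS.ot
            · simp [eqn, ev_sub, ev_mon, hy0, hya]
            · simp [eqn, ev_sub, ev_mon, hy0, hyb]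
            · have := hS.bit
              simp only [eqn, ev_sub, ev_mon, ev_sum, hy0, hyg]
              exact this
        · push Not at h2
          rw [hrow' i h1 h2, ev_zero]
  unfold hn
  by_cases hz : z t = true
  · rw [hz]
    exact decide_eq_true (key.2 hz)
  · have hz' : z t = false := by simpa using hz
    rw [hz']
    exact decide_eq_false (fun h => hz (key.1 h))

/-! ### The queries -/

/-- the queries -/
abbrev Qu (q : ℕ) : Type := Fin q × Fin q × Fin q × Fin q

theorem card_VK : Fintype.card VK = 6 := rfl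

theorem card_EK : Fintype.card EK = 7 := rfl

theorem card_EO : Fintype.card EO = 7 := rfl

theorem exists_vars (h : 7 * q + 8 ≤ k) (a b : Fin (k + 1)) :
    ∃ g : VK × Fin q ↪ Fin (k + 1), (∀ v, g v ≠ 0) ∧ (∀ v, g v ≠ a) ∧ ∀ v, g v ≠ b := by
  classical
  have h1 : Fintype.card (VK × Fin q) ≤
      Fintype.card {j : Fin (k + 1) // j ∉ ({0, a, b} : Finset (Fin (k + 1)))} := by
    rw [Fintype.card_prod, card_VK, Fintype.card_fin, Fintype.card_subtype_compl,
      Fintype.card_fin, Fintype.card_coe]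
    have : ({0, a, b} : Finset (Fin (k + 1))).card ≤ 3 := card_le_three
    omega
  obtain ⟨g⟩ := Function.Embedding.nonempty_of_card_le h1
  have hg : ∀ v, (g v : Fin (k + 1)) ≠ 0 ∧ (g v : Fin (k + 1)) ≠ a ∧ (g v : Fin (k + 1)) ≠ b := by
    intro v
    have := (g v).2
    simpa using this
  exact ⟨g.trans (Function.Embedding.subtype _), fun v => (hg v).1, fun v => (hg v).2.1,
    fun v => (hg v).2.2⟩

theorem exists_eqs (h : 7 * q + 8 ≤ k) (i₀ : Fin k) :
    ∃ g : (EK × Fin q) ⊕ EO ↪ Fin k, ∀ v, g v ≠ i₀ := by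
  have h1 : Fintype.card ((EK × Fin q) ⊕ EO) ≤ Fintype.card {j : Fin k // j ≠ i₀} := by
    rw [Fintype.card_subtype_compl, Fintype.card_subtype_eq, Fintype.card_sum,
      Fintype.card_prod, card_EK, card_EO, Fintype.card_fin, Fintype.card_fin]
    omega
  obtain ⟨g⟩ := Function.Embedding.nonempty_of_card_le h1
  exact ⟨g.trans (Function.Embedding.subtype _), fun v => (g v).2⟩

theorem asks [CharZero K] (h : 7 * q + 8 ≤ k) (p : Fin k × Sym2 (Fin (k + 1))) :
    Asks (D := fun _ : Fin k × Sym2 (Fin (k + 1)) => K) (Qu q) (q ^ 4) 0 (fun _ => True) hn p := by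
  classical
  obtain ⟨i₀, m⟩ := p
  induction m using Sym2.ind with
  | _ a b =>
    obtain ⟨g, h0, ha, hb⟩ := exists_vars h a b
    obtain ⟨e, he⟩ := exists_eqs h i₀
    refine asks_of (univ.image (fun t : Qu q => (code t : K))) (fun _ => 0)
      (fun t _ => (code t : K)) (fun z => rest K g e i₀ a b z) ?_ ?_ ?_ ?_ ?_
    · refine card_image_le.trans ?_
      rw [card_univ]
      simp only [Fintype.card_prod, Fintype.card_fin]
      exact le_of_eq (by ring)
    · intro t z
      exact mem_image_of_mem _ (mem_univ _)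
    · intro t z z' _
      rfl
    · intro t z
      trivial
    · simp only [hn_update g e i₀ a b he h0 ha hb, ne_eq, not_true_eq_false, filter_false,
        card_empty]
      simp

end Pool.Agent.Y638.RF.HN
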