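import Pool.Agent.Y638.RF.HN

set_option autoImplicit false

/-! # Quadratic systems and real formulas: the bounds -/

namespace Pool.Agent.Y638.RF.HN

open Finset Pool.Agent.TH697.Form Pool.Agent.TH697.Row
open Pool.Agent.Y638.RF

variable {K : Type} [Field K] {k q : ℕ}

/-! ### The bounds -/

theorem card_Qu : (Fintype.card (Qu q) : ℝ) = (q : ℝ) ^ 4 := by
  simp only [Fintype.card_prod, Fintype.card_fin]
  push_cast
  ring

/-- the number of coefficients -/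
theorem card_items : (k : ℝ) ^ 3 / 2 ≤
    ((univ : Finset (Fin k × Sym2 (Fin (k + 1)))).card : ℝ) := by
  have h1 : 2 * (univ : Finset (Fin k × Sym2 (Fin (k + 1)))).card = k * ((k + 1) * (k + 2)) := by
    rw [card_univ, Fintype.card_prod, Fintype.card_fin, Sym2.card, Fintype.card_fin,
      Nat.choose_two_right]
    have h2 : 2 * ((k + 1 + 1) * (k + 1 + 1 - 1) / 2) = (k + 1 + 1) * (k + 1 + 1 - 1) :=
      Nat.mul_div_cancel' (Nat.even_mul_pred_self _).two_dvd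
    calc 2 * (k * ((k + 1 + 1) * (k + 1 + 1 - 1) / 2))
        = k * (2 * ((k + 1 + 1) * (k + 1 + 1 - 1) / 2)) := by ring
      _ = k * ((k + 1 + 1) * (k + 1 + 1 - 1)) := by rw [h2]
      _ = k * ((k + 1) * (k + 2)) := by
          rw [show k + 1 + 1 - 1 = k + 1 by omega]
          ring
  have h3 : (2 : ℝ) * ((univ : Finset (Fin k × Sym2 (Fin (k + 1)))).card : ℝ) =
      k * ((k + 1) * (k + 2)) := by exact_mod_cast h1
  have h4 : (0 : ℝ) ≤ k := Nat.cast_nonneg k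
  nlinarith [mul_nonneg h4 h4]

theorem logb_facts (hk0 : 1024 ≤ k) : 10 ≤ Real.logb 2 (k : ℝ) ∧ Real.logb 2 (k : ℝ) ≤ k / 90 := by
  obtain ⟨l, hk⟩ : ∃ l, l = Nat.log 2 k := ⟨_, rfl⟩
  have hk9 : 10 ≤ l := by
    rw [hk]
    have := Nat.log_mono_right (b := 2) hk0
    rwa [show Nat.log 2 1024 = 10 by decide +kernel] at this
  have h5 := Nat.lt_pow_succ_log_self (b := 2) (by norm_num) k
  have h6 : (k : ℝ) ≤ (2 : ℝ) ^ (l + 1) := by rw [hk]; exact_mod_cast h5.le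
  have hn0 : (0 : ℝ) < k := by exact_mod_cast (by omega : 0 < k)
  have h7 := Real.logb_le_logb_of_le (by norm_num : (1 : ℝ) < 2) hn0 h6
  rw [Real.logb_pow, Real.logb_self_eq_one (by norm_num), mul_one] at h7
  push_cast at h7
  have h8 : 90 * (l + 1) ≤ 2 ^ l := by
    clear h7 hk h6
    induction l, hk9 using Nat.le_induction with
    | base => norm_num
    | succ k hk ih =>
      rw [pow_succ]
      omega
  have h10 : 2 ^ l ≤ k := by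
    rw [hk]
    exact Nat.pow_log_le_self 2 (by omega)
  constructor
  · have h11 : ((2 : ℝ)) ^ 10 ≤ k := by
      have : 2 ^ 10 ≤ k := by omega
      exact_mod_cast this
    have h12 := Real.logb_le_logb_of_le (by norm_num : (1 : ℝ) < 2) (by positivity) h11
    rw [Real.logb_pow, Real.logb_self_eq_one (by norm_num)] at h12
    norm_num at h12
    exact h12
  · have h14 : 90 * ((l : ℝ) + 1) ≤ k := by exact_mod_cast h8.trans h10
    linarith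

theorem sizes (hk0 : 1024 ≤ k) (hm : 7 * q + 8 ≤ k) (s : ℕ) (hs : s < k ^ 7) :
    4 * (q ^ 4) * (2 * s + 1) + 2 + s ≤ k ^ 11 := by
  have h1 : 2401 * q ^ 4 ≤ k ^ 4 := by
    calc 2401 * q ^ 4 = (7 * q) ^ 4 := by ring
      _ ≤ k ^ 4 := Nat.pow_le_pow_left (by omega) 4
  have h2 : 2 * s + 1 ≤ 2 * k ^ 7 := by omega
  have h3 : 2401 * (4 * (q ^ 4) * (2 * s + 1)) ≤ 8 * k ^ 11 := by
    calc 2401 * (4 * (q ^ 4) * (2 * s + 1)) = 4 * (2401 * q ^ 4) * (2 * s + 1) := by ring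
      _ ≤ 4 * (k ^ 4) * (2 * k ^ 7) := Nat.mul_le_mul (Nat.mul_le_mul_left _ h1) h2
      _ = 8 * k ^ 11 := by ring
  have h5 : k ^ 7 * 10 ≤ k ^ 11 := by
    calc k ^ 7 * 10 ≤ k ^ 7 * k ^ 4 := Nat.mul_le_mul_left _
          ((by omega : 10 ≤ k).trans (by
            calc k = k ^ 1 := (pow_one k).symm
              _ ≤ k ^ 4 := Nat.pow_le_pow_right (by omega) (by norm_num)))
      _ = k ^ 11 := by ring
  have h6 : 1000 ≤ k ^ 7 := by
    calc 1000 ≤ k := by omega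
      _ = k ^ 1 := (pow_one k).symm
      _ ≤ k ^ 7 := Nat.pow_le_pow_right (by omega) (by norm_num)
  omega

theorem exists_q (hk0 : 1024 ≤ k) : ∃ q : ℕ, 7 * q + 8 ≤ k ∧ (k : ℝ) / 7 - 2 ≤ q := by
  refine ⟨(k - 8) / 7, by omega, ?_⟩
  have h : k ≤ 7 * ((k - 8) / 7) + 14 := by omega
  have h' : (k : ℝ) ≤ 7 * (((k - 8) / 7 : ℕ) : ℝ) + 14 := by exact_mod_cast h
  linarith

/-- the number of queries -/
theorem many (hk0 : 1024 ≤ k) (h : (k : ℝ) / 7 - 2 ≤ q) : ((k : ℝ) ^ 2 / 51) ^ 2 ≤ (q : ℝ) ^ 4 := by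
  have hn' : (1024 : ℝ) ≤ k := by exact_mod_cast hk0
  have h1 : (k : ℝ) ^ 2 / 51 ≤ (q : ℝ) ^ 2 := by
    have h2 : (k : ℝ) * (281 / 2000) ≤ q := by linarith
    have h3 : ((k : ℝ) * (281 / 2000)) ^ 2 ≤ (q : ℝ) ^ 2 := pow_le_pow_left₀ (by positivity) h2 2
    nlinarith [sq_nonneg (k : ℝ)]
  calc ((k : ℝ) ^ 2 / 51) ^ 2 ≤ ((q : ℝ) ^ 2) ^ 2 := pow_le_pow_left₀ (by positivity) h1 2
    _ = (q : ℝ) ^ 4 := by ring

variable {w v : ℕ}

theorem program_bound [CharZero K] (hk0 : 1024 ≤ k) (hw : 1 ≤ w) (hv : 1 ≤ v) {Ω : Type} [Fintype Ω]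
    (μ : Ω → ℝ) (hμ : IsProb μ) (s : ℕ)
    (B : Ω → Program (Fin k × Sym2 (Fin (k + 1))) (fun _ => K) w v s)
    (hB : ApproximatesOn μ (fun ω => (B ω).eval) (fun _ => True) hn) :
    (k : ℝ) ^ 7 ≤ 10000000 * w * (Real.logb 2 k + (w - 1) * Real.logb 2 v) * s := by
  classical
  obtain ⟨hl, hl2⟩ := logb_facts hk0
  have hn' : (1024 : ℝ) ≤ k := by exact_mod_cast hk0
  have hw' : (1 : ℝ) ≤ w := by exact_mod_cast hw
  have hs0 : (0 : ℝ) ≤ s := Nat.cast_nonneg s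
  have hlq : 0 ≤ Real.logb 2 (v : ℝ) := Real.logb_nonneg (by norm_num) (by exact_mod_cast hv)
  have hwq : 0 ≤ ((w : ℝ) - 1) * Real.logb 2 v := mul_nonneg (by linarith) hlq
  by_cases hs : k ^ 7 ≤ s
  · have h1 : (k : ℝ) ^ 7 ≤ s := by exact_mod_cast hs
    have h2 : (1 : ℝ) ≤ 10000000 * w * (Real.logb 2 k + (w - 1) * Real.logb 2 v) := by nlinarith
    nlinarith
  obtain ⟨d, hd, hd2⟩ := exists_q hk0
  have h := program_lower μ hμ s B (fun _ => True) hn hB hv hw (d ^ 4) (k ^ 11)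
    (sizes hk0 hd s (by omega)) 0 univ (T := Qu d) (fun p _ => asks hd p)
  rw [Nat.cast_pow k 11, Real.logb_pow, card_Qu] at h
  have hc := card_items (k := k)
  have hm := many hk0 hd2
  obtain ⟨c, hc'⟩ : ∃ c : ℝ, c = ((univ : Finset (Fin k × Sym2 (Fin (k + 1)))).card : ℝ) :=
    ⟨_, rfl⟩
  obtain ⟨l, hl'⟩ : ∃ l : ℝ, l = Real.logb 2 (k : ℝ) := ⟨_, rfl⟩
  obtain ⟨L, hL⟩ : ∃ L : ℝ, L = (w - 1) * Real.logb 2 (v : ℝ) := ⟨_, rfl⟩
  obtain ⟨N, hN⟩ : ∃ N : ℝ, N = (k : ℝ) := ⟨_, rfl⟩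
  obtain ⟨D, hD⟩ : ∃ D : ℝ, D = (d : ℝ) ^ 4 := ⟨_, rfl⟩
  rw [← hl', ← hN] at hl2
  rw [← hl'] at hl
  rw [← hc', ← hN] at hc
  rw [← hN, ← hD] at hm
  rw [← hl', ← hc', mul_assoc 2, ← hL, ← hD] at h
  rw [← hL] at hwq
  rw [← hl', ← hN, ← hL]
  rw [← hN] at hn'
  push_cast at h
  have hN2 : 1024 * 1024 ≤ N ^ 2 := by nlinarith
  have hN4 : 1024 * 1024 * 1024 * N ≤ N ^ 4 := by
    have : N ^ 4 = N ^ 2 * (N * N) := by ring
    nlinarith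
  have h1 : N ^ 4 / 32000 ≤ (49 / 600 - 0) * D - 11 * l := by
    have : N ^ 4 / 2601 ≤ D := by
      calc N ^ 4 / 2601 = (N ^ 2 / 51) ^ 2 := by ring
        _ ≤ D := hm
    linarith
  have h2 : N ^ 3 / 2 * (N ^ 4 / 32000) ≤ c * ((49 / 600 - 0) * D - 11 * l) :=
    mul_le_mul hc h1 (by positivity) (by
      have : (0 : ℝ) ≤ N ^ 3 / 2 := by positivity
      linarith)
  have h3 : (w : ℝ) * (3 + 12 * (11 * l) + 2 * L) ≤ w * (133 * (l + L)) :=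
    mul_le_mul_of_nonneg_left (by linarith) (by linarith)
  have h4 := mul_le_mul_of_nonneg_right h3 hs0
  have h5 : 0 ≤ (w : ℝ) * (l + L) * s := by positivity
  have h6 : N ^ 3 / 2 * (N ^ 4 / 32000) = N ^ 7 / 64000 := by ring
  rw [h6] at h2
  linarith

theorem net_bound [CharZero K] (hk0 : 1024 ≤ k) (hw : 1 ≤ w) (hv : 1 ≤ v) {Ω : Type} [Fintype Ω]
    (μ : Ω → ℝ) (hμ : IsProb μ) (s : ℕ)
    (F : Ω → Net (Fin k × Sym2 (Fin (k + 1))) (fun _ => K) w v) (hsz : ∀ ω, (F ω).size ≤ s)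
    (hF : ApproximatesOn μ (fun ω => (F ω).eval) (fun _ => True) hn ∨
      ApproximatesOn μ (fun ω x => !(F ω).eval x) (fun _ => True) hn) :
    (k : ℝ) ^ 7 ≤ 450000 * w * (k ^ 2 + 100 * ((w - 1) * Real.logb 2 v)) * s := by
  classical
  obtain ⟨hl, hl2⟩ := logb_facts hk0
  have hn' : (1024 : ℝ) ≤ k := by exact_mod_cast hk0
  have hw' : (1 : ℝ) ≤ w := by exact_mod_cast hw
  have hs0 : (0 : ℝ) ≤ s := Nat.cast_nonneg s
  have hlq : 0 ≤ Real.logb 2 (v : ℝ) := Real.logb_nonneg (by norm_num) (by exact_mod_cast hv)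
  have hwq : 0 ≤ ((w : ℝ) - 1) * Real.logb 2 v := mul_nonneg (by linarith) hlq
  have hk2 : 1024 * (k : ℝ) ≤ (k : ℝ) ^ 2 := by nlinarith
  by_cases hs : k ^ 7 ≤ s
  · have h1 : (k : ℝ) ^ 7 ≤ s := by exact_mod_cast hs
    have h2 : (1 : ℝ) ≤ 450000 * w * (k ^ 2 + 100 * ((w - 1) * Real.logb 2 v)) := by nlinarith
    nlinarith
  obtain ⟨d, hd, hd2⟩ := exists_q hk0
  have hm := many hk0 hd2
  have h := net_bound_le μ hμ F (fun _ => True) hn hF s hsz hv hw (d ^ 4) (k ^ 11)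
    (sizes hk0 hd s (by omega)) 0 (by norm_num) univ (T := Qu d) (fun p _ => asks hd p)
    (((k : ℝ) ^ 2 / 51) ^ 2) (by nlinarith) (by rw [card_Qu]; exact hm)
  rw [Nat.cast_pow k 11, Real.logb_pow, Real.sqrt_sq (by positivity)] at h
  have hc := card_items (k := k)
  obtain ⟨c, hc'⟩ : ∃ c : ℝ, c = ((univ : Finset (Fin k × Sym2 (Fin (k + 1)))).card : ℝ) :=
    ⟨_, rfl⟩
  obtain ⟨l, hl'⟩ : ∃ l : ℝ, l = Real.logb 2 (k : ℝ) := ⟨_, rfl⟩
  obtain ⟨L, hL⟩ : ∃ L : ℝ, L = (w - 1) * Real.logb 2 (v : ℝ) := ⟨_, rfl⟩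
  obtain ⟨N, hN⟩ : ∃ N : ℝ, N = (k : ℝ) := ⟨_, rfl⟩
  rw [← hl', ← hN] at hl2
  rw [← hl'] at hl
  rw [← hc', ← hN] at hc
  rw [← hl', ← hc', mul_assoc 2, ← hL, ← hN] at h
  rw [← hL] at hwq
  rw [← hN, ← hL]
  rw [← hN] at hn' hk2
  push_cast at h
  have h2 : N ^ 3 / 2 * (N ^ 2 / 51) ^ 2 ≤ c * (N ^ 2 / 51) ^ 2 :=
    mul_le_mul_of_nonneg_right hc (by positivity)
  have h6 : N ^ 3 / 2 * (N ^ 2 / 51) ^ 2 = N ^ 7 / 5202 := by ring
  rw [h6] at h2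
  have h3 : 4000 * (w : ℝ) * (N ^ 2 / 51 + (3 + 10 * (11 * l) + 2 * L)) ≤
      4000 * w * (N ^ 2 / 47 + 2 * L) :=
    mul_le_mul_of_nonneg_left (by linarith) (by linarith)
  have h4 := mul_le_mul_of_nonneg_right h3 hs0
  have h5 : 0 ≤ (w : ℝ) * N ^ 2 * s := by positivity
  have h7 : 0 ≤ (w : ℝ) * L * s := by positivity
  nlinarith

end Pool.Agent.Y638.RF.HN
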