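import Pool.Agent.Y638.RF.Prog
import Pool.Agent.TH457.Ary.Sat

set_option autoImplicit false

/-! # Satisfiability and real formulas -/

namespace Pool.Agent.Y638.RF.Sat

open Finset Pool.Agent.TH697.Form Pool.Agent.TH697.Row
open Pool.Agent.TH457.Ary.Sat
open Pool.Agent.Y638.RF

variable {n k c w : ℕ}

/-- the list of the `2 n` clauses of `n` pairs of clauses -/
def flat (x : Fin n → Clause (2 * n) × Clause (2 * n)) (p : Fin (2 * n)) : Clause (2 * n) :=
  if p.val % 2 = 0 then (x ⟨p.val / 2, by omega⟩).1 else (x ⟨p.val / 2, by omega⟩).2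

/-- the pairs of a list of clauses -/
def pair (y : Fin (2 * n) → Clause (2 * n)) (i : Fin n) : Clause (2 * n) × Clause (2 * n) :=
  (y ⟨2 * i.val, by omega⟩, y ⟨2 * i.val + 1, by omega⟩)

theorem flat_update (b : Fin n) (y z : Fin (2 * n) → Clause (2 * n)) :
    flat (Function.update (pair z) b (pair y b)) =
      Pool.Agent.TH457.Ary.merge (D := fun _ => Clause (2 * n)) (blk (2 * n)) b.val y z := by
  funext p
  unfold flat Pool.Agent.TH457.Ary.merge blk
  by_cases hb : p.val / 2 = b.val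
  · have e : (⟨p.val / 2, by omega⟩ : Fin n) = b := Fin.ext hb
    rw [if_pos hb, e, Function.update_self]
    unfold pair
    split_ifs with h
    · exact congrArg y (Fin.ext (show 2 * b.val = p.val by omega))
    · exact congrArg y (Fin.ext (show 2 * b.val + 1 = p.val by omega))
  · have e : (⟨p.val / 2, by omega⟩ : Fin n) ≠ b := fun h => hb (congrArg Fin.val h)
    rw [if_neg hb, Function.update_of_ne e]
    unfold pair
    split_ifs with h
    · exact congrArg z (Fin.ext (show 2 * (p.val / 2) = p.val by omega))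
    · exact congrArg z (Fin.ext (show 2 * (p.val / 2) + 1 = p.val by omega))

theorem asks (hk : 3 ≤ k) (hm : 4 ^ k ≤ 2 * n) (b : Fin n) :
    Asks (D := fun _ : Fin n => Clause (2 * n) × Clause (2 * n)) (Fin (M (2 * n) k) × Fin k)
      ((4 * n) ^ 4) 0 (fun x => Horn (flat x)) (fun x => sat (flat x)) b := by
  classical
  obtain ⟨r, Q, R, h1, h2, h3⟩ := queries (m := 2 * n) hk hm b.val (by omega)
  refine ⟨univ, r, fun t z => pair (Q t z) b, fun z => pair (R z), ?_, fun t z => mem_univ _,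
    ?_, ?_, ?_⟩
  · rw [card_univ]
    simp only [Fintype.card_prod, Fintype.card_fin, Fintype.card_bool]
    apply le_of_eq
    ring
  · intro t z z' hz
    simp only
    rw [h1 t z z' hz]
  · intro t z
    simp only
    rw [flat_update]
    exact h2 t z
  · have h4 : ∀ t z, sat (flat (Function.update (pair (R z)) b (pair (Q t z) b))) = z t := by
      intro t z
      rw [flat_update]
      exact h3 t z
    simp only [h4, ne_eq, not_true_eq_false, filter_false, card_empty]
    simp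

theorem logb_n (hk : 4 ≤ k) (hn0 : 0 < n) (hm : 2 * n < 4 ^ (k + 1)) :
    Real.logb 2 (n : ℝ) ≤ 5 / 2 * k := by
  have h1 : (n : ℝ) ≤ (4 : ℝ) ^ (k + 1) := by exact_mod_cast (by omega : n ≤ 4 ^ (k + 1))
  have h4 := Real.logb_le_logb_of_le (by norm_num : (1 : ℝ) < 2)
    (by exact_mod_cast hn0) h1
  rw [logb_four_pow] at h4
  push_cast at h4
  have hk' : (4 : ℝ) ≤ k := by exact_mod_cast hk
  linarith

/-- the arithmetic for programs -/
theorem arith_program {n k c w N l s : ℝ} (hn : 1000 ≤ n) (hk : 4 ≤ k) (hc : 1 ≤ c) (hw : 1 ≤ w)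
    (hN : 2 * n * k / 2 ≤ N) (hl : l ≤ 5 / 2 * k) (hs : 0 ≤ s)
    (h : n * ((49 / 600 - 0) * N - 8 * l) ≤ w * (3 + 12 * (8 * l) + 2 * (w - 1) * (c * l)) * s) :
    n ^ 2 ≤ 6100 * c * w ^ 2 * s := by
  have h0 : 1000 * k ≤ n * k := mul_le_mul_of_nonneg_right hn (by linarith)
  have h1 : n * k / 25 ≤ (49 / 600 - 0) * N - 8 * l := by linarith
  have h2 : n * (n * k / 25) ≤ n * ((49 / 600 - 0) * N - 8 * l) :=
    mul_le_mul_of_nonneg_left h1 (by linarith)
  have h3 : w * (3 + 12 * (8 * l) + 2 * (w - 1) * (c * l)) ≤ 242 * c * k * w ^ 2 := by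
    have h4 : (w - 1) * (c * l) ≤ (w - 1) * (c * (5 / 2 * k)) :=
      mul_le_mul_of_nonneg_left (mul_le_mul_of_nonneg_left hl (by linarith)) (by linarith)
    have h5 : 3 + 12 * (8 * l) ≤ 241 * k := by linarith
    have h6 : k ≤ c * k := by nlinarith
    have h7 : 0 ≤ (w - 1) * (c * k) := by
      apply mul_nonneg (by linarith)
      positivity
    calc w * (3 + 12 * (8 * l) + 2 * (w - 1) * (c * l)) ≤ w * (242 * c * k * w) := by
          apply mul_le_mul_of_nonneg_left _ (by linarith)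
          nlinarith
      _ = _ := by ring
  have h4 := mul_le_mul_of_nonneg_right h3 hs
  have h5 : k * n ^ 2 ≤ k * (6100 * c * w ^ 2 * s) := by
    have e1 : n * (n * k / 25) = k * n ^ 2 / 25 := by ring
    have e2 : 242 * c * k * w ^ 2 * s = k * (6050 * c * w ^ 2 * s) / 25 := by ring
    rw [e1] at h2
    rw [e2] at h4
    have h8 : 0 ≤ k * (c * w ^ 2 * s) := by positivity
    nlinarith
  exact le_of_mul_le_mul_left h5 (by linarith)

theorem program_bound (hn : 1000 ≤ n) (hc : 1 ≤ c) (hw : 1 ≤ w) {Ω : Type} [Fintype Ω] (μ : Ω → ℝ)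
    (hμ : IsProb μ) (s : ℕ)
    (B : Ω → Program (Fin n) (fun _ => Clause (2 * n) × Clause (2 * n)) w (n ^ c) s)
    (hB : ApproximatesOn μ (fun ω => (B ω).eval) (fun x => Horn (flat x))
      (fun x => sat (flat x))) :
    (n : ℝ) ^ 2 ≤ 6100 * c * w ^ 2 * s := by
  classical
  have hw' : (1 : ℝ) ≤ w := by exact_mod_cast hw
  have hc' : (1 : ℝ) ≤ c := by exact_mod_cast hc
  have hs0 : (0 : ℝ) ≤ s := Nat.cast_nonneg s
  by_cases hsm : n ^ 2 ≤ s
  · have h1 : (n : ℝ) ^ 2 ≤ s := by exact_mod_cast hsm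
    have h2 : (1 : ℝ) ≤ w ^ 2 := by nlinarith
    have h3 : (1 : ℝ) ≤ c * w ^ 2 := by nlinarith
    nlinarith
  obtain ⟨k, hk, hk1, hk2⟩ := exists_k (m := 2 * n) (by omega)
  have hM : 4 * (4 * n) ^ 4 * (2 * s + 1) + 2 + s ≤ n ^ 8 := by
    have h1 : s < n ^ 2 := by omega
    have h2 : 4 * (4 * n) ^ 4 * (2 * s + 1) ≤ 4 * (4 * n) ^ 4 * (2 * n ^ 2) :=
      Nat.mul_le_mul_left _ (by omega)
    have h3 : 4 * (4 * n) ^ 4 * (2 * n ^ 2) = 2048 * n ^ 6 := by ring
    have h4 : n ^ 2 ≤ n ^ 6 := Nat.pow_le_pow_right (by omega) (by norm_num)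
    have h5 : 1000000 * n ^ 6 ≤ n ^ 8 := by
      have h9 : 1000 ^ 2 ≤ n ^ 2 := Nat.pow_le_pow_left hn 2
      calc 1000000 * n ^ 6 ≤ n ^ 2 * n ^ 6 := Nat.mul_le_mul_right _ (by omega)
        _ = n ^ 8 := by ring
    have h6 : 1 ≤ n ^ 6 := Nat.one_le_pow _ _ (by omega)
    omega
  have h := program_lower (D := fun _ : Fin n => Clause (2 * n) × Clause (2 * n)) μ hμ s B
    (fun x => Horn (flat x)) (fun x => sat (flat x)) hB
    (Nat.one_le_pow _ _ (by omega)) hw ((4 * n) ^ 4) (n ^ 8) hM 0 univ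
    (T := Fin (M (2 * n) k) × Fin k) (fun p _ => asks (by omega) hk1 p)
  rw [card_univ (α := Fin n), Fintype.card_fin, Nat.cast_pow n 8, Nat.cast_pow n c,
    Real.logb_pow, Real.logb_pow] at h
  have hT := card_T (m := 2 * n) (by omega) hk1
  refine arith_program (N := ((Fintype.card (Fin (M (2 * n) k) × Fin k) : ℕ) : ℝ))
    (l := Real.logb 2 (n : ℝ)) (by exact_mod_cast hn)
    (by exact_mod_cast hk) hc' hw' ?_ (logb_n hk (by omega) hk2) hs0 ?_
  · push_cast at hT ⊢
    linarith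
  · push_cast at h ⊢
    exact h

end Pool.Agent.Y638.RF.Sat
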