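import Pool.Agent.Y638.RF.NetZeroSum
import Pool.Agent.Y638.RF.Sat

set_option autoImplicit false

/-! # Satisfiability and networks -/

namespace Pool.Agent.Y638.RF.Sat

open Finset Pool.Agent.TH697.Form Pool.Agent.TH697.Row
open Pool.Agent.TH457.Ary.Sat
open Pool.Agent.Y638.RF

variable {n k c w : ℕ}

/-- the arithmetic for networks -/
theorem arith_net {n k c w l s : ℝ} (hn : 0 ≤ n) (hk : 4 ≤ k) (hc : 1 ≤ c) (hw : 1 ≤ w)
    (hl : l ≤ 5 / 2 * k) (hs : 0 ≤ s)
    (h : n * (n * k * 1) ≤ 4000 * w * (Real.sqrt (n * k * 1) +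
      (3 + 10 * (8 * l) + 2 * (w - 1) * (c * l))) * s) :
    n ^ 2 ≤ 2000 * w * (Real.sqrt n + 402 * c * w) * s := by
  have h1 : Real.sqrt (n * k * 1) ≤ 1 / 2 * k * Real.sqrt n :=
    sqrt_mul_le hn (by linarith) (by norm_num) (by norm_num) (by linarith)
  have h2 : 3 + 10 * (8 * l) + 2 * (w - 1) * (c * l) ≤ 201 * (c * w * k) := by
    have h4 : (w - 1) * (c * l) ≤ (w - 1) * (c * (5 / 2 * k)) :=
      mul_le_mul_of_nonneg_left (mul_le_mul_of_nonneg_left hl (by linarith)) (by linarith)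
    have h5 : 3 + 10 * (8 * l) ≤ 201 * k := by linarith
    have h6 : k ≤ c * k := by nlinarith
    have h7 : 0 ≤ (w - 1) * (c * k) := by
      apply mul_nonneg (by linarith)
      positivity
    nlinarith
  have h3 : n * (n * k * 1) ≤ 4000 * w * (1 / 2 * k * Real.sqrt n + 201 * (c * w * k)) * s := by
    refine h.trans ?_
    apply mul_le_mul_of_nonneg_right _ hs
    apply mul_le_mul_of_nonneg_left _ (by linarith)
    linarith
  have h4 : k * n ^ 2 ≤ k * (2000 * w * (Real.sqrt n + 402 * c * w) * s) := by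
    have e1 : n * (n * k * 1) = k * n ^ 2 := by ring
    have e2 : 4000 * w * (1 / 2 * k * Real.sqrt n + 201 * (c * w * k)) * s =
        k * (2000 * w * (Real.sqrt n + 402 * c * w) * s) := by ring
    rw [e1, e2] at h3
    exact h3
  exact le_of_mul_le_mul_left h4 (by linarith)

theorem net_bound' (hn : 1000 ≤ n) (hc : 1 ≤ c) (hw : 1 ≤ w) {Ω : Type} [Fintype Ω] (μ : Ω → ℝ)
    (hμ : IsProb μ) (s : ℕ)
    (F : Ω → Net (Fin n) (fun _ => Clause (2 * n) × Clause (2 * n)) w (n ^ c))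
    (hs : ∀ ω, (F ω).size ≤ s)
    (hF : ApproximatesOn μ (fun ω => (F ω).eval) (fun x => Horn (flat x)) (fun x => sat (flat x)) ∨
      ApproximatesOn μ (fun ω x => !(F ω).eval x) (fun x => Horn (flat x))
        (fun x => sat (flat x))) :
    (n : ℝ) ^ 2 ≤ 2000 * w * (Real.sqrt n + 402 * c * w) * s := by
  classical
  have hw' : (1 : ℝ) ≤ w := by exact_mod_cast hw
  have hc' : (1 : ℝ) ≤ c := by exact_mod_cast hc
  have hs0 : (0 : ℝ) ≤ s := Nat.cast_nonneg s
  by_cases hsm : n ^ 2 ≤ s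
  · exact ZeroSum.trivial_case (Nat.cast_nonneg n) hc' hw' 2000 402 (by norm_num) (by norm_num)
      (by exact_mod_cast hsm)
  obtain ⟨k, hk, hk1, hk2⟩ := exists_k (m := 2 * n) (by omega)
  have hM : 4 * (4 * n) ^ 4 * (2 * s + 1) + 2 + s ≤ n ^ 8 := by
    have h1 : s < n ^ 2 := by omega
    have h2 : 4 * (4 * n) ^ 4 * (2 * s + 1) ≤ 4 * (4 * n) ^ 4 * (2 * n ^ 2) :=
      Nat.mul_le_mul_left _ (by omega)
    have h3 : 4 * (4 * n) ^ 4 * (2 * n ^ 2) = 2048 * n ^ 6 := by ring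
    have h4 : n ^ 2 ≤ n ^ 6 := Nat.pow_le_pow_right (by omega) (by norm_num)
    have h5 : 1000000 * n ^ 6 ≤ n ^ 8 := by
      have h9 : 1000 ^ 2 ≤ n ^ 2 := Nat.pow_le_pow_left hn 2
      calc 1000000 * n ^ 6 ≤ n ^ 2 * n ^ 6 := Nat.mul_le_mul_right _ (by omega)
        _ = n ^ 8 := by ring
    have h6 : 1 ≤ n ^ 6 := Nat.one_le_pow _ _ (by omega)
    omega
  have hk' : (4 : ℝ) ≤ k := by exact_mod_cast hk
  have hn' : (1000 : ℝ) ≤ n := by exact_mod_cast hn
  have h := net_bound_le (D := fun _ : Fin n => Clause (2 * n) × Clause (2 * n)) μ hμ F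
    (fun x => Horn (flat x)) (fun x => sat (flat x)) hF s hs
    (Nat.one_le_pow _ _ (by omega)) hw ((4 * n) ^ 4) (n ^ 8) hM 0 (by norm_num) univ
    (T := Fin (M (2 * n) k) × Fin k) (fun p _ => asks (by omega) hk1 p) ((n : ℝ) * k * 1)
    (by nlinarith) (by
      have := card_T (m := 2 * n) (k := k) (by omega) hk1
      push_cast at this ⊢
      linarith)
  rw [card_univ (α := Fin n), Fintype.card_fin, Nat.cast_pow n 8, Nat.cast_pow n c,
    Real.logb_pow, Real.logb_pow] at h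
  refine arith_net (l := Real.logb 2 (n : ℝ)) (Nat.cast_nonneg n) hk' hc' hw'
    (logb_n hk (by omega) hk2) hs0 ?_
  push_cast at h ⊢
  exact h

end Pool.Agent.Y638.RF.Sat
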