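import Pool.Agent.Y638.RF.NetDefs

set_option autoImplicit false

/-! # Tautologies in disjunctive normal form -/

namespace Pool.Agent.Y638.RF.Taut

/-- A conjunction of two literals. The literal `(i, true)` is the variable `i`, the literal
`(i, false)` is its negation. -/
abbrev Term (v : ℕ) : Type := (Fin v × Bool) × (Fin v × Bool)

/-- The assignment `a` makes the term true. -/
def Holds {v : ℕ} (a : Fin v → Bool) (t : Term v) : Prop := a t.1.1 = t.1.2 ∧ a t.2.1 = t.2.2

open Classical in
/-- The disjunction of all the terms (two terms for each `p`) is a tautology. -/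
noncomputable def taut {m v : ℕ} (x : Fin m → Term v × Term v) : Bool :=
  decide (∀ a : Fin v → Bool, ∃ p, Holds a (x p).1 ∨ Holds a (x p).2)

end Pool.Agent.Y638.RF.Taut
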