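import Pool.Agent.Y638.RF.NetSat
import Pool.Agent.Y638.RF.NetTautDefs

set_option autoImplicit false

/-! # Tautologies and networks -/

namespace Pool.Agent.Y638.RF

open Finset Pool.Agent.TH697.Form Pool.Agent.TH697.Row

/-- Queries of a function which is obtained by a change of the items. -/
theorem asks_map {ι : Type} {D D' : ι → Type} [DecidableEq ι] {T : Type} [Fintype T] {K : ℕ} {δ : ℝ}
    {P : (∀ i, D i) → Prop} {f : (∀ i, D i) → Bool} {P' : (∀ i, D' i) → Prop}
    {f' : (∀ i, D' i) → Bool} {i : ι} (e : ∀ i, D i → D' i)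
    (hP : ∀ x, P x → P' (fun j => e j (x j))) (hf : ∀ x, f' (fun j => e j (x j)) = f x)
    (h : Asks T K δ P f i) : Asks T K δ P' f' i := by
  classical
  obtain ⟨A, r, Q, R, h1, h2, h3, h4, h5⟩ := h
  have hu : ∀ (x : ∀ i, D i) (d : D i), Function.update (fun j => e j (x j)) i (e i d) =
      fun j => e j (Function.update x i d j) := by
    intro x d
    funext j
    by_cases hj : j = i
    · subst hj
      simp
    · simp [hj]
  refine ⟨A.image (e i), r, fun t z => e i (Q t z), fun z j => e j (R z j),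
    card_image_le.trans h1, fun t z => mem_image_of_mem _ (h2 t z), ?_, ?_, ?_⟩
  · intro t z z' hz
    simp only
    rw [h3 t z z' hz]
  · intro t z
    rw [hu]
    exact hP _ (h4 t z)
  · simp only [hu, hf]
    exact h5

namespace Taut

open Pool.Agent.TH457.Ary.Sat (Clause Horn sat exists_k card_T M)
open Pool.Agent.Y638.RF.Sat (flat)

/-- the negation of a clause -/
def neg {v : ℕ} (C : Clause v) : Term v := ((C.1.1, !C.1.2), (C.2.1, !C.2.2))

theorem holds_neg {v : ℕ} (a : Fin v → Bool) (C : Clause v) :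
    Holds a (neg C) ↔ ¬ Pool.Agent.TH457.Ary.Sat.Holds a C := by
  unfold Holds neg Pool.Agent.TH457.Ary.Sat.Holds
  simp only
  push Not
  cases a C.1.1 <;> cases a C.2.1 <;> cases C.1.2 <;> cases C.2.2 <;> simp

theorem taut_neg {n : ℕ} (x : Fin n → Clause (2 * n) × Clause (2 * n)) :
    taut (fun p => (neg (x p).1, neg (x p).2)) = !sat (flat x) := by
  classical
  unfold taut sat
  rw [← decide_not]
  congr 1
  apply propext
  push Not
  refine forall_congr' fun a => ?_
  simp only [holds_neg]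
  constructor
  · rintro ⟨p, hp⟩
    rcases hp with hp | hp
    · refine ⟨⟨2 * p.val, by omega⟩, ?_⟩
      have e : flat x ⟨2 * p.val, by omega⟩ = (x p).1 := by
        unfold flat
        simp
      rw [e]
      exact hp
    · refine ⟨⟨2 * p.val + 1, by omega⟩, ?_⟩
      have e : flat x ⟨2 * p.val + 1, by omega⟩ = (x p).2 := by
        unfold flat
        rw [if_neg (by simp)]
        have e1 : (⟨(2 * p.val + 1) / 2, by omega⟩ : Fin n) = p := Fin.ext (by simp; omega)
        simp only [e1]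
      rw [e]
      exact hp
  · rintro ⟨p, hp⟩
    unfold flat at hp
    split_ifs at hp with h
    · exact ⟨_, Or.inl hp⟩
    · exact ⟨_, Or.inr hp⟩

variable {n k c w : ℕ}

theorem asks (hk : 3 ≤ k) (hm : 4 ^ k ≤ 2 * n) (b : Fin n) :
    Asks (D := fun _ : Fin n => Term (2 * n) × Term (2 * n)) (Fin (M (2 * n) k) × Fin k)
      ((4 * n) ^ 4) 0 (fun _ => True) taut b :=
  asks_map (D := fun _ : Fin n => Clause (2 * n) × Clause (2 * n))
    (fun _ C => (neg C.1, neg C.2)) (fun _ _ => trivial) taut_neg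
    (asks_not (Sat.asks hk hm b))

theorem net_bound' (hn : 1000 ≤ n) (hc : 1 ≤ c) (hw : 1 ≤ w) {Ω : Type} [Fintype Ω] (μ : Ω → ℝ)
    (hμ : IsProb μ) (s : ℕ)
    (F : Ω → Net (Fin n) (fun _ => Term (2 * n) × Term (2 * n)) w (n ^ c))
    (hs : ∀ ω, (F ω).size ≤ s)
    (hF : ApproximatesOn μ (fun ω => (F ω).eval) (fun _ => True) taut ∨
      ApproximatesOn μ (fun ω x => !(F ω).eval x) (fun _ => True) taut) :
    (n : ℝ) ^ 2 ≤ 2000 * w * (Real.sqrt n + 402 * c * w) * s := by
  classical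
  have hw' : (1 : ℝ) ≤ w := by exact_mod_cast hw
  have hc' : (1 : ℝ) ≤ c := by exact_mod_cast hc
  have hs0 : (0 : ℝ) ≤ s := Nat.cast_nonneg s
  by_cases hsm : n ^ 2 ≤ s
  · exact ZeroSum.trivial_case (Nat.cast_nonneg n) hc' hw' 2000 402 (by norm_num) (by norm_num)
      (by exact_mod_cast hsm)
  obtain ⟨k, hk, hk1, hk2⟩ := exists_k (m := 2 * n) (by omega)
  have hM : 4 * (4 * n) ^ 4 * (2 * s + 1) + 2 + s ≤ n ^ 8 := by
    have h1 : s < n ^ 2 := by omega
    have h2 : 4 * (4 * n) ^ 4 * (2 * s + 1) ≤ 4 * (4 * n) ^ 4 * (2 * n ^ 2) :=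
      Nat.mul_le_mul_left _ (by omega)
    have h3 : 4 * (4 * n) ^ 4 * (2 * n ^ 2) = 2048 * n ^ 6 := by ring
    have h4 : n ^ 2 ≤ n ^ 6 := Nat.pow_le_pow_right (by omega) (by norm_num)
    have h5 : 1000000 * n ^ 6 ≤ n ^ 8 := by
      have h9 : 1000 ^ 2 ≤ n ^ 2 := Nat.pow_le_pow_left hn 2
      calc 1000000 * n ^ 6 ≤ n ^ 2 * n ^ 6 := Nat.mul_le_mul_right _ (by omega)
        _ = n ^ 8 := by ring
    have h6 : 1 ≤ n ^ 6 := Nat.one_le_pow _ _ (by omega)
    omega
  have hk' : (4 : ℝ) ≤ k := by exact_mod_cast hk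
  have hn' : (1000 : ℝ) ≤ n := by exact_mod_cast hn
  have h := net_bound_le (D := fun _ : Fin n => Term (2 * n) × Term (2 * n)) μ hμ F
    (fun _ => True) taut hF s hs
    (Nat.one_le_pow _ _ (by omega)) hw ((4 * n) ^ 4) (n ^ 8) hM 0 (by norm_num) univ
    (T := Fin (M (2 * n) k) × Fin k) (fun p _ => asks (by omega) hk1 p) ((n : ℝ) * k * 1)
    (by nlinarith) (by
      have := card_T (m := 2 * n) (k := k) (by omega) hk1
      push_cast at this ⊢
      linarith)
  rw [card_univ (α := Fin n), Fintype.card_fin, Nat.cast_pow n 8, Nat.cast_pow n c,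
    Real.logb_pow, Real.logb_pow] at h
  refine Sat.arith_net (l := Real.logb 2 (n : ℝ)) (Nat.cast_nonneg n) hk' hc' hw'
    (Sat.logb_n hk (by omega) hk2) hs0 ?_
  push_cast at h ⊢
  exact h

end Taut

end Pool.Agent.Y638.RF
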