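import Pool.Agent.Y638.RF.NetGen
import Pool.Agent.Y638.RF.Prog
import Pool.Agent.Y638.RF.Grp

set_option autoImplicit false

/-! # Partial truth tables and real formulas -/

namespace Pool.Agent.Y638.RF.PT

open Finset Pool.Agent.TH697.Form Pool.Agent.TH697.Row
open Pool.Agent.Y638.RF

variable {n k w : ℕ}

/-! ### Balls and a code -/

/-- the neighbour in direction `i` -/
def flip (a : Fin n → Bool) (i : Fin n) : Fin n → Bool := Function.update a i (!a i)

theorem flip_ne (a : Fin n → Bool) (i : Fin n) : flip a i ≠ a := by
  intro h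
  have := congrFun h i
  simp [flip] at this

theorem flip_inj (a : Fin n → Bool) {i j : Fin n} (h : flip a i = flip a j) : i = j := by
  by_contra hij
  have := congrFun h i
  simp [flip, Function.update_of_ne hij] at this

theorem flip_flip (a : Fin n → Bool) (i : Fin n) : flip (flip a i) i = a := by
  funext j
  by_cases h : j = i
  · subst h
    simp [flip]
  · simp [flip, Function.update_of_ne h]

/-- the ball -/
def Ball (a p : Fin n → Bool) : Prop := p = a ∨ ∃ i, p = flip a i

/-- the weight -/
def wt (p : Fin n → Bool) : ℤ := ∑ i, if p i then ((i : ℕ) + 1 : ℤ) else 0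

theorem wt_flip (a : Fin n → Bool) (i : Fin n) :
    wt (flip a i) = wt a + if a i then -((i : ℕ) + 1 : ℤ) else ((i : ℕ) + 1 : ℤ) := by
  classical
  unfold wt
  have h1 : ∀ p : Fin n → Bool, ∑ j, (if p j then ((j : ℕ) + 1 : ℤ) else 0) =
      (if p i then ((i : ℕ) + 1 : ℤ) else 0) +
        ∑ j ∈ univ.erase i, if p j then ((j : ℕ) + 1 : ℤ) else 0 := by
    intro p
    rw [add_comm, sum_erase_add _ _ (mem_univ i)]
  rw [h1, h1 a]
  have h2 : ∑ j ∈ univ.erase i, (if flip a i j then ((j : ℕ) + 1 : ℤ) else 0) =
      ∑ j ∈ univ.erase i, if a j then ((j : ℕ) + 1 : ℤ) else 0 := by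
    refine sum_congr rfl fun j hj => ?_
    unfold flip
    rw [Function.update_of_ne (ne_of_mem_erase hj)]
  rw [h2]
  generalize ∑ j ∈ univ.erase i, (if a j then ((j : ℕ) + 1 : ℤ) else 0) = S
  unfold flip
  rw [Function.update_self]
  cases a i
  · rw [Bool.not_false, if_pos rfl, if_neg Bool.false_ne_true, if_neg Bool.false_ne_true]
    ring
  · rw [Bool.not_true, if_pos rfl, if_pos rfl, if_neg Bool.false_ne_true]
    ring

/-- the code -/
def code (n : ℕ) (σ : ℕ) : Finset (Fin n → Bool) :=
  univ.filter fun p => wt p % (2 * n + 1 : ℤ) = σ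

theorem eq_zero_of_small {δ : ℤ} (h : (2 * n + 1 : ℤ) ∣ δ) (h1 : -(2 * n : ℤ) ≤ δ)
    (h2 : δ ≤ 2 * n) : δ = 0 := by
  apply Int.eq_zero_of_abs_lt_dvd h
  rw [abs_lt]
  constructor
  · linarith
  · linarith

/-- The balls are disjoint. -/
theorem ball_unique {σ : ℕ} {a a' p : Fin n → Bool} (ha : a ∈ code n σ) (ha' : a' ∈ code n σ)
    (h : Ball a p) (h' : Ball a' p) : a = a' := by
  have hd : (2 * n + 1 : ℤ) ∣ wt a - wt a' := by
    unfold code at ha ha'
    rw [mem_filter] at ha ha'
    exact Int.ModEq.dvd (ha'.2.trans ha.2.symm)
  have step : ∀ (b : Fin n → Bool) (i : Fin n), ∃ e : ℤ, (e = ((i : ℕ) + 1 : ℤ) ∨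
      e = -((i : ℕ) + 1 : ℤ)) ∧ wt (flip b i) = wt b + e := by
    intro b i
    refine ⟨_, ?_, wt_flip b i⟩
    cases b i
    · left
      simp
    · right
      simp
  rcases h with rfl | ⟨i, rfl⟩
  · rcases h' with h' | ⟨j, h'⟩
    · exact h'
    · exfalso
      obtain ⟨e, he, h2⟩ := step a' j
      rw [← h'] at h2
      have hj := j.2
      have h3 : wt p - wt a' = e := by linarith
      rw [h3] at hd
      have := eq_zero_of_small hd (by rcases he with he | he <;> rw [he] <;> omega)
        (by rcases he with he | he <;> rw [he] <;> omega)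
      rcases he with he | he <;> omega
  · rcases h' with h' | ⟨j, h'⟩
    · exfalso
      obtain ⟨e, he, h2⟩ := step a i
      rw [h'] at h2
      have hi := i.2
      have h3 : wt a - wt a' = -e := by linarith
      rw [h3] at hd
      have := eq_zero_of_small hd (by rcases he with he | he <;> rw [he] <;> omega)
        (by rcases he with he | he <;> rw [he] <;> omega)
      rcases he with he | he <;> omega
    · obtain ⟨e, he, h2⟩ := step a i
      obtain ⟨e', he', h2'⟩ := step a' j
      have hi := i.2
      have hj := j.2
      rw [h'] at h2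
      have h3 : wt a - wt a' = e' - e := by linarith
      rw [h3] at hd
      have h4 := eq_zero_of_small hd
        (by rcases he with he | he <;> rcases he' with he' | he' <;> rw [he, he'] <;> omega)
        (by rcases he with he | he <;> rcases he' with he' | he' <;> rw [he, he'] <;> omega)
      have hij : i = j := by
        apply Fin.ext
        rcases he with he | he <;> rcases he' with he' | he' <;> omega
      subst hij
      rw [← flip_flip a i, h', flip_flip]

/-- a large code -/
theorem exists_code (n : ℕ) : ∃ σ, 2 ^ n ≤ (2 * n + 1) * (code n σ).card := by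
  classical
  have h1 : ∀ p : Fin n → Bool, p ∈ (univ : Finset (Fin n → Bool)) →
      (wt p % (2 * n + 1 : ℤ)).toNat ∈ range (2 * n + 1) := by
    intro p _
    rw [mem_range]
    have h2 := Int.emod_lt_of_pos (wt p) (by omega : (0 : ℤ) < 2 * n + 1)
    have h3 := Int.emod_nonneg (wt p) (by omega : (2 * n + 1 : ℤ) ≠ 0)
    omega
  have h2 := card_eq_sum_card_fiberwise h1
  have h3 : ∀ σ, (univ.filter fun p : Fin n → Bool => (wt p % (2 * n + 1 : ℤ)).toNat = σ) =
      code n σ := by
    intro σ
    unfold code
    ext p
    rw [mem_filter, mem_filter]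
    have h3 := Int.emod_nonneg (wt p) (by omega : (2 * n + 1 : ℤ) ≠ 0)
    constructor
    · rintro ⟨h, h'⟩
      exact ⟨h, by omega⟩
    · rintro ⟨h, h'⟩
      exact ⟨h, by omega⟩
  simp only [h3] at h2
  by_contra hcon
  push Not at hcon
  have h4 : (2 * n + 1) * ∑ σ ∈ range (2 * n + 1), (code n σ).card <
      (2 * n + 1) * 2 ^ n := by
    rw [mul_sum]
    calc ∑ σ ∈ range (2 * n + 1), (2 * n + 1) * (code n σ).card
        < ∑ σ ∈ range (2 * n + 1), 2 ^ n := sum_lt_sum_of_nonempty ⟨0, by simp⟩ fun σ _ => hcon σ
      _ = (2 * n + 1) * 2 ^ n := by rw [sum_const, card_range, smul_eq_mul]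
  rw [← h2, card_univ, Fintype.card_fun, Fintype.card_bool, Fintype.card_fin] at h4
  exact lt_irrefl _ h4

open Classical in
/-- the block of a point -/
noncomputable def blk (C : Finset (Fin n → Bool)) (p : Fin n → Bool) : Fin n → Bool :=
  if h : ∃ a ∈ C, Ball a p then h.choose else p

theorem blk_iff {σ : ℕ} {a : Fin n → Bool} (ha : a ∈ code n σ) (p : Fin n → Bool) :
    blk (code n σ) p = a ↔ Ball a p := by
  classical
  unfold blk
  by_cases h : ∃ b ∈ code n σ, Ball b p
  · rw [dif_pos h]
    have hs := h.choose_spec
    constructor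
    · intro h1
      rw [h1] at hs
      exact hs.2
    · intro h1
      exact ball_unique hs.1 ha hs.2 h1
  · rw [dif_neg h]
    constructor
    · intro h1
      exact Or.inl h1
    · intro h1
      exact absurd ⟨a, ha, h1⟩ h

/-! ### The queries -/

/-- a class of functions: it contains the conjunctions of `k` literals, and its members depend on
at most `k` variables -/
structure Class (n k : ℕ) (F : ((Fin n → Bool) → Bool) → Prop) : Prop where
  conj : ∀ (a : Fin n → Bool) (t : Finset (Fin n)), t.card = k →
    F (fun x => decide (∀ i ∈ t, x i = a i))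
  dep : ∀ f, F f → ∃ V : Finset (Fin n), V.card ≤ k ∧ ∀ x y, (∀ i ∈ V, x i = y i) → f x = f y

open Classical in
/-- Is there a function in the class which is consistent with the table? -/
noncomputable def easy (F : ((Fin n → Bool) → Bool) → Prop) (T : (Fin n → Bool) → Option Bool) :
    Bool :=
  decide (∃ f, F f ∧ ∀ x b, T x = some b → f x = b)

/-- the queries: sets of `k` variables -/
abbrev Qu (n k : ℕ) : Type := {t : Finset (Fin n) // t.card = k}

open Classical in
/-- the query -/
noncomputable def qry (a : Fin n → Bool) (t : Qu n k) (p : Fin n → Bool) : Option Bool :=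
  if p = a then some true else if ∃ i ∈ t.1, p = flip a i then some false else none

/-- the point which stores the answer -/
def far (a : Fin n → Bool) (t : Finset (Fin n)) (i : Fin n) : Bool := if i ∈ t then a i else !a i

open Classical in
/-- the table -/
noncomputable def tab (a : Fin n → Bool) (z : Qu n k → Bool) (p : Fin n → Bool) : Option Bool :=
  if ∃ t : Qu n k, z t = false ∧ p = far a t.1 then some false else none

theorem far_eq_iff (a : Fin n → Bool) (t : Finset (Fin n)) (i : Fin n) :
    far a t i = a i ↔ i ∈ t := by
  unfold far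
  split_ifs with h
  · simp [h]
  · simp [h]

theorem not_ball (a : Fin n → Bool) (t : Qu n k) (hk : k + 2 ≤ n) : ¬ Ball a (far a t.1) := by
  have hc : 2 ≤ (t.1ᶜ).card := by
    rw [card_compl, Fintype.card_fin, t.2]
    omega
  obtain ⟨i, hi, j, hj, hij⟩ := one_lt_card.1 (by omega : 1 < (t.1ᶜ).card)
  rw [mem_compl] at hi hj
  rintro (h | ⟨l, h⟩)
  · exact hi ((far_eq_iff a t.1 i).1 (congrFun h i))
  · have hi' : far a t.1 i ≠ a i := fun h' => hi ((far_eq_iff a t.1 i).1 h')
    have hj' : far a t.1 j ≠ a j := fun h' => hj ((far_eq_iff a t.1 j).1 h')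
    rw [h] at hi' hj'
    unfold flip at hi' hj'
    by_cases hil : i = l
    · rw [Function.update_of_ne (by rw [← hil]; exact hij.symm)] at hj'
      exact hj' rfl
    · rw [Function.update_of_ne hil] at hi'
      exact hi' rfl

theorem easy_table {F : ((Fin n → Bool) → Bool) → Prop} (hF : Class n k F) (hk : k + 2 ≤ n)
    (a : Fin n → Bool) (z : Qu n k → Bool) (t : Qu n k) (T : (Fin n → Bool) → Option Bool)
    (h1 : ∀ p, Ball a p → T p = qry a t p) (h2 : ∀ p, ¬ Ball a p → T p = tab a z p) :
    easy F T = z t := by
  classical
  have key : (∃ f, F f ∧ ∀ x b, T x = some b → f x = b) ↔ z t = true := by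
    constructor
    · rintro ⟨f, hf, hc⟩
      by_contra hz
      have hz' : z t = false := by simpa using hz
      obtain ⟨V, hV, hdep⟩ := hF.dep f hf
      have ha : f a = true := hc a true (by
        rw [h1 a (Or.inl rfl)]
        unfold qry
        rw [if_pos rfl])
      have hfl : ∀ i ∈ t.1, f (flip a i) = false := by
        intro i hi
        refine hc _ false ?_
        rw [h1 _ (Or.inr ⟨i, rfl⟩)]
        unfold qry
        rw [if_neg (flip_ne a i), if_pos ⟨i, hi, rfl⟩]
      have hsub : t.1 ⊆ V := by
        intro i hi
        by_contra hiV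
        have h3 := hdep a (flip a i) (fun j hj => by
          unfold flip
          rw [Function.update_of_ne (fun h => hiV (by rw [← h]; exact hj))])
        rw [ha, hfl i hi] at h3
        exact absurd h3 (by simp)
      have hVt : V = t.1 := (eq_of_subset_of_card_le hsub (by rw [t.2]; exact hV)).symm
      have h4 : f (far a t.1) = f a := hdep _ _ (fun i hi => by
        rw [hVt] at hi
        exact (far_eq_iff a t.1 i).2 hi)
      have h5 : f (far a t.1) = false := by
        refine hc _ false ?_
        rw [h2 _ (not_ball a t hk)]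
        unfold tab
        rw [if_pos ⟨t, hz', rfl⟩]
      rw [h4, ha] at h5
      exact absurd h5 (by simp)
    · intro hz
      refine ⟨_, hF.conj a t.1 t.2, fun x b hx => ?_⟩
      by_cases hb : Ball a x
      · rw [h1 x hb] at hx
        unfold qry at hx
        split_ifs at hx with h3 h4
        · subst h3
          simp only [implies_true, decide_true]
          exact Option.some_injective _ hx
        · obtain ⟨i, hi, rfl⟩ := h4
          have : ¬ ∀ j ∈ t.1, flip a i j = a j := by
            intro h5
            have := h5 i hi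
            simp [flip] at this
          rw [decide_eq_false this]
          exact Option.some_injective _ hx
      · rw [h2 x hb] at hx
        unfold tab at hx
        split_ifs at hx with h3
        obtain ⟨t', hz', rfl⟩ := h3
        have : ¬ ∀ j ∈ t.1, far a t'.1 j = a j := by
          intro h5
          have hsub : t.1 ⊆ t'.1 := fun j hj => (far_eq_iff a t'.1 j).1 (h5 j hj)
          have h6 : t.1 = t'.1 := eq_of_subset_of_card_le hsub (by rw [t.2, t'.2])
          have h7 : t = t' := Subtype.ext h6
          rw [h7, hz'] at hz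
          exact absurd hz (by simp)
        rw [decide_eq_false this]
        exact Option.some_injective _ hx
  unfold easy
  by_cases hz : z t = true
  · rw [hz]
    exact decide_eq_true (key.2 hz)
  · have hz' : z t = false := by simpa using hz
    rw [hz']
    exact decide_eq_false (fun h => hz (key.1 h))

theorem card_Qu : Fintype.card (Qu n k) = n.choose k := by
  classical
  rw [Fintype.card_subtype]
  have h : (univ.filter fun t : Finset (Fin n) => t.card = k) = powersetCard k univ := by
    ext t
    rw [mem_filter, mem_powersetCard]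
    simp
  rw [h, card_powersetCard, card_univ, Fintype.card_fin]

theorem asks {F : ((Fin n → Bool) → Bool) → Prop} (hF : Class n k F) (hk : k + 2 ≤ n) {σ : ℕ}
    {a : Fin n → Bool} (ha : a ∈ code n σ) :
    Asks (D := fun _ : Fin n → Bool => (Fin n → Bool) → Option Bool) (Qu n k) (n.choose k) 0
      (fun _ => True) (fun x => easy F (ungroup (blk (code n σ)) x)) a := by
  classical
  refine asks_of (univ.image (fun t : Qu n k => qry a t)) (fun _ => 0)
    (fun t _ => qry a t) (fun z _ => tab a z) ?_ ?_ ?_ ?_ ?_
  · refine card_image_le.trans ?_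
    rw [card_univ, card_Qu]
  · intro t z
    exact mem_image_of_mem _ (mem_univ _)
  · intro t z z' _
    rfl
  · intro t z
    trivial
  · have h : ∀ (z : Qu n k → Bool) (t : Qu n k),
        easy F (ungroup (blk (code n σ)) (Function.update (fun _ => tab a z) a (qry a t))) =
          z t := by
      intro z t
      refine easy_table hF hk a z t _ ?_ ?_
      · intro p hp
        unfold ungroup
        rw [(blk_iff ha p).2 hp, Function.update_self]
      · intro p hp
        unfold ungroup
        rw [Function.update_of_ne (fun h => hp ((blk_iff ha p).1 h))]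
    simp only [h, ne_eq, not_true_eq_false, filter_false, card_empty]
    simp

end Pool.Agent.Y638.RF.PT
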