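import Pool.Agent.Y638.RF.PT

set_option autoImplicit false

/-! # Partial truth tables and real formulas: the bounds -/

namespace Pool.Agent.Y638.RF.PT

open Finset Pool.Agent.TH697.Form Pool.Agent.TH697.Row
open Pool.Agent.Y638.RF

variable {n k w : ℕ}

theorem far_enough (hn : 14 ≤ n) (h : 1000 * n ≤ n.choose k) : k + 2 ≤ n := by
  by_contra hcon
  push Not at hcon
  rcases Nat.lt_or_ge n k with hk | hk
  · rw [Nat.choose_eq_zero_of_lt hk] at h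
    omega
  · have h1 := Nat.choose_symm hk
    have h2 : n - k = 0 ∨ n - k = 1 := by omega
    rcases h2 with h2 | h2
    · rw [h2, Nat.choose_zero_right] at h1
      omega
    · rw [h2, Nat.choose_one_right] at h1
      omega

theorem sizes (hn : 14 ≤ n) (s : ℕ) (hs : s < (2 ^ n) ^ 2) :
    4 * n.choose k * (2 * s + 1) + 2 + s ≤ (2 ^ n) ^ 4 := by
  have h1 : n.choose k ≤ 2 ^ n := Nat.choose_le_two_pow n k
  have h2 : 2 ^ 14 ≤ 2 ^ n := Nat.pow_le_pow_right (by norm_num) hn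
  obtain ⟨X, hX⟩ : ∃ X, X = 2 ^ n := ⟨_, rfl⟩
  rw [← hX] at h1 h2 hs ⊢
  have h3 : 4 * n.choose k * (2 * s + 1) ≤ 4 * X * (2 * X ^ 2) :=
    Nat.mul_le_mul (Nat.mul_le_mul_left _ h1) (by omega)
  have h4 : 4 * X * (2 * X ^ 2) = 8 * X ^ 3 := by ring
  have h5 : X ^ 2 ≤ X ^ 3 := Nat.pow_le_pow_right (by omega) (by norm_num)
  have h6 : 2 ^ 14 * X ^ 3 ≤ X ^ 4 := by
    calc 2 ^ 14 * X ^ 3 ≤ X * X ^ 3 := Nat.mul_le_mul_right _ h2
      _ = X ^ 4 := by ring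
  have h7 : 1 ≤ X ^ 3 := Nat.one_le_pow _ _ (by omega)
  omega

theorem logb_three : Real.logb 2 ((3 : ℕ) : ℝ) ≤ 8 / 5 := by
  rw [Real.logb_le_iff_le_rpow (by norm_num) (by norm_num)]
  have h7 : ((3 : ℕ) : ℝ) = ((3 : ℝ) ^ (5 : ℕ)) ^ ((1 : ℝ) / 5) := by
    rw [← Real.rpow_natCast, ← Real.rpow_mul (by norm_num)]
    norm_num
  have h8 : (2 : ℝ) ^ ((8 : ℝ) / 5) = ((2 : ℝ) ^ (8 : ℕ)) ^ ((1 : ℝ) / 5) := by
    rw [← Real.rpow_natCast, ← Real.rpow_mul (by norm_num)]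
    norm_num
  rw [h7, h8]
  exact Real.rpow_le_rpow (by norm_num) (by norm_num) (by norm_num)

theorem logb_M : Real.logb 2 (((2 ^ n) ^ 4 : ℕ) : ℝ) = 4 * n := by
  have h : ((2 : ℕ) : ℝ) = 2 := by norm_num
  rw [Nat.cast_pow, Nat.cast_pow, Real.logb_pow, Real.logb_pow, h,
    Real.logb_self_eq_one (by norm_num)]
  push_cast
  ring

theorem program_bound {F : ((Fin n → Bool) → Bool) → Prop} (hF : Class n k F) (hn : 14 ≤ n)
    (hk : 1000 * n ≤ n.choose k) (hw : 1 ≤ w) {Ω : Type} [Fintype Ω] (μ : Ω → ℝ)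
    (hμ : IsProb μ) (s : ℕ)
    (B : Ω → Program (Fin n → Bool) (fun _ => Option Bool) w 3 s)
    (hB : ApproximatesOn μ (fun ω => (B ω).eval) (fun _ => True) (easy F)) :
    (2 : ℝ) ^ n * n.choose k ≤ 1300 * n * w * (n + w) * s := by
  classical
  have hn' : (14 : ℝ) ≤ n := by exact_mod_cast hn
  have hw' : (1 : ℝ) ≤ w := by exact_mod_cast hw
  have hs0 : (0 : ℝ) ≤ s := Nat.cast_nonneg s
  have hT : (n.choose k : ℝ) ≤ 2 ^ n := by exact_mod_cast Nat.choose_le_two_pow n k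
  have hnw : (1 : ℝ) ≤ 1300 * n * w * (n + w) := by
    have h1 : (1 : ℝ) ≤ n * w := by nlinarith
    nlinarith
  by_cases hs : (2 ^ n) ^ 2 ≤ s
  · have h1 : ((2 : ℝ) ^ n) ^ 2 ≤ s := by exact_mod_cast hs
    have h2 : (0 : ℝ) ≤ 2 ^ n := by positivity
    nlinarith
  obtain ⟨σ, hσ⟩ := exists_code n
  have hB' : ApproximatesOn μ (fun ω => ((B ω).grp (blk (code n σ))).eval) (fun _ => True)
      (fun x => easy F (ungroup (blk (code n σ)) x)) := by
    intro x hx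
    have := hB (ungroup (blk (code n σ)) x) trivial
    simpa only [Program.eval_grp] using this
  have h := program_lower μ hμ s (fun ω => (B ω).grp (blk (code n σ))) (fun _ => True) _ hB'
    (by norm_num) hw (n.choose k) ((2 ^ n) ^ 4) (sizes hn s (by omega)) 0 (code n σ) (T := Qu n k)
    (fun a ha => asks hF (far_enough hn hk) ha)
  rw [logb_M, card_Qu] at h
  have hL := logb_three
  have hL0 : 0 ≤ Real.logb 2 ((3 : ℕ) : ℝ) := Real.logb_nonneg (by norm_num) (by norm_num)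
  have hσ' : (2 : ℝ) ^ n ≤ (2 * n + 1) * ((code n σ).card : ℝ) := by exact_mod_cast hσ
  have hk' : (1000 : ℝ) * n ≤ n.choose k := by exact_mod_cast hk
  obtain ⟨T, hT'⟩ : ∃ T : ℝ, T = (n.choose k : ℝ) := ⟨_, rfl⟩
  obtain ⟨X, hX⟩ : ∃ X : ℝ, X = (2 : ℝ) ^ n := ⟨_, rfl⟩
  obtain ⟨c, hc⟩ : ∃ c : ℝ, c = ((code n σ).card : ℝ) := ⟨_, rfl⟩
  obtain ⟨L, hL'⟩ : ∃ L : ℝ, L = Real.logb 2 ((3 : ℕ) : ℝ) := ⟨_, rfl⟩
  obtain ⟨N, hN⟩ : ∃ N : ℝ, N = (n : ℝ) := ⟨_, rfl⟩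
  have hc0 : 0 ≤ c := by rw [hc]; positivity
  rw [← hT', ← hN] at hk'
  rw [← hX, ← hN, ← hc] at hσ'
  rw [← hL'] at hL hL0
  rw [← hc, ← hT', ← hL', ← hN] at h
  rw [← hN] at hn' hnw
  rw [← hX, ← hT', ← hN]
  have h1 : 97 / 1250 * T ≤ (49 / 600 - 0) * T - 4 * N := by linarith
  have h2 : c * (97 / 1250 * T) ≤ c * ((49 / 600 - 0) * T - 4 * N) :=
    mul_le_mul_of_nonneg_left h1 hc0
  have h3 : (w : ℝ) * (3 + 12 * (4 * N) + 2 * (w - 1) * L) ≤ w * (48 * (N + w)) := by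
    have h4 : ((w : ℝ) - 1) * L ≤ (w - 1) * (8 / 5) :=
      mul_le_mul_of_nonneg_left hL (by linarith)
    apply mul_le_mul_of_nonneg_left _ (by linarith)
    linarith
  have h4 := mul_le_mul_of_nonneg_right h3 hs0
  have h5 : c * T ≤ 1250 / 97 * (w * (48 * (N + w)) * s) := by linarith
  have hT0 : 0 ≤ T := by linarith
  have h6 : X * T ≤ (2 * N + 1) * c * T := mul_le_mul_of_nonneg_right hσ' hT0
  have h7 : (2 * N + 1) * (c * T) ≤ (2 * N + 1) * (1250 / 97 * (w * (48 * (N + w)) * s)) :=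
    mul_le_mul_of_nonneg_left h5 (by linarith)
  have h8 : 0 ≤ (w : ℝ) * (N + w) * s := by positivity
  have h9 : (2 * N + 1) * (w * (N + w) * s) ≤ 29 / 14 * N * (w * (N + w) * s) :=
    mul_le_mul_of_nonneg_right (by linarith) h8
  have h10 : 0 ≤ N * ((w : ℝ) * (N + w) * s) := mul_nonneg (by linarith) h8
  nlinarith

theorem net_bound {F : ((Fin n → Bool) → Bool) → Prop} (hF : Class n k F) (hn : 14 ≤ n)
    (hk : 1000 * n ≤ n.choose k) (hw : 1 ≤ w) {Ω : Type} [Fintype Ω] (μ : Ω → ℝ)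
    (hμ : IsProb μ) (s : ℕ)
    (N : Ω → Net (Fin n → Bool) (fun _ => Option Bool) w 3) (hsz : ∀ ω, (N ω).size ≤ s)
    (hN : ApproximatesOn μ (fun ω => (N ω).eval) (fun _ => True) (easy F) ∨
      ApproximatesOn μ (fun ω x => !(N ω).eval x) (fun _ => True) (easy F)) :
    (2 : ℝ) ^ n * n.choose k ≤ 8300 * n * w * (Real.sqrt (n.choose k) + 40 * n + 4 * w) * s := by
  classical
  have hn' : (14 : ℝ) ≤ n := by exact_mod_cast hn
  have hw' : (1 : ℝ) ≤ w := by exact_mod_cast hw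
  have hs0 : (0 : ℝ) ≤ s := Nat.cast_nonneg s
  have hT : (n.choose k : ℝ) ≤ 2 ^ n := by exact_mod_cast Nat.choose_le_two_pow n k
  have hr := Real.sqrt_nonneg (n.choose k : ℝ)
  by_cases hs : (2 ^ n) ^ 2 ≤ s
  · have h1 : ((2 : ℝ) ^ n) ^ 2 ≤ s := by exact_mod_cast hs
    have h2 : (0 : ℝ) ≤ 2 ^ n := by positivity
    have hnw : (1 : ℝ) ≤ 8300 * n * w * (Real.sqrt (n.choose k) + 40 * n + 4 * w) := by
      have h1 : (1 : ℝ) ≤ n * w := by nlinarith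
      nlinarith
    nlinarith
  obtain ⟨σ, hσ⟩ := exists_code n
  have hN' : ApproximatesOn μ (fun ω => ((N ω).grp (blk (code n σ))).eval) (fun _ => True)
      (fun x => easy F (ungroup (blk (code n σ)) x)) ∨
      ApproximatesOn μ (fun ω x => !((N ω).grp (blk (code n σ))).eval x) (fun _ => True)
      (fun x => easy F (ungroup (blk (code n σ)) x)) := by
    rcases hN with hN | hN
    · left
      intro x hx
      have := hN (ungroup (blk (code n σ)) x) trivial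
      simpa only [Net.eval_grp] using this
    · right
      intro x hx
      have := hN (ungroup (blk (code n σ)) x) trivial
      simpa only [Net.eval_grp] using this
  have hk' : (1000 : ℝ) * n ≤ n.choose k := by exact_mod_cast hk
  have h := net_bound_le μ hμ (fun ω => (N ω).grp (blk (code n σ))) (fun _ => True) _ hN' s
    (fun ω => by rw [Net.size_grp]; exact hsz ω) (by norm_num) hw (n.choose k) ((2 ^ n) ^ 4)
    (sizes hn s (by omega)) 0 (by norm_num) (code n σ) (T := Qu n k)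
    (fun a ha => asks hF (far_enough hn hk) ha) (n.choose k : ℝ) (by linarith)
    (by rw [card_Qu])
  rw [logb_M] at h
  have hL := logb_three
  have hL0 : 0 ≤ Real.logb 2 ((3 : ℕ) : ℝ) := Real.logb_nonneg (by norm_num) (by norm_num)
  have hσ' : (2 : ℝ) ^ n ≤ (2 * n + 1) * ((code n σ).card : ℝ) := by exact_mod_cast hσ
  obtain ⟨T, hT'⟩ : ∃ T : ℝ, T = (n.choose k : ℝ) := ⟨_, rfl⟩
  obtain ⟨X, hX⟩ : ∃ X : ℝ, X = (2 : ℝ) ^ n := ⟨_, rfl⟩
  obtain ⟨c, hc⟩ : ∃ c : ℝ, c = ((code n σ).card : ℝ) := ⟨_, rfl⟩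
  obtain ⟨L, hL'⟩ : ∃ L : ℝ, L = Real.logb 2 ((3 : ℕ) : ℝ) := ⟨_, rfl⟩
  obtain ⟨m, hm⟩ : ∃ m : ℝ, m = (n : ℝ) := ⟨_, rfl⟩
  have hc0 : 0 ≤ c := by rw [hc]; positivity
  rw [← hT', ← hm] at hk'
  rw [← hX, ← hm, ← hc] at hσ'
  rw [← hL'] at hL hL0
  rw [← hc, ← hT', ← hL', ← hm] at h
  rw [← hm] at hn'
  rw [← hT'] at hr
  rw [← hX, ← hT', ← hm]
  obtain ⟨r, hr'⟩ : ∃ r : ℝ, r = Real.sqrt T := ⟨_, rfl⟩
  rw [← hr'] at h hr ⊢
  have hT0 : 0 ≤ T := by linarith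
  have h3 : 4000 * (w : ℝ) * (r + (3 + 10 * (4 * m) + 2 * (w - 1) * L)) ≤
      4000 * w * (r + 40 * m + 4 * w) := by
    have h4 : ((w : ℝ) - 1) * L ≤ (w - 1) * (8 / 5) :=
      mul_le_mul_of_nonneg_left hL (by linarith)
    apply mul_le_mul_of_nonneg_left _ (by linarith)
    linarith
  have h4 := h.trans (mul_le_mul_of_nonneg_right h3 hs0)
  have h6 : X * T ≤ (2 * m + 1) * c * T := mul_le_mul_of_nonneg_right hσ' hT0
  have h7 : (2 * m + 1) * (c * T) ≤ (2 * m + 1) * (4000 * w * (r + 40 * m + 4 * w) * s) :=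
    mul_le_mul_of_nonneg_left h4 (by linarith)
  have h8 : 0 ≤ (w : ℝ) * (r + 40 * m + 4 * w) * s := by
    have : 0 ≤ r + 40 * m + 4 * (w : ℝ) := by linarith
    positivity
  have h9 : (2 * m + 1) * (w * (r + 40 * m + 4 * w) * s) ≤
      29 / 14 * m * (w * (r + 40 * m + 4 * w) * s) :=
    mul_le_mul_of_nonneg_right (by linarith) h8
  have h10 : 0 ≤ m * ((w : ℝ) * (r + 40 * m + 4 * w) * s) := mul_nonneg (by linarith) h8
  nlinarith

end Pool.Agent.Y638.RF.PT
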