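import Pool.Agent.Y638.RF.Defs

set_option autoImplicit false

/-! # Products `u_iᵀ M v_i` over `ZMod 2` -/

namespace Pool.Agent.Y638.RF.Xor

/-- The items of the input: the `n × n` matrix over `ZMod 2` is item `none`, and the `i`-th pair of
vectors is item `some i`. -/
abbrev Item (n : ℕ) : Option (Fin n) → Type
  | none => Fin n → Fin n → ZMod 2
  | some _ => (Fin n → ZMod 2) × (Fin n → ZMod 2)

/-- Is `u_iᵀ M v_i = 1` for some `i`? -/
def product (n : ℕ) (x : ∀ i, Item n i) : Bool :=
  decide (∃ i : Fin n, ∑ j : Fin n, ∑ k : Fin n,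
    (x (some i)).1 j * (x none) j k * (x (some i)).2 k = 1)

end Pool.Agent.Y638.RF.Xor
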